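import Mathlib

/-! The divisor bound (taken over from an earlier run of this project). -/

namespace Pool.Agent.H555.Sieg

/-- The divisor bound: the number of divisors of `n` is at most `C n ^ δ`. -/
theorem divisor_bound (δ : ℝ) (hδ : 0 < δ) :
    ∃ C : ℝ, 0 < C ∧ ∀ n : ℕ, n ≠ 0 → (n.divisors.card : ℝ) ≤ C * (n : ℝ) ^ δ := by
  set c0 : ℝ := 1 + 1 / (δ * Real.log 2) with hc0
  have hl : 0 < Real.log 2 := Real.log_pos one_lt_two
  have hc1 : 1 ≤ c0 := by
    have : 0 < 1 / (δ * Real.log 2) := by positivity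
    linarith
  set B : ℕ := ⌈(2 : ℝ) ^ (1 / δ)⌉₊ with hB
  refine ⟨c0 ^ B, by positivity, fun n hn => ?_⟩
  have hfac : ∀ p ∈ n.primeFactors, ((n.factorization p + 1 : ℕ) : ℝ) ≤
      (if p < B then c0 else 1) * ((p : ℝ) ^ n.factorization p) ^ δ := by
    intro p hp
    have hp2 : (2 : ℝ) ≤ p := by exact_mod_cast (Nat.prime_of_mem_primeFactors hp).two_le
    generalize n.factorization p = a
    have ha : (0 : ℝ) ≤ a := Nat.cast_nonneg a
    split_ifs with h
    · have h1 : ((2 : ℝ) ^ a) ^ δ ≤ ((p : ℝ) ^ a) ^ δ := by gcongr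
      have h2 : 1 + a * (δ * Real.log 2) ≤ ((2 : ℝ) ^ a) ^ δ := by
        rw [← Real.rpow_natCast, ← Real.rpow_mul (by norm_num), Real.rpow_def_of_pos (by norm_num)]
        have := Real.add_one_le_exp (Real.log 2 * (a * δ))
        linarith
      have h3 : ((a + 1 : ℕ) : ℝ) ≤ c0 * (1 + a * (δ * Real.log 2)) := by
        have e : c0 * (1 + a * (δ * Real.log 2)) =
            1 + a * (δ * Real.log 2) + 1 / (δ * Real.log 2) + a := by
          rw [hc0]; field_simp; ring
        rw [e]
        push_cast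
        have : 0 ≤ a * (δ * Real.log 2) := by positivity
        have : 0 < 1 / (δ * Real.log 2) := by positivity
        linarith
      calc _ ≤ _ := h3
        _ ≤ _ := by gcongr; exact h2.trans h1
    · have h1 : (2 : ℝ) ^ (1 / δ) ≤ p := by
        rw [← Nat.ceil_le]
        omega
      have h2 : (2 : ℝ) ≤ (p : ℝ) ^ δ := by
        calc (2 : ℝ) = ((2 : ℝ) ^ (1 / δ)) ^ δ := by
              rw [← Real.rpow_mul (by norm_num), one_div_mul_cancel hδ.ne', Real.rpow_one]
          _ ≤ _ := by gcongr
      have h3 : ((p : ℝ) ^ a) ^ δ = ((p : ℝ) ^ δ) ^ a := by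
        rw [← Real.rpow_natCast, ← Real.rpow_mul (by positivity), mul_comm,
          Real.rpow_mul (by positivity), Real.rpow_natCast]
      rw [one_mul, h3]
      calc ((a + 1 : ℕ) : ℝ) ≤ ((2 ^ a : ℕ) : ℝ) := by exact_mod_cast Nat.lt_two_pow_self
        _ = (2 : ℝ) ^ a := by push_cast; ring
        _ ≤ _ := by gcongr
  rw [Nat.card_divisors hn, Nat.cast_prod]
  refine (Finset.prod_le_prod (fun _ _ => by positivity) hfac).trans ?_
  rw [Finset.prod_mul_distrib, Real.finsetProd_rpow _ _ (fun _ _ => by positivity)]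
  have e : ∏ p ∈ n.primeFactors, (p : ℝ) ^ n.factorization p = n := by
    have := Nat.prod_factorization_pow_eq_self hn
    rw [Finsupp.prod, Nat.support_factorization] at this
    exact_mod_cast this
  rw [e]
  gcongr
  rw [Finset.prod_ite, Finset.prod_const, Finset.prod_const_one, mul_one]
  refine pow_le_pow_right₀ hc1 ?_
  calc _ ≤ (Finset.range B).card := Finset.card_le_card (fun p hp => by
        simp only [Finset.mem_filter] at hp
        exact Finset.mem_range.2 hp.2)
    _ = B := Finset.card_range B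

end Pool.Agent.H555.Sieg
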