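import Mathlib

/-! Few points of a modular hyperbola in a box of side a little larger than `√p`. -/

open Finset

namespace Pool.Agent.H555.Sieg

/-- Simultaneous approximation with a common denominator `t ≤ T ^ 2`. -/
lemma dirichlet2 (p T : ℕ) (hp : 0 < p) (hT : 0 < T) (x y : ℤ) :
    ∃ t : ℕ, 1 ≤ t ∧ t ≤ T ^ 2 ∧ ∃ a b : ℤ, (p : ℤ) ∣ t * x - a ∧ (p : ℤ) ∣ t * y - b ∧
      |a| * T < p ∧ |b| * T < p := by
  have hp' : (0 : ℤ) < p := by exact_mod_cast hp
  have hT' : (0 : ℤ) < T := by exact_mod_cast hT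
  set f : ℕ → ℤ × ℤ := fun t => (T * ((t * x) % p) / p, T * ((t * y) % p) / p) with hf
  have key : ∀ z : ℤ, 0 ≤ T * (z % p) / p ∧ T * (z % p) / p < T := by
    intro z
    have h1 := Int.emod_nonneg z hp'.ne'
    have h2 := Int.emod_lt_of_pos z hp'
    refine ⟨Int.ediv_nonneg (by positivity) hp'.le, ?_⟩
    rw [Int.ediv_lt_iff_lt_mul hp']
    exact mul_lt_mul_of_pos_left h2 hT'
  obtain ⟨t₁, ht₁, t₂, ht₂, hne, heq⟩ := Finset.exists_ne_map_eq_of_card_lt_of_maps_to
    (s := Finset.range (T ^ 2 + 1)) (t := Finset.Ico (0 : ℤ) T ×ˢ Finset.Ico (0 : ℤ) T) (f := f)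
    (by rw [Finset.card_product, Finset.card_range, Int.card_Ico]; simp; nlinarith)
    (by
      intro t _
      rw [Finset.mem_coe, Finset.mem_product, Finset.mem_Ico, Finset.mem_Ico]
      exact ⟨key _, key _⟩)
  have main : ∀ t₁ t₂ : ℕ, t₁ < t₂ → t₂ ≤ T ^ 2 → f t₁ = f t₂ → ∃ t : ℕ, 1 ≤ t ∧ t ≤ T ^ 2 ∧
      ∃ a b : ℤ, (p : ℤ) ∣ t * x - a ∧ (p : ℤ) ∣ t * y - b ∧ |a| * T < p ∧ |b| * T < p := by
    intro t₁ t₂ h12 h2 h
    have dd : ∀ z : ℤ, T * ((t₁ * z) % p) / p = T * ((t₂ * z) % p) / p →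
        (p : ℤ) ∣ ((t₂ - t₁ : ℕ) : ℤ) * z - ((t₂ * z) % p - (t₁ * z) % p) ∧
        |(t₂ * z) % p - (t₁ * z) % p| * T < p := by
      intro z hz
      constructor
      · have e1 := Int.emod_add_mul_ediv (t₂ * z) p
        have e2 := Int.emod_add_mul_ediv (t₁ * z) p
        refine ⟨(t₂ * z) / p - (t₁ * z) / p, ?_⟩
        push_cast [Nat.cast_sub h12.le]
        linear_combination e2 - e1
      · have e1 := Int.emod_add_mul_ediv (T * ((t₁ * z) % p)) p
        have e2 := Int.emod_add_mul_ediv (T * ((t₂ * z) % p)) p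
        rw [← hz] at e2
        have l1 := Int.emod_nonneg (T * ((t₁ * z) % p)) hp'.ne'
        have l2 := Int.emod_lt_of_pos (T * ((t₁ * z) % p)) hp'
        have l3 := Int.emod_nonneg (T * ((t₂ * z) % p)) hp'.ne'
        have l4 := Int.emod_lt_of_pos (T * ((t₂ * z) % p)) hp'
        have e3 : ((t₂ * z) % p - (t₁ * z) % p) * T =
            (T * ((t₂ * z) % p)) % p - (T * ((t₁ * z) % p)) % p := by
          linear_combination e1 - e2
        rw [show |(t₂ * z) % p - (t₁ * z) % p| * (T : ℤ) = |((t₂ * z) % p - (t₁ * z) % p) * T| by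
          rw [abs_mul, abs_of_pos hT'], e3, abs_lt]
        constructor <;> linarith
    obtain ⟨h3, h4⟩ := Prod.mk.inj h
    obtain ⟨d1, d2⟩ := dd x h3
    obtain ⟨d3, d4⟩ := dd y h4
    exact ⟨t₂ - t₁, by omega, by omega, _, _, d1, d3, d2, d4⟩
  rw [Finset.mem_range] at ht₁ ht₂
  rcases lt_or_gt_of_ne hne with h | h
  · exact main t₁ t₂ h (by omega) heq
  · exact main t₂ t₁ h (by omega) heq.symm

lemma div_count (N : ℤ) (hN : N ≠ 0) (G : Finset (ℤ × ℤ)) (hG : ∀ q ∈ G, q.1 * q.2 = N) :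
    #G ≤ 2 * #(N.natAbs.divisors) := by
  have h1 : #G ≤ #(N.natAbs.divisors ×ˢ (Finset.univ : Finset Bool)) := by
    refine Finset.card_le_card_of_injOn (fun q => (q.1.natAbs, decide (0 ≤ q.1))) ?_ ?_
    · intro q hq
      rw [Finset.mem_coe, Finset.mem_product, Nat.mem_divisors]
      refine ⟨⟨?_, by simpa using hN⟩, Finset.mem_univ _⟩
      rw [Int.natAbs_dvd_natAbs]
      exact ⟨q.2, (hG q hq).symm⟩
    · intro q hq q' hq' h
      obtain ⟨h2, h3⟩ := Prod.mk.inj h
      rw [decide_eq_decide] at h3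
      have h4 : q.1 = q'.1 := by omega
      have h5 := hG q hq
      have h6 := hG q' hq'
      have h7 : q.1 ≠ 0 := by
        rintro h
        rw [h, zero_mul] at h5
        exact hN h5.symm
      have h8 : q.2 = q'.2 := by
        rw [← h4] at h6
        exact mul_left_cancel₀ h7 (h5.trans h6.symm)
      exact Prod.ext h4 h8
  rw [Finset.card_product, Finset.card_univ, Fintype.card_bool] at h1
  omega

/-- the residues whose absolutely least representative is at most `V` in absolute value -/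
def box (p V : ℕ) [NeZero p] : Finset (ZMod p) :=
  Finset.univ.filter fun x : ZMod p => x.valMinAbs.natAbs ≤ V

lemma card_box (p V : ℕ) [NeZero p] : #(box p V) ≤ 2 * V + 1 := by
  have h : #(box p V) ≤ #(Finset.Icc (-(V : ℤ)) V) := by
    refine Finset.card_le_card_of_injOn ZMod.valMinAbs ?_ ?_
    · intro x hx
      rw [Finset.mem_coe, box, Finset.mem_filter] at hx
      rw [Finset.mem_coe, Finset.mem_Icc]
      omega
    · intro x _ y _ h
      exact ZMod.injective_valMinAbs h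
  rw [Int.card_Icc] at h
  omega

theorem hyper (p : ℕ) [Fact p.Prime] (V T D K : ℕ) (hT : 0 < T) (hTp : T ^ 2 < p)
    (hK : T ^ 2 * V ^ 2 * T + 2 * p * V + p * T ≤ p * K * T)
    (hD : ∀ N : ℕ, N ≠ 0 → N ≤ (T ^ 2 * V + p) ^ 2 → #N.divisors ≤ D)
    (α β γ : ZMod p) (hγ : γ ≠ 0) :
    #((box p V ×ˢ box p V).filter fun q : ZMod p × ZMod p => (q.1 + α) * (q.2 + β) = γ) ≤
      2 * D * (2 * K + 1) := by
  have hp : 0 < p := (Fact.out : p.Prime).pos
  obtain ⟨t, ht1, htT, a, b, hxa, hyb, ha, hb⟩ := dirichlet2 p T hp hT (α.val : ℤ) (β.val : ℤ)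
  have hta : (t : ZMod p) * α = (a : ZMod p) := by
    have := (ZMod.intCast_zmod_eq_zero_iff_dvd _ p).2 hxa
    push_cast at this
    rw [ZMod.natCast_zmod_val] at this
    exact sub_eq_zero.1 this
  have htb : (t : ZMod p) * β = (b : ZMod p) := by
    have := (ZMod.intCast_zmod_eq_zero_iff_dvd _ p).2 hyb
    push_cast at this
    rw [ZMod.natCast_zmod_val] at this
    exact sub_eq_zero.1 this
  have ht0 : (t : ZMod p) ≠ 0 := by
    intro h
    rw [ZMod.natCast_eq_zero_iff] at h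
    have := Nat.le_of_dvd (by omega) h
    omega
  set c : ℤ := (((t : ZMod p) * (γ - α * β)).val : ℤ) with hc
  have hc0 : 0 ≤ c := by rw [hc]; positivity
  have hcp : c < p := by rw [hc]; exact_mod_cast ZMod.val_lt _
  have hcc : (c : ZMod p) = (t : ZMod p) * (γ - α * β) := by
    rw [hc]
    push_cast
    rw [ZMod.natCast_zmod_val]
  set E : ZMod p × ZMod p → ℤ := fun q => t * q.1.valMinAbs * q.2.valMinAbs + b * q.1.valMinAbs +
    a * q.2.valMinAbs with hE
  set G := (box p V ×ˢ box p V).filter fun q : ZMod p × ZMod p => (q.1 + α) * (q.2 + β) = γ with hG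
  have hmem : ∀ q ∈ G, |q.1.valMinAbs| ≤ V ∧ |q.2.valMinAbs| ≤ V ∧ (q.1 + α) * (q.2 + β) = γ := by
    intro q hq
    rw [hG, Finset.mem_filter, Finset.mem_product, box, Finset.mem_filter, Finset.mem_filter] at hq
    refine ⟨?_, ?_, hq.2⟩
    · rw [Int.abs_eq_natAbs]; exact_mod_cast hq.1.1.2
    · rw [Int.abs_eq_natAbs]; exact_mod_cast hq.1.2.2
  have hEc : ∀ q ∈ G, (p : ℤ) ∣ E q - c := by
    intro q hq
    rw [← ZMod.intCast_zmod_eq_zero_iff_dvd]
    rw [hE]
    push_cast
    rw [hcc, ← hta, ← htb]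
    have := (hmem q hq).2.2
    linear_combination (t : ZMod p) * this
  have hT' : (0 : ℤ) < T := by exact_mod_cast hT
  have hp' : (0 : ℤ) < p := by exact_mod_cast hp
  have htT' : (t : ℤ) ≤ T ^ 2 := by exact_mod_cast htT
  have ht1' : (1 : ℤ) ≤ t := by exact_mod_cast ht1
  have hV0 : (0 : ℤ) ≤ V := by positivity
  have hEle : ∀ q ∈ G, |E q| * T ≤ T ^ 2 * V ^ 2 * T + 2 * p * V := by
    intro q hq
    obtain ⟨h1, h2, _⟩ := hmem q hq
    have e1 : |(t : ℤ) * q.1.valMinAbs * q.2.valMinAbs| ≤ T ^ 2 * V ^ 2 := by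
      rw [abs_mul, abs_mul, abs_of_nonneg (by positivity : (0 : ℤ) ≤ t)]
      calc (t : ℤ) * |q.1.valMinAbs| * |q.2.valMinAbs| ≤ T ^ 2 * V * V := by gcongr
        _ = T ^ 2 * V ^ 2 := by ring
    have e2 : |b * q.1.valMinAbs| * T ≤ p * V := by
      rw [abs_mul]
      calc |b| * |q.1.valMinAbs| * T = (|b| * T) * |q.1.valMinAbs| := by ring
        _ ≤ p * V := by gcongr
    have e3 : |a * q.2.valMinAbs| * T ≤ p * V := by
      rw [abs_mul]
      calc |a| * |q.2.valMinAbs| * T = (|a| * T) * |q.2.valMinAbs| := by ring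
        _ ≤ p * V := by gcongr
    have e4 : |E q| ≤ |(t : ℤ) * q.1.valMinAbs * q.2.valMinAbs| + |b * q.1.valMinAbs| +
        |a * q.2.valMinAbs| := by
      rw [hE]
      exact (abs_add_le _ _).trans (by gcongr; exact abs_add_le _ _)
    calc |E q| * T ≤ (|(t : ℤ) * q.1.valMinAbs * q.2.valMinAbs| + |b * q.1.valMinAbs| +
        |a * q.2.valMinAbs|) * T := by gcongr
      _ = |(t : ℤ) * q.1.valMinAbs * q.2.valMinAbs| * T + |b * q.1.valMinAbs| * T +
        |a * q.2.valMinAbs| * T := by ring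
      _ ≤ T ^ 2 * V ^ 2 * T + p * V + p * V := by gcongr
      _ = _ := by ring
  have hkK : ∀ q ∈ G, (E q - c) / p ∈ Finset.Icc (-(K : ℤ)) K := by
    intro q hq
    obtain ⟨k, hk⟩ := hEc q hq
    rw [hk, Int.mul_ediv_cancel_left _ hp'.ne', Finset.mem_Icc, ← abs_le]
    have h1 := hEle q hq
    have h2 : |(p : ℤ) * k| ≤ |E q| + p := by
      rw [← hk]
      calc |E q - c| ≤ |E q| + |c| := abs_sub _ _
        _ ≤ |E q| + p := by
          rw [abs_of_nonneg hc0]
          linarith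
    rw [abs_mul, abs_of_pos hp'] at h2
    have hK' : ((T : ℤ) ^ 2 * V ^ 2 * T + 2 * p * V + p * T) ≤ p * K * T := by exact_mod_cast hK
    have h3 : (p : ℤ) * T * |k| ≤ p * T * K := by nlinarith
    exact le_of_mul_le_mul_left h3 (by positivity)
  have himg : G.image (fun q => (E q - c) / p) ⊆ Finset.Icc (-(K : ℤ)) K := by
    intro k hk
    rw [Finset.mem_image] at hk
    obtain ⟨q, hq, rfl⟩ := hk
    exact hkK q hq
  have hcard : #(G.image (fun q => (E q - c) / p)) ≤ 2 * K + 1 := by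
    refine (Finset.card_le_card himg).trans ?_
    rw [Int.card_Icc]
    omega
  refine (Finset.card_le_mul_card_image (f := fun q => (E q - c) / p) G (2 * D) ?_).trans
    (Nat.mul_le_mul_left _ hcard)
  intro k hk
  rw [Finset.mem_image] at hk
  obtain ⟨q₀, hq₀, hk₀⟩ := hk
  have hfac : ∀ q ∈ G, (E q - c) / p = k →
      (t * q.1.valMinAbs + a) * (t * q.2.valMinAbs + b) = t * (c + p * k) + a * b := by
    intro q hq hqk
    obtain ⟨k', hk'⟩ := hEc q hq
    rw [hk', Int.mul_ediv_cancel_left _ hp'.ne'] at hqk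
    subst hqk
    have : E q = c + p * k' := by linarith
    rw [← this, hE]
    ring
  have hb1 : ∀ q ∈ G, |t * q.1.valMinAbs + a| ≤ T ^ 2 * V + p ∧ |t * q.2.valMinAbs + b| ≤ T ^ 2 * V + p := by
    intro q hq
    obtain ⟨h1, h2, _⟩ := hmem q hq
    have ha1 : |a| ≤ p := by nlinarith [abs_nonneg a]
    have hb1 : |b| ≤ p := by nlinarith [abs_nonneg b]
    constructor
    · refine (abs_add_le _ _).trans ?_
      rw [abs_mul, abs_of_nonneg (by positivity : (0 : ℤ) ≤ t)]
      gcongr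
    · refine (abs_add_le _ _).trans ?_
      rw [abs_mul, abs_of_nonneg (by positivity : (0 : ℤ) ≤ t)]
      gcongr
  have hN0 : (t : ℤ) * (c + p * k) + a * b ≠ 0 := by
    intro h
    rw [← hfac q₀ hq₀ hk₀, mul_eq_zero] at h
    have h3 := (hmem q₀ hq₀).2.2
    rcases h with h | h
    · have h2 : ((t : ZMod p)) * (q₀.1 + α) = 0 := by
        have := congrArg (fun z : ℤ => (z : ZMod p)) h
        push_cast at this
        rw [← hta] at this
        linear_combination this
      rcases mul_eq_zero.1 h2 with h2 | h2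
      · exact ht0 h2
      · rw [h2, zero_mul] at h3
        exact hγ h3.symm
    · have h2 : ((t : ZMod p)) * (q₀.2 + β) = 0 := by
        have := congrArg (fun z : ℤ => (z : ZMod p)) h
        push_cast at this
        rw [← htb] at this
        linear_combination this
      rcases mul_eq_zero.1 h2 with h2 | h2
      · exact ht0 h2
      · rw [h2, mul_zero] at h3
        exact hγ h3.symm
  have hNle : ((t : ℤ) * (c + p * k) + a * b).natAbs ≤ (T ^ 2 * V + p) ^ 2 := by
    have h1 := hb1 q₀ hq₀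
    have h2 : |(t : ℤ) * (c + p * k) + a * b| ≤ (T ^ 2 * V + p) ^ 2 := by
      rw [← hfac q₀ hq₀ hk₀, abs_mul, sq]
      exact mul_le_mul h1.1 h1.2 (abs_nonneg _) (by positivity)
    rw [Int.abs_eq_natAbs] at h2
    exact_mod_cast h2
  have hdiv := hD _ (by simpa using hN0) hNle
  set F := (G.filter fun q => (E q - c) / p = k).image
    fun q : ZMod p × ZMod p => (t * q.1.valMinAbs + a, t * q.2.valMinAbs + b) with hF
  have hFcard : #F = #(G.filter fun q => (E q - c) / p = k) := by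
    rw [hF, Finset.card_image_of_injective]
    intro q q' h
    obtain ⟨h1, h2⟩ := Prod.mk.inj h
    have h3 : q.1.valMinAbs = q'.1.valMinAbs := by
      have : (t : ℤ) * q.1.valMinAbs = t * q'.1.valMinAbs := by linarith
      exact mul_left_cancel₀ (by positivity) this
    have h4 : q.2.valMinAbs = q'.2.valMinAbs := by
      have : (t : ℤ) * q.2.valMinAbs = t * q'.2.valMinAbs := by linarith
      exact mul_left_cancel₀ (by positivity) this
    exact Prod.ext (ZMod.injective_valMinAbs h3) (ZMod.injective_valMinAbs h4)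
  rw [← hFcard]
  refine (div_count _ hN0 F ?_).trans (Nat.mul_le_mul_left _ hdiv)
  intro r hr
  rw [hF, Finset.mem_image] at hr
  obtain ⟨q, hq, rfl⟩ := hr
  rw [Finset.mem_filter] at hq
  exact hfac q hq.1 hq.2

end Pool.Agent.H555.Sieg
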