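import Mathlib

/-! Hankel determinants of exponential sums and the number of their windows in a box. -/

open Finset

namespace Pool.Agent.H555.Sieg

variable {K : Type*} [Field K]

/-- The Hankel determinant of the terms `f 0, …, f (2 n - 2)`. -/
def hk (n : ℕ) (f : ℕ → K) : K := (Matrix.of fun i j : Fin n => f (i + j)).det

lemma hk_zero (f : ℕ → K) : hk 0 f = 1 := by
  unfold hk
  exact Matrix.det_fin_zero

lemma hk_congr {n : ℕ} {f g : ℕ → K} (h : ∀ j, j + 2 ≤ 2 * n → f j = g j) : hk n f = hk n g := by
  unfold hk
  congr 1
  ext i j
  simp only [Matrix.of_apply]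
  exact h _ (by omega)

lemma hk_first (n : ℕ) (f : ℕ → K) :
    hk (n + 1) f = f 0 * hk n (fun j => f (j + 2)) + hk (n + 1) (Function.update f 0 0) := by
  unfold hk
  rw [Matrix.det_succ_row_zero, Matrix.det_succ_row_zero, Fin.sum_univ_succ, Fin.sum_univ_succ]
  simp only [Matrix.of_apply, Fin.val_zero, pow_zero, one_mul, add_zero, Function.update_self,
    zero_mul, zero_add, mul_zero]
  congr 1
  · congr 2
    ext i j
    simp only [Matrix.submatrix_apply, Matrix.of_apply, Fin.succAbove_zero, Fin.val_succ]
    congr 1
    ring
  · refine Finset.sum_congr rfl fun j _ => ?_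
    have e1 : Function.update f 0 0 ((j.succ : Fin (n + 1)) : ℕ) = f (j.succ : Fin (n + 1)) := by
      rw [Function.update_of_ne (by simp)]
    have e2 : (Matrix.of fun i j : Fin (n + 1) => f (i + j)).submatrix Fin.succ
        j.succ.succAbove = (Matrix.of fun i j : Fin (n + 1) => Function.update f 0 0 (i + j)).submatrix
          Fin.succ j.succ.succAbove := by
      ext i k
      simp only [Matrix.submatrix_apply, Matrix.of_apply, Fin.val_succ]
      rw [Function.update_of_ne (by omega)]
    rw [e1, e2]

lemma hk_last (n : ℕ) (f : ℕ → K) :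
    hk (n + 1) f = f (2 * n) * hk n f + hk (n + 1) (Function.update f (2 * n) 0) := by
  unfold hk
  rw [Matrix.det_succ_row _ (Fin.last n), Matrix.det_succ_row _ (Fin.last n),
    Fin.sum_univ_castSucc, Fin.sum_univ_castSucc, add_comm]
  have h2 : (n : ℕ) + n = 2 * n := by ring
  have hl : ((Fin.last n : Fin (n + 1)) : ℕ) = n := rfl
  simp only [Matrix.of_apply, hl, h2, Function.update_self, mul_zero, zero_mul, add_zero]
  congr 1
  · rw [pow_mul]
    simp only [even_two, Even.neg_pow, one_pow, one_mul, Fin.succAbove_last]
    congr 1
  · refine Finset.sum_congr rfl fun j _ => ?_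
    have hj := j.2
    congr 1
    · congr 1
      rw [Function.update_of_ne]
      simp only [Fin.val_castSucc]
      omega
    · congr 1
      ext i k
      simp only [Matrix.submatrix_apply, Matrix.of_apply, Fin.succAbove_last, Fin.val_castSucc]
      rw [Function.update_of_ne]
      have h1 := (j.castSucc.succAbove k).2
      have h3 := i.2
      omega

lemma hk_exp {l : ℕ} (t y : Fin l → K) (s : ℕ) :
    hk l (fun j => ∑ i, t i * y i ^ (s + j)) =
      (∏ i, t i) * (∏ i, y i) ^ s * (Matrix.vandermonde y).det ^ 2 := by
  have h : (Matrix.of fun i j : Fin l => ∑ k, t k * y k ^ (s + ((i : ℕ) + (j : ℕ)))) =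
      (Matrix.vandermonde y).transpose * Matrix.diagonal (fun k => t k * y k ^ s) *
        Matrix.vandermonde y := by
    ext i j
    rw [Matrix.mul_apply]
    simp only [Matrix.of_apply, Matrix.mul_diagonal, Matrix.transpose_apply,
      Matrix.vandermonde_apply]
    refine Finset.sum_congr rfl fun k _ => ?_
    rw [pow_add, pow_add]
    ring
  unfold hk
  simp only at h ⊢
  rw [h, Matrix.det_mul, Matrix.det_mul, Matrix.det_transpose, Matrix.det_diagonal,
    Finset.prod_mul_distrib, Finset.prod_pow]
  ring

/-- extension of a finite sequence by zero -/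
def ext {N : ℕ} (w : Fin N → K) (j : ℕ) : K := if h : j < N then w ⟨j, h⟩ else 0

lemma ext_lt {N : ℕ} (w : Fin N → K) {j : ℕ} (h : j < N) : ext w j = w ⟨j, h⟩ := by
  unfold ext; rw [dif_pos h]

variable [DecidableEq K]

/-- Few finite sequences with terms in `S` have a vanishing Hankel determinant. -/
lemma count_hk (S : Finset K) (N : ℕ) (n : ℕ) : ∀ s : ℕ, s + 2 * n ≤ N + 1 →
    #((Fintype.piFinset fun _ : Fin N => S).filter fun w => hk n (fun j => ext w (s + j)) = 0)
      ≤ n * #S ^ (N - 1) := by
  induction n with
  | zero =>
    intro s _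
    simp only [hk_zero, one_ne_zero, Finset.filter_false, Finset.card_empty, zero_mul, le_refl]
  | succ n ih =>
    intro s hs
    have hsN : s < N := by omega
    set A := (Fintype.piFinset fun _ : Fin N => S).filter
      fun w => hk n (fun j => ext w (s + 2 + j)) = 0 with hA
    set B := (Fintype.piFinset fun _ : Fin N => S).filter
      fun w => hk n (fun j => ext w (s + 2 + j)) ≠ 0 ∧ hk (n + 1) (fun j => ext w (s + j)) = 0 with hB
    have h1 : (Fintype.piFinset fun _ : Fin N => S).filter
        (fun w => hk (n + 1) (fun j => ext w (s + j)) = 0) ⊆ A ∪ B := by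
      intro w hw
      rw [Finset.mem_filter] at hw
      rw [Finset.mem_union, hA, hB, Finset.mem_filter, Finset.mem_filter]
      by_cases h : hk n (fun j => ext w (s + 2 + j)) = 0
      · exact Or.inl ⟨hw.1, h⟩
      · exact Or.inr ⟨hw.1, h, hw.2⟩
    have h2 : #A ≤ n * #S ^ (N - 1) := ih (s + 2) (by omega)
    have h3 : #B ≤ #S ^ (N - 1) := by
      have hc : #(Fintype.piFinset fun j : Fin N => if j = ⟨s, hsN⟩ then ({0} : Finset K) else S)
          = #S ^ (N - 1) := by
        rw [Fintype.card_piFinset]
        rw [← Finset.mul_prod_erase Finset.univ _ (Finset.mem_univ (⟨s, hsN⟩ : Fin N))]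
        simp only [if_true, Finset.card_singleton, one_mul]
        rw [Finset.prod_congr rfl (g := fun _ => #S)]
        · rw [Finset.prod_const, Finset.card_erase_of_mem (Finset.mem_univ _), Finset.card_univ,
            Fintype.card_fin]
        · intro j hj
          rw [if_neg (Finset.ne_of_mem_erase hj)]
      rw [← hc]
      refine Finset.card_le_card_of_injOn (fun w => Function.update w ⟨s, hsN⟩ 0) ?_ ?_
      · intro w hw
        rw [Finset.mem_coe, hB, Finset.mem_filter, Fintype.mem_piFinset] at hw
        rw [Finset.mem_coe, Fintype.mem_piFinset]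
        intro j
        by_cases h : j = ⟨s, hsN⟩
        · subst h
          simp
        · rw [if_neg h]
          simp only [Function.update_of_ne h]
          exact hw.1 j
      · intro w hw w' hw' hww
        rw [Finset.mem_coe, hB, Finset.mem_filter] at hw hw'
        have hoff : ∀ j : Fin N, (j : ℕ) ≠ s → w j = w' j := by
          intro j hj
          have := congrFun hww j
          simp only at this
          rwa [Function.update_of_ne (fun h => hj (by rw [h])),
            Function.update_of_ne (fun h => hj (by rw [h]))] at this
        have hoff2 : ∀ j : ℕ, j ≠ s → ext w j = ext w' j := by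
          intro j hj
          unfold ext
          by_cases h : j < N
          · rw [dif_pos h, dif_pos h]; exact hoff _ hj
          · rw [dif_neg h, dif_neg h]
        have e1 := hk_first n (fun j => ext w (s + j))
        have e2 := hk_first n (fun j => ext w' (s + j))
        rw [hw.2.2] at e1
        rw [hw'.2.2] at e2
        have e3 : hk n (fun j => ext w (s + (j + 2))) = hk n (fun j => ext w' (s + (j + 2))) := by
          refine hk_congr fun j _ => hoff2 _ (by omega)
        have e4 : hk (n + 1) (Function.update (fun j => ext w (s + j)) 0 0) =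
            hk (n + 1) (Function.update (fun j => ext w' (s + j)) 0 0) := by
          refine hk_congr fun j _ => ?_
          by_cases h : j = 0
          · subst h; simp
          · rw [Function.update_of_ne h, Function.update_of_ne h]
            exact hoff2 _ (by omega)
        have e5 : hk n (fun j => ext w (s + (j + 2))) ≠ 0 := by
          have := hw.2.1
          have h6 : hk n (fun j => ext w (s + (j + 2))) = hk n (fun j => ext w (s + 2 + j)) :=
            hk_congr fun j _ => by congr 1; ring
          rwa [h6]
        rw [← e4, ← e3] at e2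
        have e6 : ext w (s + 0) * hk n (fun j => ext w (s + (j + 2))) =
            ext w' (s + 0) * hk n (fun j => ext w (s + (j + 2))) := by
          linear_combination e2 - e1
        have e7 := mul_right_cancel₀ e5 e6
        rw [add_zero, ext_lt w hsN, ext_lt w' hsN] at e7
        ext j
        by_cases h : (j : ℕ) = s
        · have : j = ⟨s, hsN⟩ := Fin.ext h
          rw [this, e7]
        · exact hoff j h
    calc _ ≤ #(A ∪ B) := Finset.card_le_card h1
      _ ≤ #A + #B := Finset.card_union_le _ _
      _ ≤ n * #S ^ (N - 1) + #S ^ (N - 1) := Nat.add_le_add h2 h3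
      _ = (n + 1) * #S ^ (N - 1) := by ring

end Pool.Agent.H555.Sieg
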