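import Mathlib
import Pool.Agent.H555.Sieg.Hankel

/-! The number of windows of exponential sums with all terms in a given set. -/

open Finset

namespace Pool.Agent.H555.Sieg

variable {K : Type*} [Field K]

/-- `v 0, …, v (2 n + 2)` are terms of an exponential sum with exactly `n + 1` terms. -/
def IsWin (n : ℕ) (v : ℕ → K) : Prop := ∃ t y : Fin (n + 1) → K, (∀ i, t i ≠ 0) ∧ (∀ i, y i ≠ 0) ∧
  Function.Injective y ∧ ∀ j, j ≤ 2 * n + 2 → v j = ∑ i, t i * y i ^ j

lemma IsWin.hk_ne {n : ℕ} {v : ℕ → K} (h : IsWin n v) (s : ℕ) (hs : s ≤ 2) :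
    hk (n + 1) (fun j => v (j + s)) ≠ 0 := by
  obtain ⟨t, y, ht, hy, hinj, hv⟩ := h
  rw [hk_congr (g := fun j => ∑ i, t i * y i ^ (s + j)), hk_exp]
  · refine mul_ne_zero (mul_ne_zero ?_ ?_) ?_
    · exact Finset.prod_ne_zero_iff.2 fun i _ => ht i
    · exact pow_ne_zero _ (Finset.prod_ne_zero_iff.2 fun i _ => hy i)
    · exact pow_ne_zero _ (Matrix.det_vandermonde_ne_zero_iff.2 hinj)
  · intro j hj
    rw [hv _ (by omega), add_comm j s]

lemma IsWin.hk_mul {n : ℕ} {v : ℕ → K} (h : IsWin n v) :
    hk (n + 1) v * hk (n + 1) (fun j => v (j + 2)) = hk (n + 1) (fun j => v (j + 1)) ^ 2 := by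
  obtain ⟨t, y, ht, hy, hinj, hv⟩ := h
  rw [hk_congr (f := v) (g := fun j => ∑ i, t i * y i ^ (0 + j)), hk_exp,
    hk_congr (f := fun j => v (j + 2)) (g := fun j => ∑ i, t i * y i ^ (2 + j)), hk_exp,
    hk_congr (f := fun j => v (j + 1)) (g := fun j => ∑ i, t i * y i ^ (1 + j)), hk_exp]
  · ring
  · intro j hj
    rw [hv _ (by omega), add_comm j 1]
  · intro j hj
    rw [hv _ (by omega), add_comm j 2]
  · intro j hj
    rw [hv _ (by omega), zero_add]

lemma IsWin.hk_zero' {n : ℕ} {v : ℕ → K} (h : IsWin n v) : hk (n + 2) v = 0 := by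
  obtain ⟨t, y, ht, hy, hinj, hv⟩ := h
  rw [hk_congr (f := v) (g := fun j => ∑ i, (Fin.cons 0 t : Fin (n + 2) → K) i *
    (Fin.cons 0 y : Fin (n + 2) → K) i ^ (0 + j)), hk_exp]
  · rw [Fin.prod_univ_succ]
    simp
  · intro j hj
    rw [hv _ (by omega), zero_add]
    refine Eq.trans ?_ (Fin.sum_univ_succ _).symm
    simp

variable [DecidableEq K]

theorem count_win (n : ℕ) (S : Finset K) (H : ℕ)
    (hH : ∀ α β γ : K, γ ≠ 0 → #((S ×ˢ S).filter fun q : K × K => (q.1 + α) * (q.2 + β) = γ) ≤ H)
    (W : Finset (Fin (2 * n + 3) → K)) (hS : ∀ w ∈ W, ∀ j, w j ∈ S) (hW : ∀ w ∈ W, IsWin n (ext w)) :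
    #W ≤ #S ^ (2 * n + 1) * (H + n) := by
  classical
  set mid : (Fin (2 * n + 3) → K) → (Fin (2 * n + 1) → K) := fun w j => ext w (j + 1) with hmid
  set P := Fintype.piFinset fun _ : Fin (2 * n + 1) => S with hP
  have hPc : #P = #S ^ (2 * n + 1) := by
    rw [hP, Fintype.card_piFinset, Finset.prod_const, Finset.card_univ, Fintype.card_fin]
  have hmaps : ∀ w ∈ W, mid w ∈ P := by
    intro w hw
    rw [hP, Fintype.mem_piFinset]
    intro j
    rw [hmid]
    simp only
    have hj := j.2
    rw [ext_lt w (by omega : (j : ℕ) + 1 < 2 * n + 3)]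
    exact hS w hw _
  have hext : ∀ w m, mid w = m → ∀ j, j < 2 * n + 1 → ext w (j + 1) = ext m j := by
    intro w m h j hj
    rw [← h, ext_lt _ hj]
  -- the last term is determined by the others
  have hinj0 : ∀ w ∈ W, ∀ w' ∈ W, mid w = mid w' → ext w 0 = ext w' 0 → w = w' := by
    intro w hw w' hw' hm h0
    have hall : ∀ j, j < 2 * n + 2 → ext w j = ext w' j := by
      intro j hj
      rcases Nat.eq_zero_or_pos j with h | h
      · rw [h]; exact h0
      · obtain ⟨i, rfl⟩ : ∃ i, j = i + 1 := ⟨j - 1, by omega⟩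
        rw [hext w (mid w') hm i (by omega), hext w' (mid w') rfl i (by omega)]
    have e1 := hk_last (n + 1) (ext w)
    have e2 := hk_last (n + 1) (ext w')
    rw [(hW w hw).hk_zero'] at e1
    rw [(hW w' hw').hk_zero'] at e2
    have e3 : hk (n + 1) (ext w) = hk (n + 1) (ext w') := hk_congr fun j hj => hall j (by omega)
    have e4 : hk (n + 1 + 1) (Function.update (ext w) (2 * (n + 1)) 0) =
        hk (n + 1 + 1) (Function.update (ext w') (2 * (n + 1)) 0) := by
      refine hk_congr fun j hj => ?_
      by_cases h : j = 2 * (n + 1)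
      · subst h; simp
      · rw [Function.update_of_ne h, Function.update_of_ne h]
        exact hall j (by omega)
    have e5 : hk (n + 1) (ext w) ≠ 0 := (hW w hw).hk_ne 0 (by omega)
    rw [← e3, ← e4] at e2
    have e6 : ext w (2 * (n + 1)) * hk (n + 1) (ext w) = ext w' (2 * (n + 1)) * hk (n + 1) (ext w) := by
      linear_combination e2 - e1
    have e7 := mul_right_cancel₀ e5 e6
    ext j
    have hj := j.2
    have : ext w j = ext w' j := by
      by_cases h : (j : ℕ) < 2 * n + 2
      · exact hall _ h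
      · have : (j : ℕ) = 2 * (n + 1) := by omega
        rw [this, e7]
    rwa [ext_lt w hj, ext_lt w' hj] at this
  have hfib : ∀ m ∈ P, #(W.filter fun w => mid w = m) ≤
      H + if hk n (fun j => ext m (1 + j)) = 0 then #S else 0 := by
    intro m _
    split_ifs with hdeg
    · refine le_trans ?_ (Nat.le_add_left _ _)
      refine Finset.card_le_card_of_injOn (fun w => ext w 0) ?_ ?_
      · intro w hw
        rw [Finset.mem_coe, Finset.mem_filter] at hw
        simp only [Finset.mem_coe]
        rw [ext_lt w (by omega)]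
        exact hS w hw.1 _
      · intro w hw w' hw' h
        rw [Finset.mem_coe, Finset.mem_filter] at hw hw'
        exact hinj0 w hw.1 w' hw'.1 (hw.2.trans hw'.2.symm) h
    · rw [add_zero]
      rcases Finset.eq_empty_or_nonempty (W.filter fun w => mid w = m) with he | hne
      · rw [he]; simp
      obtain ⟨M, hMdef⟩ : ∃ M, M = hk n (fun j => ext m (1 + j)) := ⟨_, rfl⟩
      obtain ⟨N2, hN2def⟩ : ∃ N2, N2 = hk (n + 1) (fun j => if j = 0 then 0 else ext m (j - 1)) :=
        ⟨_, rfl⟩
      obtain ⟨N1, hN1def⟩ : ∃ N1, N1 = hk (n + 1) (fun j => if j = 2 * n then 0 else ext m (j + 1)) :=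
        ⟨_, rfl⟩
      obtain ⟨D, hDdef⟩ : ∃ D, D = hk (n + 1) (ext m) := ⟨_, rfl⟩
      rw [← hMdef] at hdeg
      have hrel : ∀ w ∈ W, mid w = m → (ext w 0 * M + N2) * (ext w (2 * n + 2) * M + N1) = D ^ 2 ∧
          D ≠ 0 := by
        intro w hw hwm
        have f1 : hk (n + 1) (ext w) = ext w 0 * M + N2 := by
          rw [hk_first, hMdef, hN2def]
          congr 1
          · congr 1
            refine hk_congr fun j hj => ?_
            rw [show j + 2 = (1 + j) + 1 by ring, hext w m hwm _ (by omega)]
          · refine hk_congr fun j hj => ?_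
            by_cases h : j = 0
            · subst h; simp
            · rw [Function.update_of_ne h, if_neg h]
              obtain ⟨i, rfl⟩ : ∃ i, j = i + 1 := ⟨j - 1, by omega⟩
              rw [hext w m hwm _ (by omega), Nat.add_sub_cancel]
        have f2 : hk (n + 1) (fun j => ext w (j + 2)) = ext w (2 * n + 2) * M + N1 := by
          rw [hk_last, hMdef, hN1def]
          congr 1
          · congr 1
            refine hk_congr fun j hj => ?_
            rw [show j + 2 = (1 + j) + 1 by ring, hext w m hwm _ (by omega)]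
          · refine hk_congr fun j hj => ?_
            by_cases h : j = 2 * n
            · subst h; simp
            · rw [Function.update_of_ne h, if_neg h]
              rw [show j + 2 = (j + 1) + 1 by ring, hext w m hwm _ (by omega)]
        have f3 : hk (n + 1) (fun j => ext w (j + 1)) = D := by
          rw [hDdef]
          refine hk_congr fun j hj => ?_
          rw [hext w m hwm _ (by omega)]
        have f4 := (hW w hw).hk_mul
        rw [f1, f2, f3] at f4
        refine ⟨f4, ?_⟩
        rw [← f3]
        exact (hW w hw).hk_ne 1 (by omega)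
      have hD : D ≠ 0 := by
        obtain ⟨w, hw⟩ := hne
        rw [Finset.mem_filter] at hw
        exact (hrel w hw.1 hw.2).2
      refine le_trans ?_ (hH (N2 / M) (N1 / M) ((D / M) ^ 2) (pow_ne_zero _ (div_ne_zero hD hdeg)))
      refine Finset.card_le_card_of_injOn (fun w => (ext w 0, ext w (2 * n + 2))) ?_ ?_
      · intro w hw
        rw [Finset.mem_coe, Finset.mem_filter] at hw
        rw [Finset.mem_coe, Finset.mem_filter, Finset.mem_product]
        refine ⟨⟨?_, ?_⟩, ?_⟩
        · simp only
          rw [ext_lt w (by omega)]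
          exact hS w hw.1 _
        · simp only
          rw [ext_lt w (by omega)]
          exact hS w hw.1 _
        · have := (hrel w hw.1 hw.2).1
          simp only
          field_simp
          linear_combination this
      · intro w hw w' hw' h
        rw [Finset.mem_coe, Finset.mem_filter] at hw hw'
        exact hinj0 w hw.1 w' hw'.1 (hw.2.trans hw'.2.symm) (congrArg Prod.fst h)
  calc #W = ∑ m ∈ P, #(W.filter fun w => mid w = m) :=
        Finset.card_eq_sum_card_fiberwise hmaps
    _ ≤ ∑ m ∈ P, (H + if hk n (fun j => ext m (1 + j)) = 0 then #S else 0) :=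
        Finset.sum_le_sum hfib
    _ = #P * H + #(P.filter fun m => hk n (fun j => ext m (1 + j)) = 0) * #S := by
        rw [Finset.sum_add_distrib, Finset.sum_const, smul_eq_mul, ← Finset.sum_filter,
          Finset.sum_const, smul_eq_mul]
    _ ≤ #S ^ (2 * n + 1) * H + (n * #S ^ (2 * n + 1 - 1)) * #S := by
        rw [hPc]
        gcongr
        exact count_hk S (2 * n + 1) n 1 (by omega)
    _ = #S ^ (2 * n + 1) * (H + n) := by
        rw [Nat.add_sub_cancel, pow_succ]
        ring

end Pool.Agent.H555.Sieg
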