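import Mathlib
import Pool.Agent.H555.Sieg.Windows
import Pool.Agent.H555.Sieg.Hyper

/-! Few sparse exponential sums are small in mean square. -/

open Finset

namespace Pool.Agent.H555.Sieg

lemma vdm {K ι : Type*} [Field K] [Fintype ι] [DecidableEq ι] [DecidableEq K] (d y : ι → K)
    (hy : Function.Injective y) (N : ℕ) (hN : #(Finset.univ.filter fun i => d i ≠ 0) ≤ N)
    (h : ∀ j < N, ∑ i, d i * y i ^ j = 0) : d = 0 := by
  by_contra hne
  obtain ⟨i₀, hi₀⟩ := Function.ne_iff.1 hne
  simp only [Pi.zero_apply] at hi₀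
  set s := (Finset.univ.filter fun i => d i ≠ 0).erase i₀ with hs
  set P : Polynomial K := ∏ i ∈ s, (Polynomial.X - Polynomial.C (y i)) with hP
  have hmem : i₀ ∈ Finset.univ.filter fun i => d i ≠ 0 := by simp [hi₀]
  have hdeg : P.natDegree + 1 ≤ N := by
    rw [hP, Polynomial.natDegree_prod_of_monic _ _ fun i _ => Polynomial.monic_X_sub_C _]
    simp only [Polynomial.natDegree_X_sub_C, Finset.sum_const, smul_eq_mul, mul_one]
    rw [hs, Finset.card_erase_of_mem hmem]
    have := Finset.card_pos.2 ⟨i₀, hmem⟩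
    omega
  have h1 : ∑ i, d i * P.eval (y i) = 0 := by
    have : ∀ i, d i * P.eval (y i) =
        ∑ j ∈ Finset.range (P.natDegree + 1), P.coeff j * (d i * y i ^ j) := by
      intro i
      rw [Polynomial.eval_eq_sum_range, Finset.mul_sum]
      exact Finset.sum_congr rfl fun j _ => by ring
    rw [Finset.sum_congr rfl fun i _ => this i, Finset.sum_comm]
    refine Finset.sum_eq_zero fun j hj => ?_
    rw [← Finset.mul_sum, h j (by have := Finset.mem_range.1 hj; omega), mul_zero]
  have h2 : ∑ i, d i * P.eval (y i) = d i₀ * P.eval (y i₀) := by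
    refine Finset.sum_eq_single i₀ (fun i _ hi => ?_) (by simp)
    by_cases hd : d i = 0
    · rw [hd, zero_mul]
    · have : P.eval (y i) = 0 := by
        rw [hP, Polynomial.eval_prod]
        refine Finset.prod_eq_zero (i := i) ?_ (by simp)
        rw [hs, Finset.mem_erase]
        exact ⟨hi, by simp [hd]⟩
      rw [this, mul_zero]
  have h3 : P.eval (y i₀) ≠ 0 := by
    rw [hP, Polynomial.eval_prod]
    refine Finset.prod_ne_zero_iff.2 fun i hi => ?_
    simp only [Polynomial.eval_sub, Polynomial.eval_X, Polynomial.eval_C]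
    rw [sub_ne_zero]
    intro h
    exact (Finset.ne_of_mem_erase hi) (hy h).symm
  rw [h1] at h2
  exact (mul_ne_zero hi₀ h3) h2.symm

variable {p : ℕ} [Fact p.Prime] {ι : Type*} [Fintype ι] [DecidableEq ι] (e : ι → ℕ)

lemma sq_le_of_natAbs {V : ℕ} {z : ℤ} (h : V ≤ z.natAbs) : (V : ℝ) ^ 2 ≤ (z : ℝ) ^ 2 := by
  have h2 : (V : ℝ) ≤ |(z : ℝ)| := by
    rw [← Int.cast_abs, Int.abs_eq_natAbs]
    exact_mod_cast h
  rw [← sq_abs (z : ℝ)]
  exact pow_le_pow_left₀ (by positivity) h2 2

/-- the value at `x` of the polynomial with the coefficients `t i` at `x ^ (e i)` -/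
def ev (t : ι → ZMod p) (x : ZMod p) : ZMod p := ∑ i, t i * x ^ e i

/-- the support -/
def spt (t : ι → ZMod p) : Finset ι := Finset.univ.filter fun i => t i ≠ 0

/-- the sum of the squares of the absolutely least residues of the values -/
noncomputable def Q (t : ι → ZMod p) : ℝ := ∑ x : (ZMod p)ˣ, ((ev e t (x : ZMod p)).valMinAbs : ℝ) ^ 2

/-- the elements of support size `n + 1` whose first `2 n + 3` values along the powers of `g` are
small -/
def Wset (g : (ZMod p)ˣ) (n V : ℕ) : Finset (ι → ZMod p) :=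
  Finset.univ.filter fun t => #(spt t) = n + 1 ∧
    ∀ j ≤ 2 * n + 2, (ev e t ((g : ZMod p) ^ j)).valMinAbs.natAbs ≤ V

omit [Fintype ι] [DecidableEq ι] in
lemma inj_pow {g : (ZMod p)ˣ} (hg : orderOf g = p - 1) (he : Function.Injective e)
    (hep : ∀ i, e i < p - 1) : Function.Injective fun i => ((g : ZMod p)) ^ e i := by
  intro i j h
  simp only at h
  apply he
  have h1 : g ^ e i = g ^ e j := by
    ext
    push_cast
    exact h
  exact pow_injOn_Iio_orderOf (by rw [hg]; exact hep i) (by rw [hg]; exact hep j) h1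

theorem card_Wset {g : (ZMod p)ˣ} (hg : orderOf g = p - 1) (he : Function.Injective e)
    (hep : ∀ i, e i < p - 1) (n V H : ℕ)
    (hH : ∀ α β γ : ZMod p, γ ≠ 0 →
      #((box p V ×ˢ box p V).filter fun q : ZMod p × ZMod p => (q.1 + α) * (q.2 + β) = γ) ≤ H) :
    #(Wset (p := p) e g n V) ≤ (2 * V + 1) ^ (2 * n + 1) * (H + n) := by
  have hy := inj_pow e hg he hep
  set Φ : (ι → ZMod p) → (Fin (2 * n + 3) → ZMod p) := fun t j => ev e t ((g : ZMod p) ^ (j : ℕ))
    with hΦ
  have hevy : ∀ (t : ι → ZMod p) (j : ℕ), ev e t ((g : ZMod p) ^ j) =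
      ∑ i, t i * ((g : ZMod p) ^ e i) ^ j := by
    intro t j
    unfold ev
    refine Finset.sum_congr rfl fun i _ => ?_
    rw [← pow_mul, ← pow_mul, mul_comm j]
  have h1 : #(Wset (p := p) e g n V) = #((Wset (p := p) e g n V).image Φ) := by
    rw [Finset.card_image_of_injOn]
    intro t ht t' ht' h
    rw [Finset.mem_coe, Wset, Finset.mem_filter] at ht ht'
    have h2 : t - t' = 0 := by
      refine vdm (t - t') (fun i => (g : ZMod p) ^ e i) hy (2 * n + 2) ?_ ?_
      · have hsub : (Finset.univ.filter fun i => (t - t') i ≠ 0) ⊆ spt t ∪ spt t' := by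
          intro i hi
          rw [Finset.mem_filter] at hi
          rw [Finset.mem_union, spt, spt, Finset.mem_filter, Finset.mem_filter]
          by_contra hcon
          push Not at hcon
          have h3 := hcon.1 (Finset.mem_univ _)
          have h4 := hcon.2 (Finset.mem_univ _)
          apply hi.2
          rw [Pi.sub_apply, h3, h4, sub_zero]
        refine (Finset.card_le_card hsub).trans ((Finset.card_union_le _ _).trans ?_)
        rw [ht.2.1, ht'.2.1]
        omega
      · intro j hj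
        have h5 := congrFun h ⟨j, by omega⟩
        rw [hΦ] at h5
        simp only at h5
        rw [hevy, hevy] at h5
        simp only [Pi.sub_apply, sub_mul]
        rw [Finset.sum_sub_distrib, h5, sub_self]
    exact sub_eq_zero.1 h2
  rw [h1]
  refine (count_win n (box p V) H hH _ ?_ ?_).trans ?_
  · intro w hw j
    rw [Finset.mem_image] at hw
    obtain ⟨t, ht, rfl⟩ := hw
    rw [Wset, Finset.mem_filter] at ht
    rw [box, Finset.mem_filter]
    exact ⟨Finset.mem_univ _, ht.2.2 _ (by have := j.2; omega)⟩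
  · intro w hw
    rw [Finset.mem_image] at hw
    obtain ⟨t, ht, rfl⟩ := hw
    rw [Wset, Finset.mem_filter] at ht
    set σ := Finset.equivFinOfCardEq ht.2.1 with hσ
    refine ⟨fun i => t (σ.symm i), fun i => (g : ZMod p) ^ e (σ.symm i), ?_, ?_, ?_, ?_⟩
    · intro i
      exact (Finset.mem_filter.1 (σ.symm i).2).2
    · intro i
      exact pow_ne_zero _ (Units.ne_zero g)
    · intro i j h
      have h2 := hy h
      exact σ.symm.injective (Subtype.ext h2)
    · intro j hj
      rw [ext_lt _ (by omega : j < 2 * n + 3), hΦ]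
      simp only
      rw [hevy, Equiv.sum_comp σ.symm (fun i : spt t => t i * ((g : ZMod p) ^ e i) ^ j)]
      rw [Finset.sum_coe_sort (spt t) (fun i => t i * ((g : ZMod p) ^ e i) ^ j)]
      refine (Finset.sum_subset (Finset.subset_univ _) fun i _ hi => ?_).symm
      rw [spt, Finset.mem_filter] at hi
      push Not at hi
      rw [hi (Finset.mem_univ _), zero_mul]
  · gcongr
    exact card_box p V

omit [DecidableEq ι]

/-- dilation -/
def dil (z : (ZMod p)ˣ) (t : ι → ZMod p) : ι → ZMod p := fun i => t i * (z : ZMod p) ^ e i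

lemma ev_dil (z : (ZMod p)ˣ) (t : ι → ZMod p) (x : ZMod p) : ev e (dil e z t) x = ev e t (z * x) := by
  unfold ev dil
  refine Finset.sum_congr rfl fun i _ => ?_
  rw [mul_pow]
  ring

lemma spt_dil (z : (ZMod p)ˣ) (t : ι → ZMod p) : spt (dil e z t) = spt t := by
  unfold spt dil
  ext i
  simp

include e in
theorem bad_le [DecidableEq ι] (g : (ZMod p)ˣ) (n V : ℕ) (hV : 0 < V) (Λ : ℝ)
    (hΛ : 2 * (2 * n + 3) * Λ ≤ (p - 1) * (V : ℝ) ^ 2) (B : Finset (ι → ZMod p))
    (hB : ∀ t ∈ B, #(spt t) = n + 1 ∧ Q e t ≤ Λ) :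
    #B ≤ 2 * #(Wset (p := p) e g n V) := by
  classical
  have hp1 : 1 < p := (Fact.out : p.Prime).one_lt
  have hU : Fintype.card (ZMod p)ˣ = p - 1 := ZMod.card_units_eq_totient p ▸
    Nat.totient_prime (Fact.out : p.Prime)
  set good : (ι → ZMod p) → (ZMod p)ˣ → Prop := fun t z =>
    ∀ j ≤ 2 * n + 2, (ev e t ((z : ZMod p) * (g : ZMod p) ^ j)).valMinAbs.natAbs ≤ V with hgood
  have h1 : ∀ t ∈ B, p - 1 ≤ 2 * #(Finset.univ.filter fun z => good t z) := by
    intro t ht
    have hQ := (hB t ht).2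
    set bad := Finset.univ.filter fun z => ¬ good t z with hbad
    have h2 : (bad.card : ℝ) * (V : ℝ) ^ 2 ≤ (2 * n + 3) * Q e t := by
      have h3 : ∀ j : ℕ, ∑ z : (ZMod p)ˣ,
          ((ev e t ((z : ZMod p) * (g : ZMod p) ^ j)).valMinAbs : ℝ) ^ 2 = Q e t := by
        intro j
        unfold Q
        rw [← Equiv.sum_comp (Equiv.mulRight (g ^ j))
          (fun z : (ZMod p)ˣ => ((ev e t (z : ZMod p)).valMinAbs : ℝ) ^ 2)]
        refine Finset.sum_congr rfl fun z _ => ?_
        simp only [Equiv.coe_mulRight, Units.val_mul, Units.val_pow_eq_pow_val]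
      have h4 : ∑ z : (ZMod p)ˣ, ∑ j ∈ Finset.range (2 * n + 3),
          ((ev e t ((z : ZMod p) * (g : ZMod p) ^ j)).valMinAbs : ℝ) ^ 2 = (2 * n + 3) * Q e t := by
        rw [Finset.sum_comm, Finset.sum_congr rfl fun j _ => h3 j, Finset.sum_const,
          Finset.card_range, nsmul_eq_mul]
        push_cast
        ring
      rw [← h4]
      calc (bad.card : ℝ) * (V : ℝ) ^ 2 = ∑ z ∈ bad, (V : ℝ) ^ 2 := by
            rw [Finset.sum_const, nsmul_eq_mul]
        _ ≤ ∑ z ∈ bad, ∑ j ∈ Finset.range (2 * n + 3),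
          ((ev e t ((z : ZMod p) * (g : ZMod p) ^ j)).valMinAbs : ℝ) ^ 2 := by
            refine Finset.sum_le_sum fun z hz => ?_
            rw [hbad, Finset.mem_filter, hgood] at hz
            simp only [not_forall] at hz
            obtain ⟨_, j, hj, hjV⟩ := hz
            refine le_trans ?_ (Finset.single_le_sum (f := fun j =>
              ((ev e t ((z : ZMod p) * (g : ZMod p) ^ j)).valMinAbs : ℝ) ^ 2)
              (fun _ _ => by positivity) (Finset.mem_range.2 (by omega : j < 2 * n + 3)))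
            exact sq_le_of_natAbs (by omega)
        _ ≤ _ := Finset.sum_le_sum_of_subset_of_nonneg (Finset.subset_univ _) fun _ _ _ =>
            Finset.sum_nonneg fun _ _ => by positivity
    have h3 : 2 * bad.card ≤ p - 1 := by
      have hV2 : (0 : ℝ) < (V : ℝ) ^ 2 := by positivity
      have h4 : 2 * (bad.card : ℝ) * (V : ℝ) ^ 2 ≤ (p - 1) * (V : ℝ) ^ 2 := by
        calc 2 * (bad.card : ℝ) * (V : ℝ) ^ 2 = 2 * ((bad.card : ℝ) * (V : ℝ) ^ 2) := by ring
          _ ≤ 2 * ((2 * n + 3) * Q e t) := by gcongr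
          _ ≤ 2 * ((2 * n + 3) * Λ) := by gcongr
          _ = 2 * (2 * n + 3) * Λ := by ring
          _ ≤ _ := hΛ
      have h5 : 2 * (bad.card : ℝ) ≤ p - 1 := le_of_mul_le_mul_right h4 hV2
      have h6 : ((2 * bad.card : ℕ) : ℝ) ≤ ((p - 1 : ℕ) : ℝ) := by
        push_cast [Nat.cast_sub hp1.le]
        exact h5
      exact_mod_cast h6
    have h4 : #(Finset.univ.filter fun z => good t z) + bad.card = p - 1 := by
      rw [hbad, Finset.card_filter_add_card_filter_not, Finset.card_univ, hU]
    omega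
  have h2 : ∑ t ∈ B, #(Finset.univ.filter fun z => good t z) ≤ (p - 1) * #(Wset (p := p) e g n V) := by
    have h3 : ∑ t ∈ B, #(Finset.univ.filter fun z => good t z) =
        ∑ z : (ZMod p)ˣ, #(B.filter fun t => good t z) := by
      simp only [Finset.card_filter]
      exact Finset.sum_comm
    have h4 : (p - 1) * #(Wset (p := p) e g n V) =
        ∑ _z : (ZMod p)ˣ, #(Wset (p := p) e g n V) := by
      rw [Finset.sum_const, Finset.card_univ, hU, smul_eq_mul]
    rw [h3, h4]
    refine Finset.sum_le_sum fun z _ => ?_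
    refine Finset.card_le_card_of_injOn (dil e z) ?_ ?_
    · intro t ht
      rw [Finset.mem_coe, Finset.mem_filter] at ht
      rw [Finset.mem_coe, Wset, Finset.mem_filter, spt_dil]
      refine ⟨Finset.mem_univ _, (hB t ht.1).1, fun j hj => ?_⟩
      rw [ev_dil]
      exact ht.2 j hj
    · intro t _ t' _ h
      ext i
      have := congrFun h i
      unfold dil at this
      rw [mul_right_cancel₀ (pow_ne_zero _ (Units.ne_zero z)) this]
  have h3 : (p - 1) * #B ≤ (p - 1) * (2 * #(Wset (p := p) e g n V)) := by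
    calc (p - 1) * #B = ∑ t ∈ B, (p - 1) := by rw [Finset.sum_const, smul_eq_mul, mul_comm]
      _ ≤ ∑ t ∈ B, 2 * #(Finset.univ.filter fun z => good t z) := Finset.sum_le_sum h1
      _ = 2 * ∑ t ∈ B, #(Finset.univ.filter fun z => good t z) := by rw [Finset.mul_sum]
      _ ≤ 2 * ((p - 1) * #(Wset (p := p) e g n V)) := by gcongr
      _ = _ := by ring
  exact Nat.le_of_mul_le_mul_left h3 (by omega)

end Pool.Agent.H555.Sieg
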