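import Mathlib
import Pool.Agent.H555.Sieg.Shift

/-! The factorial moments of the number of vanishing sums, by characters. -/

open Finset

namespace Pool.Agent.H555.Sieg

variable {p : ℕ} [Fact p.Prime]

lemma psi_sum {α : Type*} (s : Finset α) (f : α → ZMod p) :
    (ZMod.stdAddChar (∑ a ∈ s, f a) : ℂ) = ∏ a ∈ s, ZMod.stdAddChar (f a) := by
  classical
  induction s using Finset.induction_on with
  | empty => simp
  | insert a s ha ih => rw [Finset.sum_insert ha, Finset.prod_insert ha, AddChar.map_add_eq_mul, ih]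

lemma norm_factor (δ : ℝ) (h0 : 0 ≤ δ) (h1 : δ ≤ 1 / 2) (x : ZMod p) :
    ‖(1 - δ : ℂ) + δ * ZMod.stdAddChar x‖ ≤ Real.exp (-(4 * δ * (x.valMinAbs : ℝ) ^ 2 / p ^ 2)) := by
  have hp : (0 : ℝ) < p := by exact_mod_cast (Fact.out : p.Prime).pos
  obtain ⟨θ, hθ⟩ : ∃ θ : ℝ, θ = 2 * Real.pi * (x.valMinAbs : ℝ) / p := ⟨_, rfl⟩
  have e1 : (ZMod.stdAddChar x : ℂ) = Complex.exp (θ * Complex.I) := by
    conv_lhs => rw [← ZMod.coe_valMinAbs x]
    rw [ZMod.stdAddChar_coe, hθ]
    congr 1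
    push_cast
    ring
  have hθπ : |θ| ≤ Real.pi := by
    have h2 : |(x.valMinAbs : ℝ)| ≤ p / 2 := by
      have h3 := ZMod.natAbs_valMinAbs_le x
      have h4 : (x.valMinAbs.natAbs : ℝ) ≤ ((p / 2 : ℕ) : ℝ) := by exact_mod_cast h3
      have h5 : ((p / 2 : ℕ) : ℝ) ≤ (p : ℝ) / 2 := by
        exact_mod_cast (Nat.cast_div_le (α := ℝ) (m := p) (n := 2))
      rw [Nat.cast_natAbs, Int.cast_abs] at h4
      exact h4.trans h5
    rw [hθ, abs_div, abs_mul, abs_of_pos hp, abs_of_pos (by positivity : 0 < 2 * Real.pi),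
      div_le_iff₀ hp]
    nlinarith [Real.pi_pos]
  have h2 := Real.cos_le_one_sub_mul_cos_sq hθπ
  have e2 : 2 / Real.pi ^ 2 * θ ^ 2 = 8 * (x.valMinAbs : ℝ) ^ 2 / p ^ 2 := by
    rw [hθ]
    field_simp
    ring
  rw [e2] at h2
  have e3 : ‖(1 - δ : ℂ) + δ * ZMod.stdAddChar x‖ ^ 2 =
      1 - 2 * (δ * (1 - δ)) * (1 - Real.cos θ) := by
    rw [e1, Complex.sq_norm, Complex.normSq_apply]
    have r1 : ((1 - δ : ℂ) + δ * Complex.exp (θ * Complex.I)).re = 1 - δ + δ * Real.cos θ := by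
      simp [Complex.exp_ofReal_mul_I_re]
    have r2 : ((1 - δ : ℂ) + δ * Complex.exp (θ * Complex.I)).im = δ * Real.sin θ := by
      simp [Complex.exp_ofReal_mul_I_im]
    rw [r1, r2]
    have := Real.sin_sq_add_cos_sq θ
    linear_combination δ ^ 2 * this
  have e4 : ‖(1 - δ : ℂ) + δ * ZMod.stdAddChar x‖ ^ 2 ≤
      Real.exp (-(4 * δ * (x.valMinAbs : ℝ) ^ 2 / p ^ 2)) ^ 2 := by
    rw [e3, ← Real.exp_nat_mul]
    refine le_trans ?_ (Real.add_one_le_exp _)
    push_cast
    set y := (x.valMinAbs : ℝ) ^ 2 / p ^ 2 with hy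
    have hy0 : 0 ≤ y := by positivity
    have e5 : 8 * (x.valMinAbs : ℝ) ^ 2 / p ^ 2 = 8 * y := by rw [hy]; ring
    have e6 : 4 * δ * (x.valMinAbs : ℝ) ^ 2 / p ^ 2 = 4 * δ * y := by rw [hy]; ring
    rw [e5] at h2
    rw [e6]
    have h7 : δ * (1 / 2) ≤ δ * (1 - δ) := by
      apply mul_le_mul_of_nonneg_left _ h0
      linarith
    have h8 : 8 * y ≤ 1 - Real.cos θ := by linarith
    nlinarith [mul_le_mul h7 h8 (by positivity) (by nlinarith)]
  exact (pow_le_pow_iff_left₀ (norm_nonneg _) (Real.exp_pos _).le two_ne_zero).1 e4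

variable {ι : Type*} [Fintype ι] [DecidableEq ι] (e : ι → ℕ)

/-- the functions which vanish outside `Y` -/
def supported (Y : Finset ι) : Finset (ι → ZMod p) :=
  Fintype.piFinset fun i => if i ∈ Y then Finset.univ else {0}

lemma mem_supported (Y : Finset ι) (t : ι → ZMod p) : t ∈ supported Y ↔ spt t ⊆ Y := by
  rw [supported, Fintype.mem_piFinset]
  constructor
  · intro h i hi
    rw [spt, Finset.mem_filter] at hi
    by_contra hY
    have := h i
    rw [if_neg hY, Finset.mem_singleton] at this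
    exact hi.2 this
  · intro h i
    by_cases hY : i ∈ Y
    · rw [if_pos hY]; exact Finset.mem_univ _
    · rw [if_neg hY, Finset.mem_singleton]
      by_contra hi
      exact hY (h (by rw [spt, Finset.mem_filter]; exact ⟨Finset.mem_univ _, hi⟩))

lemma charsum (Y : Finset ι) (x : ι → ZMod p) :
    ∑ t ∈ supported (p := p) Y, (ZMod.stdAddChar (∑ i, t i * x i) : ℂ) =
      if ∀ i ∈ Y, x i = 0 then (p : ℂ) ^ #Y else 0 := by
  have h1 : ∀ t : ι → ZMod p, (ZMod.stdAddChar (∑ i, t i * x i) : ℂ) =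
      ∏ i, ZMod.stdAddChar (t i * x i) := fun t => psi_sum _ _
  rw [Finset.sum_congr rfl fun t _ => h1 t, supported,
    ← Finset.prod_univ_sum (fun i => if i ∈ Y then Finset.univ else {0})
      (fun i y => (ZMod.stdAddChar (y * x i) : ℂ))]
  have h2 : ∀ i : ι, ∑ y ∈ (if i ∈ Y then (Finset.univ : Finset (ZMod p)) else {0}),
      (ZMod.stdAddChar (y * x i) : ℂ) = if i ∈ Y then (if x i = 0 then (p : ℂ) else 0) else 1 := by
    intro i
    by_cases hY : i ∈ Y
    · rw [if_pos hY, if_pos hY, AddChar.sum_mulShift _ (ZMod.isPrimitive_stdAddChar p), ZMod.card]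
      split_ifs <;> simp
    · rw [if_neg hY, if_neg hY, Finset.sum_singleton, zero_mul, AddChar.map_zero_eq_one]
  rw [Finset.prod_congr rfl fun i _ => h2 i, Finset.prod_ite_mem, Finset.univ_inter]
  split_ifs with h
  · rw [Finset.prod_congr rfl fun i hi => if_pos (h i hi), Finset.prod_const]
  · push Not at h
    obtain ⟨i, hi, hx⟩ := h
    exact Finset.prod_eq_zero hi (if_neg hx)

/-- the sum attached to the index `i` and the set `A` -/
def X (c : ZMod p) (s : ℕ → ZMod p) (β : ι → ZMod p) (A : Finset ℕ) (i : ι) : ZMod p :=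
  β i + c * ∑ a ∈ A, s a * (a : ZMod p) ^ e i

/-- the weight of the set `A` if each of `m` elements is taken with probability `δ` -/
noncomputable def wt (δ : ℝ) (m : ℕ) (A : Finset ℕ) : ℝ := δ ^ #A * (1 - δ) ^ (m - #A)

omit [DecidableEq ι] in
lemma sum_tX (c : ZMod p) (s : ℕ → ZMod p) (β : ι → ZMod p) (A : Finset ℕ) (t : ι → ZMod p) :
    ∑ i, t i * X e c s β A i = ∑ i, t i * β i + ∑ a ∈ A, s a * ev e (fun i => c * t i) a := by
  unfold X ev
  simp only [mul_add, Finset.sum_add_distrib]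
  congr 1
  simp only [Finset.mul_sum]
  rw [Finset.sum_comm]
  refine Finset.sum_congr rfl fun a _ => Finset.sum_congr rfl fun i _ => ?_
  ring

omit [DecidableEq ι] in
lemma gen (δ : ℝ) (m : ℕ) (c : ZMod p) (s : ℕ → ZMod p) (β : ι → ZMod p) (t : ι → ZMod p) :
    ∑ A ∈ (Finset.Icc 1 m).powerset, (wt δ m A : ℂ) * ZMod.stdAddChar (∑ i, t i * X e c s β A i) =
      ZMod.stdAddChar (∑ i, t i * β i) *
        ∏ a ∈ Finset.Icc 1 m, ((1 - δ : ℂ) + δ * ZMod.stdAddChar (s a * ev e (fun i => c * t i) a)) := by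
  have h1 := Finset.prod_add (fun a : ℕ => (δ : ℂ) * ZMod.stdAddChar (s a * ev e (fun i => c * t i) a))
    (fun _ => (1 - δ : ℂ)) (Finset.Icc 1 m)
  rw [Finset.prod_congr rfl fun a _ => add_comm (1 - δ : ℂ) _, h1, Finset.mul_sum]
  refine Finset.sum_congr rfl fun A hA => ?_
  rw [Finset.mem_powerset] at hA
  rw [sum_tX, AddChar.map_add_eq_mul, psi_sum A, Finset.prod_mul_distrib, Finset.prod_const,
    Finset.prod_const, Finset.card_sdiff_of_subset hA, Nat.card_Icc]
  unfold wt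
  push_cast
  ring

lemma wt_sum (δ : ℝ) (m : ℕ) : ∑ A ∈ (Finset.Icc 1 m).powerset, wt δ m A = 1 := by
  have h1 := Finset.prod_add (fun _ : ℕ => δ) (fun _ => (1 - δ)) (Finset.Icc 1 m)
  rw [Finset.prod_const, add_sub_cancel, one_pow] at h1
  rw [h1]
  refine Finset.sum_congr rfl fun A hA => ?_
  rw [Finset.mem_powerset] at hA
  rw [Finset.prod_const, Finset.prod_const, Finset.card_sdiff_of_subset hA, Nat.card_Icc]
  unfold wt
  rw [Nat.add_sub_cancel]

lemma wt_nonneg {δ : ℝ} (h0 : 0 ≤ δ) (h1 : δ ≤ 1 / 2) (m : ℕ) (A : Finset ℕ) : 0 ≤ wt δ m A := by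
  unfold wt
  have : 0 ≤ 1 - δ := by linarith
  positivity

lemma sum_units (f : ZMod p → ℝ) :
    ∑ x : (ZMod p)ˣ, f x = ∑ a ∈ Finset.Icc 1 (p - 1), f (a : ZMod p) := by
  have hp := (Fact.out : p.Prime)
  refine Finset.sum_bij (fun x _ => (x : ZMod p).val) ?_ ?_ ?_ ?_
  · intro x _
    rw [Finset.mem_Icc]
    have h1 := ZMod.val_lt (x : ZMod p)
    have h2 : (x : ZMod p).val ≠ 0 := by
      rw [Ne, ZMod.val_eq_zero]
      exact Units.ne_zero x
    omega
  · intro x _ y _ h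
    exact Units.ext (ZMod.val_injective p h)
  · intro a ha
    rw [Finset.mem_Icc] at ha
    have h1 : (a : ZMod p) ≠ 0 := by
      rw [Ne, ZMod.natCast_eq_zero_iff]
      intro h
      have := Nat.le_of_dvd (by omega) h
      omega
    refine ⟨Units.mk0 (a : ZMod p) h1, Finset.mem_univ _, ?_⟩
    rw [Units.val_mk0, ZMod.val_natCast, Nat.mod_eq_of_lt (by omega)]
  · intro x _
    rw [ZMod.natCast_zmod_val]

lemma vma_neg (x : ZMod p) : ((-x).valMinAbs : ℝ) ^ 2 = (x.valMinAbs : ℝ) ^ 2 := by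
  have h := ZMod.natAbs_valMinAbs_neg x
  have h2 : ∀ z : ℤ, (z : ℝ) ^ 2 = (z.natAbs : ℝ) ^ 2 := by
    intro z
    rw [Nat.cast_natAbs, Int.cast_abs, sq_abs]
  rw [h2, h2, h]

omit [DecidableEq ι] in
lemma Q_half (m : ℕ) (hm : p = 2 * m + 1) (he : ∀ i, Odd (e i)) (t : ι → ZMod p) :
    Q e t = 2 * ∑ a ∈ Finset.Icc 1 m, ((ev e t (a : ZMod p)).valMinAbs : ℝ) ^ 2 := by
  unfold Q
  rw [sum_units (fun x : ZMod p => ((ev e t x).valMinAbs : ℝ) ^ 2)]
  have h1 : Finset.Icc 1 (p - 1) = Finset.Icc 1 m ∪ Finset.Icc (m + 1) (2 * m) := by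
    ext a
    simp only [Finset.mem_union, Finset.mem_Icc]
    omega
  have h2 : Disjoint (Finset.Icc 1 m) (Finset.Icc (m + 1) (2 * m)) := by
    rw [Finset.disjoint_left]
    intro a ha hb
    rw [Finset.mem_Icc] at ha hb
    omega
  have h5 : ∑ a ∈ Finset.Icc (m + 1) (2 * m), ((ev e t (a : ZMod p)).valMinAbs : ℝ) ^ 2 =
      ∑ a ∈ Finset.Icc 1 m, ((ev e t (a : ZMod p)).valMinAbs : ℝ) ^ 2 := ?_
  · rw [h1, Finset.sum_union h2, h5]
    ring
  refine Finset.sum_bij (fun a _ => p - a) ?_ ?_ ?_ ?_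
  · intro a ha
    rw [Finset.mem_Icc] at ha ⊢
    omega
  · intro a ha b hb h
    rw [Finset.mem_Icc] at ha hb
    omega
  · intro b hb
    rw [Finset.mem_Icc] at hb
    exact ⟨p - b, by rw [Finset.mem_Icc]; omega, by omega⟩
  · intro a ha
    rw [Finset.mem_Icc] at ha
    have h3 : ((p - a : ℕ) : ZMod p) = -(a : ZMod p) := by
      rw [Nat.cast_sub (by omega), ZMod.natCast_self, zero_sub]
    rw [h3]
    have h4 : ev e t (-(a : ZMod p)) = -ev e t (a : ZMod p) := by
      unfold ev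
      rw [← Finset.sum_neg_distrib]
      refine Finset.sum_congr rfl fun i _ => ?_
      rw [(he i).neg_pow]
      ring
    rw [h4, vma_neg]

/-- the number of the indices `i` with vanishing sum -/
def Zc (c : ZMod p) (s : ℕ → ZMod p) (β : ι → ZMod p) (A : Finset ℕ) : ℕ :=
  #(Finset.univ.filter fun i => X e c s β A i = 0)

omit [DecidableEq ι] in
lemma norm_gen (δ : ℝ) (h0 : 0 ≤ δ) (h1 : δ ≤ 1 / 2) (m : ℕ) (hm : p = 2 * m + 1)
    (he : ∀ i, Odd (e i)) (c : ZMod p) (s : ℕ → ZMod p) (hs : ∀ a, s a = 1 ∨ s a = -1)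
    (β : ι → ZMod p) (t : ι → ZMod p) :
    ‖∑ A ∈ (Finset.Icc 1 m).powerset,
      (wt δ m A : ℂ) * ZMod.stdAddChar (∑ i, t i * X e c s β A i)‖ ≤
      Real.exp (-(2 * δ / p ^ 2 * Q e (fun i => c * t i))) := by
  rw [gen, norm_mul, norm_prod]
  have h2 : ‖(ZMod.stdAddChar (∑ i, t i * β i) : ℂ)‖ = 1 := by
    exact AddChar.norm_apply _ _
  rw [h2, one_mul]
  calc ∏ a ∈ Finset.Icc 1 m, ‖(1 - δ : ℂ) + δ * ZMod.stdAddChar (s a * ev e (fun i => c * t i) a)‖
      ≤ ∏ a ∈ Finset.Icc 1 m,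
        Real.exp (-(4 * δ * ((ev e (fun i => c * t i) (a : ZMod p)).valMinAbs : ℝ) ^ 2 / p ^ 2)) := by
        refine Finset.prod_le_prod (fun _ _ => norm_nonneg _) fun a _ => ?_
        refine (norm_factor δ h0 h1 _).trans (le_of_eq ?_)
        congr 4
        rcases hs a with h | h
        · rw [h, one_mul]
        · rw [h, neg_one_mul, vma_neg]
    _ = _ := by
        rw [← Real.exp_sum, Q_half e m hm he]
        congr 1
        rw [Finset.sum_neg_distrib]
        congr 1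
        rw [← Finset.sum_div, ← Finset.mul_sum]
        ring

theorem moment (δ : ℝ) (h0 : 0 ≤ δ) (h1 : δ ≤ 1 / 2) (m : ℕ) (hm : p = 2 * m + 1)
    (he : ∀ i, Odd (e i)) (c : ZMod p) (hc : c ≠ 0) (s : ℕ → ZMod p)
    (hs : ∀ a, s a = 1 ∨ s a = -1) (β : ι → ZMod p) (k : ℕ) :
    |(p : ℝ) ^ k * ∑ A ∈ (Finset.Icc 1 m).powerset, wt δ m A * ((Zc e c s β A).choose k : ℝ) -
      ((Fintype.card ι).choose k : ℝ)| ≤
      ∑ t ∈ (Finset.univ : Finset (ι → ZMod p)).filter fun t => t ≠ 0,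
        (#((Finset.univ.powersetCard k).filter fun Y => spt t ⊆ Y) : ℝ) *
          Real.exp (-(2 * δ / p ^ 2 * Q e t)) := by
  classical
  set N : (ι → ZMod p) → ℝ := fun t =>
    (#(((Finset.univ : Finset ι).powersetCard k).filter fun Y => spt t ⊆ Y) : ℝ) with hN
  -- the moment as a sum of characters
  have hA : ∀ A : Finset ℕ, (p : ℂ) ^ k * ((Zc e c s β A).choose k : ℂ) =
      ∑ t : ι → ZMod p, (N t : ℂ) * ZMod.stdAddChar (∑ i, t i * X e c s β A i) := by
    intro A
    have h2 : ((Zc e c s β A).choose k : ℂ) =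
        ∑ Y ∈ (Finset.univ : Finset ι).powersetCard k,
          (if ∀ i ∈ Y, X e c s β A i = 0 then (1 : ℂ) else 0) := by
      unfold Zc
      rw [← Finset.card_powersetCard, Finset.sum_boole]
      congr 2
      ext Y
      simp only [Finset.mem_powersetCard, Finset.mem_filter, Finset.subset_univ, true_and]
      constructor
      · rintro ⟨h3, h4⟩
        exact ⟨h4, fun i hi => (Finset.mem_filter.1 (h3 hi)).2⟩
      · rintro ⟨h3, h4⟩
        exact ⟨fun i hi => Finset.mem_filter.2 ⟨Finset.mem_univ _, h4 i hi⟩, h3⟩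
    rw [h2, Finset.mul_sum]
    have h3 : ∀ Y ∈ (Finset.univ : Finset ι).powersetCard k,
        (p : ℂ) ^ k * (if ∀ i ∈ Y, X e c s β A i = 0 then (1 : ℂ) else 0) =
        ∑ t : ι → ZMod p, (if spt t ⊆ Y then (1 : ℂ) else 0) *
          ZMod.stdAddChar (∑ i, t i * X e c s β A i) := by
      intro Y hY
      rw [Finset.mem_powersetCard] at hY
      have h4 := charsum Y (fun i => X e c s β A i)
      rw [hY.2] at h4
      rw [mul_ite, mul_one, mul_zero, ← h4]
      simp only [ite_mul, one_mul, zero_mul]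
      rw [← Finset.sum_filter]
      refine Finset.sum_congr ?_ fun _ _ => rfl
      ext t
      rw [mem_supported, Finset.mem_filter]
      simp
    rw [Finset.sum_congr rfl h3, Finset.sum_comm]
    refine Finset.sum_congr rfl fun t _ => ?_
    rw [← Finset.sum_mul, Finset.sum_boole, hN]
    simp
  have hB : (((p : ℝ) ^ k * ∑ A ∈ (Finset.Icc 1 m).powerset,
      wt δ m A * ((Zc e c s β A).choose k : ℝ) : ℝ) : ℂ) =
      ∑ t : ι → ZMod p, (N t : ℂ) * ∑ A ∈ (Finset.Icc 1 m).powerset,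
        (wt δ m A : ℂ) * ZMod.stdAddChar (∑ i, t i * X e c s β A i) := by
    push_cast
    rw [Finset.mul_sum]
    have h5 : ∀ A ∈ (Finset.Icc 1 m).powerset, (p : ℂ) ^ k *
        ((wt δ m A : ℂ) * ((Zc e c s β A).choose k : ℂ)) =
        ∑ t : ι → ZMod p, (N t : ℂ) * ((wt δ m A : ℂ) *
          ZMod.stdAddChar (∑ i, t i * X e c s β A i)) := by
      intro A _
      rw [mul_left_comm, hA A, Finset.mul_sum]
      exact Finset.sum_congr rfl fun t _ => by ring
    rw [Finset.sum_congr rfl h5, Finset.sum_comm]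
    exact Finset.sum_congr rfl fun t _ => by rw [Finset.mul_sum]
  have hC : ∑ t : ι → ZMod p, (N t : ℂ) * ∑ A ∈ (Finset.Icc 1 m).powerset,
        (wt δ m A : ℂ) * ZMod.stdAddChar (∑ i, t i * X e c s β A i) =
      ((Fintype.card ι).choose k : ℂ) +
      ∑ t ∈ (Finset.univ : Finset (ι → ZMod p)).filter (fun t => t ≠ 0),
        (N t : ℂ) * ∑ A ∈ (Finset.Icc 1 m).powerset,
        (wt δ m A : ℂ) * ZMod.stdAddChar (∑ i, t i * X e c s β A i) := by
    rw [← Finset.add_sum_erase _ _ (Finset.mem_univ (0 : ι → ZMod p))]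
    congr 1
    · have h6 : N 0 = ((Fintype.card ι).choose k : ℝ) := by
        rw [hN]
        simp only
        rw [Finset.filter_true_of_mem, Finset.card_powersetCard, Finset.card_univ]
        intro Y _
        have : spt (0 : ι → ZMod p) = ∅ := by
          unfold spt; simp
        rw [this]
        exact Finset.empty_subset _
      rw [h6]
      simp only [Pi.zero_apply, zero_mul, Finset.sum_const_zero, AddChar.map_zero_eq_one, mul_one]
      have h7 := congrArg (fun x : ℝ => (x : ℂ)) (wt_sum δ m)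
      push_cast at h7
      rw [h7]
      simp
    · refine Finset.sum_congr ?_ fun _ _ => rfl
      ext t
      simp
  have hD : ((((p : ℝ) ^ k * ∑ A ∈ (Finset.Icc 1 m).powerset,
      wt δ m A * ((Zc e c s β A).choose k : ℝ) - ((Fintype.card ι).choose k : ℝ) : ℝ)) : ℂ) =
      ∑ t ∈ (Finset.univ : Finset (ι → ZMod p)).filter (fun t => t ≠ 0),
        (N t : ℂ) * ∑ A ∈ (Finset.Icc 1 m).powerset,
        (wt δ m A : ℂ) * ZMod.stdAddChar (∑ i, t i * X e c s β A i) := by
    rw [Complex.ofReal_sub, hB, hC]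
    push_cast
    ring
  rw [← Real.norm_eq_abs, ← Complex.norm_real, hD]
  refine (norm_sum_le _ _).trans ?_
  have hE : ∑ t ∈ (Finset.univ : Finset (ι → ZMod p)).filter (fun t => t ≠ 0),
      ‖(N t : ℂ) * ∑ A ∈ (Finset.Icc 1 m).powerset,
        (wt δ m A : ℂ) * ZMod.stdAddChar (∑ i, t i * X e c s β A i)‖ ≤
      ∑ t ∈ (Finset.univ : Finset (ι → ZMod p)).filter (fun t => t ≠ 0),
        N t * Real.exp (-(2 * δ / p ^ 2 * Q e (fun i => c * t i))) := by
    refine Finset.sum_le_sum fun t _ => ?_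
    rw [norm_mul, Complex.norm_real, Real.norm_eq_abs, abs_of_nonneg (by rw [hN]; positivity)]
    exact mul_le_mul_of_nonneg_left (norm_gen e δ h0 h1 m hm he c s hs β t) (by rw [hN]; positivity)
  refine hE.trans (le_of_eq ?_)
  refine Finset.sum_bij (fun t _ => fun i => c * t i) ?_ ?_ ?_ ?_
  · intro t ht
    rw [Finset.mem_filter] at ht ⊢
    refine ⟨Finset.mem_univ _, fun h => ht.2 ?_⟩
    ext i
    have := congrFun h i
    simp only [Pi.zero_apply, mul_eq_zero, hc, false_or] at this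
    exact this
  · intro t _ t' _ h
    ext i
    exact mul_left_cancel₀ hc (congrFun h i)
  · intro t ht
    rw [Finset.mem_filter] at ht
    refine ⟨fun i => c⁻¹ * t i, ?_, ?_⟩
    · rw [Finset.mem_filter]
      refine ⟨Finset.mem_univ _, fun h => ht.2 ?_⟩
      ext i
      have := congrFun h i
      simp only [Pi.zero_apply, mul_eq_zero, inv_eq_zero, hc, false_or] at this
      exact this
    · ext i
      simp only
      rw [mul_inv_cancel_left₀ hc]
  · intro t _
    rw [hN]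
    simp only
    congr 3
    ext Y
    have : spt (fun i => c * t i) = spt t := by
      unfold spt
      ext i
      simp [hc]
    rw [this]

end Pool.Agent.H555.Sieg
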