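import Mathlib
import Pool.Agent.H555.Sieg.Four

/-! The bound for the error term of the factorial moments. -/

open Finset

namespace Pool.Agent.H555.Sieg

variable {p : ℕ} [Fact p.Prime] {ι : Type*} [Fintype ι] [DecidableEq ι] (e : ι → ℕ)

lemma card_over (S : Finset ι) (k : ℕ) (_hS : #S ≤ k) :
    #(((Finset.univ : Finset ι).powersetCard k).filter fun Y => S ⊆ Y) ≤
      (Fintype.card ι) ^ (k - #S) := by
  calc #(((Finset.univ : Finset ι).powersetCard k).filter fun Y => S ⊆ Y)
      ≤ #((Finset.univ : Finset ι).powersetCard (k - #S)) := by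
        refine Finset.card_le_card_of_injOn (fun Y => Y \ S) ?_ ?_
        · intro Y hY
          rw [Finset.mem_coe, Finset.mem_filter, Finset.mem_powersetCard] at hY
          rw [Finset.mem_coe, Finset.mem_powersetCard]
          refine ⟨Finset.subset_univ _, ?_⟩
          rw [Finset.card_sdiff_of_subset hY.2, hY.1.2]
        · intro Y hY Y' hY' h
          rw [Finset.mem_coe, Finset.mem_filter] at hY hY'
          simp only at h
          rw [← Finset.sdiff_union_of_subset hY.2, h, Finset.sdiff_union_of_subset hY'.2]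
    _ = (Fintype.card ι).choose (k - #S) := by rw [Finset.card_powersetCard, Finset.card_univ]
    _ ≤ _ := Nat.choose_le_pow _ _

lemma card_over_zero (S : Finset ι) (k : ℕ) (hS : k < #S) :
    #(((Finset.univ : Finset ι).powersetCard k).filter fun Y => S ⊆ Y) = 0 := by
  rw [Finset.card_eq_zero, Finset.filter_eq_empty_iff]
  intro Y hY h
  rw [Finset.mem_powersetCard] at hY
  have := Finset.card_le_card h
  omega

lemma card_spt (hM : Fintype.card ι ≤ p) (l : ℕ) :
    #((Finset.univ : Finset (ι → ZMod p)).filter fun t => #(spt t) = l) ≤ p ^ (2 * l) := by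
  have h1 : ((Finset.univ : Finset (ι → ZMod p)).filter fun t => #(spt t) = l) ⊆
      ((Finset.univ : Finset ι).powersetCard l).biUnion fun Y => supported (p := p) Y := by
    intro t ht
    rw [Finset.mem_filter] at ht
    rw [Finset.mem_biUnion]
    exact ⟨spt t, by rw [Finset.mem_powersetCard]; exact ⟨Finset.subset_univ _, ht.2⟩,
      (mem_supported _ _).2 subset_rfl⟩
  calc _ ≤ _ := Finset.card_le_card h1
    _ ≤ ∑ Y ∈ (Finset.univ : Finset ι).powersetCard l, #(supported (p := p) Y) :=
        Finset.card_biUnion_le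
    _ ≤ ∑ Y ∈ (Finset.univ : Finset ι).powersetCard l, p ^ l := by
        refine Finset.sum_le_sum fun Y hY => ?_
        rw [Finset.mem_powersetCard] at hY
        rw [supported, Fintype.card_piFinset]
        have : ∀ i : ι, #(if i ∈ Y then (Finset.univ : Finset (ZMod p)) else {0}) =
            if i ∈ Y then p else 1 := by
          intro i
          split_ifs
          · rw [Finset.card_univ, ZMod.card]
          · rfl
        rw [Finset.prod_congr rfl fun i _ => this i, Finset.prod_ite_mem, Finset.univ_inter,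
          Finset.prod_const, hY.2]
    _ = (Fintype.card ι).choose l * p ^ l := by
        rw [Finset.sum_const, Finset.card_powersetCard, Finset.card_univ, smul_eq_mul]
    _ ≤ p ^ l * p ^ l := by
        gcongr
        exact (Nat.choose_le_pow _ _).trans (Nat.pow_le_pow_left hM l)
    _ = p ^ (2 * l) := by ring

theorem main_bound (δ : ℝ) (h0 : 0 ≤ δ) (h1 : δ ≤ 1 / 2) (m : ℕ) (hm : p = 2 * m + 1)
    (he : ∀ i, Odd (e i)) (hinj : Function.Injective e) (hep : ∀ i, e i < p - 1)
    (hM : Fintype.card ι ≤ p) (c : ZMod p) (hc : c ≠ 0) (s : ℕ → ZMod p)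
    (hs : ∀ a, s a = 1 ∨ s a = -1) (β : ι → ZMod p) (k V H : ℕ) (hV : 0 < V) (Λ : ℝ) (hΛ0 : 0 ≤ Λ)
    (hΛ : 2 * (2 * k + 1) * Λ ≤ (p - 1) * (V : ℝ) ^ 2)
    (hH : ∀ α β γ : ZMod p, γ ≠ 0 →
      #((box p V ×ˢ box p V).filter fun q : ZMod p × ZMod p => (q.1 + α) * (q.2 + β) = γ) ≤ H) :
    |(p : ℝ) ^ k * ∑ A ∈ (Finset.Icc 1 m).powerset, wt δ m A * ((Zc e c s β A).choose k : ℝ) -
      ((Fintype.card ι).choose k : ℝ)| ≤
      ∑ l ∈ Finset.range k, (p : ℝ) ^ (k - (l + 1)) *
        (2 * (2 * V + 1) ^ (2 * l + 1) * (H + l) +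
          (p : ℝ) ^ (2 * (l + 1)) * Real.exp (-(2 * δ / p ^ 2 * Λ))) := by
  classical
  refine (moment e δ h0 h1 m hm he c hc s hs β k).trans ?_
  have hp0 : (0 : ℝ) < p := by exact_mod_cast (Fact.out : p.Prime).pos
  obtain ⟨g, hg⟩ := IsCyclic.exists_generator (α := (ZMod p)ˣ)
  have hg' : orderOf g = p - 1 := by
    rw [orderOf_eq_card_of_forall_mem_zpowers hg, Nat.card_eq_fintype_card, ZMod.card_units]
  set f : (ι → ZMod p) → ℝ := fun t =>
    (#(((Finset.univ : Finset ι).powersetCard k).filter fun Y => spt t ⊆ Y) : ℝ) *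
          Real.exp (-(2 * δ / p ^ 2 * Q e t)) with hf
  have hf0 : ∀ t, 0 ≤ f t := fun t => by rw [hf]; positivity
  -- only the functions with small support matter
  have h2 : ∑ t ∈ (Finset.univ : Finset (ι → ZMod p)).filter (fun t => t ≠ 0), f t ≤
      ∑ l ∈ Finset.range k, ∑ t ∈ (Finset.univ : Finset (ι → ZMod p)).filter
        (fun t => #(spt t) = l + 1), f t := by
    rw [← Finset.sum_biUnion]
    · have h3 : ∑ t ∈ (Finset.univ : Finset (ι → ZMod p)).filter (fun t => t ≠ 0), f t =
          ∑ t ∈ (Finset.univ : Finset (ι → ZMod p)).filter (fun t => t ≠ 0 ∧ #(spt t) ≤ k), f t := by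
        symm
        refine Finset.sum_subset ?_ ?_
        · intro t ht
          rw [Finset.mem_filter] at ht ⊢
          exact ⟨ht.1, ht.2.1⟩
        · intro t ht ht'
          rw [Finset.mem_filter] at ht ht'
          push Not at ht'
          rw [hf]
          simp only
          rw [card_over_zero _ _ (ht' ht.1 ht.2)]
          simp
      rw [h3]
      refine Finset.sum_le_sum_of_subset_of_nonneg ?_ fun t _ _ => hf0 t
      intro t ht
      rw [Finset.mem_filter] at ht
      rw [Finset.mem_biUnion]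
      have h4 : #(spt t) ≠ 0 := by
        intro h
        rw [Finset.card_eq_zero] at h
        apply ht.2.1
        ext i
        by_contra hi
        have : i ∈ spt t := by
          rw [spt, Finset.mem_filter]
          exact ⟨Finset.mem_univ _, hi⟩
        rw [h] at this
        simp at this
      refine ⟨#(spt t) - 1, Finset.mem_range.2 (by omega), ?_⟩
      rw [Finset.mem_filter]
      exact ⟨Finset.mem_univ _, by omega⟩
    · intro l _ l' _ hll
      simp only [Function.onFun]
      rw [Finset.disjoint_left]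
      intro t ht ht'
      rw [Finset.mem_filter] at ht ht'
      omega
  refine h2.trans (Finset.sum_le_sum fun l hl => ?_)
  rw [Finset.mem_range] at hl
  -- one size of the support
  have h3 : ∑ t ∈ (Finset.univ : Finset (ι → ZMod p)).filter (fun t => #(spt t) = l + 1), f t ≤
      (p : ℝ) ^ (k - (l + 1)) * ∑ t ∈ (Finset.univ : Finset (ι → ZMod p)).filter
        (fun t => #(spt t) = l + 1), Real.exp (-(2 * δ / p ^ 2 * Q e t)) := by
    rw [Finset.mul_sum]
    refine Finset.sum_le_sum fun t ht => ?_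
    rw [Finset.mem_filter] at ht
    rw [hf]
    simp only
    gcongr
    have h4 := card_over (spt t) k (by omega)
    rw [ht.2] at h4
    calc ((#(((Finset.univ : Finset ι).powersetCard k).filter fun Y => spt t ⊆ Y) : ℕ) : ℝ)
        ≤ (((Fintype.card ι) ^ (k - (l + 1)) : ℕ) : ℝ) := by exact_mod_cast h4
      _ ≤ ((p ^ (k - (l + 1)) : ℕ) : ℝ) := by exact_mod_cast Nat.pow_le_pow_left hM _
      _ = _ := by push_cast; rfl
  refine h3.trans (mul_le_mul_of_nonneg_left ?_ (by positivity))
  set B := (Finset.univ : Finset (ι → ZMod p)).filter fun t => #(spt t) = l + 1 ∧ Q e t ≤ Λ with hB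
  set G := (Finset.univ : Finset (ι → ZMod p)).filter fun t => #(spt t) = l + 1 ∧ ¬ Q e t ≤ Λ with hG
  have h4 : ∑ t ∈ (Finset.univ : Finset (ι → ZMod p)).filter (fun t => #(spt t) = l + 1),
      Real.exp (-(2 * δ / p ^ 2 * Q e t)) =
      ∑ t ∈ B, Real.exp (-(2 * δ / p ^ 2 * Q e t)) + ∑ t ∈ G, Real.exp (-(2 * δ / p ^ 2 * Q e t)) := by
    rw [hB, hG, ← Finset.filter_filter, ← Finset.filter_filter,
      Finset.sum_filter_add_sum_filter_not]
  have hQ0 : ∀ t : ι → ZMod p, 0 ≤ Q e t := fun t => Finset.sum_nonneg fun _ _ => by positivity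
  have h5 : ∑ t ∈ B, Real.exp (-(2 * δ / p ^ 2 * Q e t)) ≤ #B := by
    have : ∀ t ∈ B, Real.exp (-(2 * δ / p ^ 2 * Q e t)) ≤ 1 := by
      intro t _
      rw [Real.exp_le_one_iff]
      have := hQ0 t
      have : 0 ≤ 2 * δ / p ^ 2 * Q e t := by positivity
      linarith
    calc _ ≤ ∑ t ∈ B, (1 : ℝ) := Finset.sum_le_sum this
      _ = #B := by simp
  have h6 : ∑ t ∈ G, Real.exp (-(2 * δ / p ^ 2 * Q e t)) ≤
      (p : ℝ) ^ (2 * (l + 1)) * Real.exp (-(2 * δ / p ^ 2 * Λ)) := by
    calc _ ≤ ∑ t ∈ G, Real.exp (-(2 * δ / p ^ 2 * Λ)) := by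
          refine Finset.sum_le_sum fun t ht => ?_
          rw [hG, Finset.mem_filter] at ht
          gcongr
          exact (not_le.1 ht.2.2).le
      _ = #G * Real.exp (-(2 * δ / p ^ 2 * Λ)) := by rw [Finset.sum_const, nsmul_eq_mul]
      _ ≤ _ := by
          gcongr
          have h7 : #G ≤ p ^ (2 * (l + 1)) := by
            refine le_trans (Finset.card_le_card ?_) (card_spt (p := p) (ι := ι) hM (l + 1))
            intro t ht
            rw [hG, Finset.mem_filter] at ht
            rw [Finset.mem_filter]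
            exact ⟨ht.1, ht.2.1⟩
          exact_mod_cast h7
  have h7 : (#B : ℝ) ≤ 2 * (2 * V + 1) ^ (2 * l + 1) * (H + l) := by
    have h8 : #B ≤ 2 * #(Wset (p := p) e g l V) := by
      refine bad_le e g l V hV Λ ?_ B ?_
      · refine le_trans ?_ hΛ
        have : (l : ℝ) + 1 ≤ k := by exact_mod_cast hl
        have h9 : 2 * (2 * (l : ℝ) + 3) ≤ 2 * (2 * k + 1) := by linarith
        exact mul_le_mul_of_nonneg_right h9 hΛ0
      · intro t ht
        rw [hB, Finset.mem_filter] at ht
        exact ht.2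
    have h9 := card_Wset e hg' hinj hep l V H hH
    have h10 : #B ≤ 2 * (2 * V + 1) ^ (2 * l + 1) * (H + l) := by
      calc #B ≤ _ := h8
        _ ≤ 2 * ((2 * V + 1) ^ (2 * l + 1) * (H + l)) := by gcongr
        _ = _ := by ring
    exact_mod_cast h10
  rw [h4]
  linarith

end Pool.Agent.H555.Sieg
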