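import Mathlib
import Pool.Agent.H555.Sieg.Shift

/-!
Sparse sums are not concentrated: if the element `g ^ (e i)` of `ℤ/p` has large order for one of the
exponents, then the least absolute residues of the values are not all small. The values along the powers of
`g` are annihilated, as integers, by a polynomial `f` with the coefficients `-1, 0, 1`. For a prime `q` one has
`f (X ^ q) = f ^ q + q h`, and if `q` is large then `h` acts on this sequence as a contraction.
-/

open Finset Polynomial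

namespace Pool.Agent.H555.Sieg

/-- the shift -/
def shiftEnd : Module.End ℤ (ℕ → ℤ) where
  toFun y n := y (n + 1)
  map_add' _ _ := rfl
  map_smul' _ _ := rfl

lemma shiftEnd_pow (i : ℕ) (y : ℕ → ℤ) (n : ℕ) : (shiftEnd ^ i) y n = y (n + i) := by
  induction i generalizing n with
  | zero => simp
  | succ i ih =>
    rw [pow_succ', Module.End.mul_apply]
    change (shiftEnd ^ i) y (n + 1) = _
    rw [ih]
    congr 1
    ring

/-- the action of a polynomial on a sequence -/
noncomputable def act (F : ℤ[X]) (y : ℕ → ℤ) : ℕ → ℤ := aeval shiftEnd F y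

lemma act_mul (F G : ℤ[X]) (y : ℕ → ℤ) : act (F * G) y = act F (act G y) := by
  unfold act
  rw [map_mul, Module.End.mul_apply]

lemma act_sub (F G : ℤ[X]) (y : ℕ → ℤ) (n : ℕ) : act (F - G) y n = act F y n - act G y n := by
  unfold act
  rw [map_sub, LinearMap.sub_apply, Pi.sub_apply]

lemma act_C_mul (c : ℤ) (F : ℤ[X]) (y : ℕ → ℤ) (n : ℕ) : act (C c * F) y n = c * act F y n := by
  unfold act
  rw [map_mul, aeval_C, Module.End.mul_apply, Module.algebraMap_end_apply, Pi.smul_apply, smul_eq_mul]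

lemma act_eq (F : ℤ[X]) (N : ℕ) (hN : F.natDegree < N) (y : ℕ → ℤ) (n : ℕ) :
    act F y n = ∑ j ∈ Finset.range N, F.coeff j * y (n + j) := by
  unfold act
  rw [aeval_eq_sum_range' hN, LinearMap.sum_apply, Finset.sum_apply]
  refine Finset.sum_congr rfl fun j _ => ?_
  rw [LinearMap.smul_apply, Pi.smul_apply, shiftEnd_pow, smul_eq_mul]

lemma act_expand (q : ℕ) (F : ℤ[X]) (N : ℕ) (hN : F.natDegree < N) (y : ℕ → ℤ) (n : ℕ) :
    act (expand ℤ q F) y n = ∑ j ∈ Finset.range N, F.coeff j * y (n + q * j) := by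
  unfold act
  rw [expand_aeval, aeval_eq_sum_range' hN, LinearMap.sum_apply, Finset.sum_apply]
  refine Finset.sum_congr rfl fun j _ => ?_
  rw [LinearMap.smul_apply, Pi.smul_apply, ← pow_mul, shiftEnd_pow, smul_eq_mul]

lemma act_zero_of (F : ℤ[X]) (d : ℕ) (hd : F.natDegree ≤ d) (y : ℕ → ℤ) (n : ℕ)
    (h : ∀ j ≤ d, y (n + j) = 0) : act F y n = 0 := by
  rw [act_eq F (d + 1) (by omega)]
  refine Finset.sum_eq_zero fun j hj => ?_
  rw [Finset.mem_range] at hj
  rw [h j (by omega), mul_zero]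

/-- the congruence of Frobenius -/
lemma frob (q : ℕ) (hq : q.Prime) (f : ℤ[X]) :
    ∃ h : ℤ[X], expand ℤ q f = f ^ q + C (q : ℤ) * h ∧ h.natDegree ≤ q * f.natDegree := by
  have : Fact q.Prime := ⟨hq⟩
  have h1 : C (q : ℤ) ∣ expand ℤ q f - f ^ q := by
    rw [C_dvd_iff_dvd_coeff]
    intro i
    have h2 : (expand ℤ q f - f ^ q).map (Int.castRingHom (ZMod q)) = 0 := by
      rw [Polynomial.map_sub, Polynomial.map_pow, map_expand, ZMod.expand_card, sub_self]
    have h3 := congrArg (fun P => P.coeff i) h2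
    simp only [coeff_map, coeff_zero] at h3
    rw [eq_intCast, ZMod.intCast_zmod_eq_zero_iff_dvd] at h3
    exact h3
  obtain ⟨h, hh⟩ := h1
  refine ⟨h, by rw [← hh]; ring, ?_⟩
  have h4 : (C (q : ℤ) * h).natDegree = h.natDegree :=
    natDegree_C_mul (by exact_mod_cast hq.ne_zero)
  rw [← h4, ← hh]
  refine (natDegree_sub_le _ _).trans (max_le ?_ ?_)
  · rw [natDegree_expand, mul_comm]
  · exact natDegree_pow_le

/-- the contraction -/
theorem contraction (f h : ℤ[X]) (D q L : ℕ) (hD : f.natDegree < D) (hf1 : ∀ j, |f.coeff j| ≤ 1)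
    (hh : expand ℤ q f = f ^ q + C (q : ℤ) * h) (hhd : h.natDegree ≤ q * f.natDegree)
    (hq : 2 * D ≤ q) (y : ℕ → ℤ) (hy0 : ∀ n, n + D ≤ L → act f y n = 0) (B : ℤ)
    (hB : ∀ n ≤ L, |y n| ≤ B) (k : ℕ) :
    ∀ n, n + k * (q * D) ≤ L → 2 ^ k * |act (h ^ k) y n| ≤ B := by
  induction k with
  | zero =>
    intro n hn
    rw [pow_zero, pow_zero, one_mul]
    have : act 1 y n = y n := by
      unfold act
      rw [map_one, Module.End.one_apply]
    rw [this]
    exact hB n (by omega)
  | succ k ih =>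
    intro n hn
    obtain ⟨d, hd⟩ : ∃ d, d = f.natDegree := ⟨_, rfl⟩
    obtain ⟨D', rfl⟩ : ∃ D', D = D' + 1 := ⟨D - 1, by omega⟩
    obtain ⟨q', rfl⟩ : ∃ q', q = q' + 1 := ⟨q - 1, by omega⟩
    set u := act (h ^ k) y with hu
    have hdD : d ≤ D' := by omega
    -- `f` kills `u` on the window
    have hfu : ∀ m, m + k * ((q' + 1) * D') + (D' + 1) ≤ L → act f u m = 0 := by
      intro m hm
      rw [hu, ← act_mul, mul_comm, act_mul]
      refine act_zero_of _ (k * ((q' + 1) * D')) ?_ _ _ fun j hj => hy0 _ (by omega)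
      refine natDegree_pow_le.trans ?_
      have : (q' + 1) * f.natDegree ≤ (q' + 1) * D' := Nat.mul_le_mul_left _ (by omega)
      exact Nat.mul_le_mul_left _ (hhd.trans this)
    have e0 : act (h ^ (k + 1)) y n = act h u n := by
      rw [pow_succ', act_mul]
    have e1 : ((q' + 1 : ℕ) : ℤ) * act h u n = act (expand ℤ (q' + 1) f) u n := by
      have e2 : C (((q' + 1 : ℕ) : ℤ)) * h = expand ℤ (q' + 1) f - f ^ (q' + 1) := by
        rw [hh]; ring
      rw [← act_C_mul, e2, act_sub]
      have e3 : act (f ^ (q' + 1)) u n = 0 := by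
        rw [pow_succ, act_mul]
        refine act_zero_of _ (q' * D') ?_ _ _ fun j hj => hfu _ ?_
        · refine natDegree_pow_le.trans ?_
          exact Nat.mul_le_mul_left _ (by omega)
        · have e4 : (k + 1) * ((q' + 1) * (D' + 1)) =
            k * ((q' + 1) * D') + k * (q' + 1) + (q' * D' + q' + D' + 1) := by ring
          rw [e4] at hn
          omega
      rw [e3, sub_zero]
    rw [e0]
    have e5 : 2 ^ k * |act (expand ℤ (q' + 1) f) u n| ≤ (D' + 1 : ℕ) * B := by
      rw [act_expand _ _ _ hD]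
      calc 2 ^ k * |∑ j ∈ Finset.range (D' + 1), f.coeff j * u (n + (q' + 1) * j)|
          ≤ 2 ^ k * ∑ j ∈ Finset.range (D' + 1), |f.coeff j * u (n + (q' + 1) * j)| := by
            gcongr
            exact Finset.abs_sum_le_sum_abs _ _
        _ = ∑ j ∈ Finset.range (D' + 1), 2 ^ k * |f.coeff j * u (n + (q' + 1) * j)| := by
            rw [Finset.mul_sum]
        _ ≤ ∑ j ∈ Finset.range (D' + 1), B := by
            refine Finset.sum_le_sum fun j hj => ?_
            rw [Finset.mem_range] at hj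
            have h6 := ih (n + (q' + 1) * j) (by
              have h7 : (q' + 1) * j ≤ (q' + 1) * (D' + 1) := Nat.mul_le_mul_left _ (by omega)
              have h8 : (k + 1) * ((q' + 1) * (D' + 1)) =
                k * ((q' + 1) * (D' + 1)) + (q' + 1) * (D' + 1) := by ring
              rw [h8] at hn
              omega)
            refine le_trans ?_ h6
            rw [abs_mul]
            have h9 := hf1 j
            have h10 : 0 ≤ |u (n + (q' + 1) * j)| := abs_nonneg _
            have h11 : |f.coeff j| * |u (n + (q' + 1) * j)| ≤ 1 * |u (n + (q' + 1) * j)| :=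
              mul_le_mul_of_nonneg_right h9 h10
            rw [one_mul] at h11
            exact mul_le_mul_of_nonneg_left h11 (by positivity)
        _ = _ := by rw [Finset.sum_const, Finset.card_range, nsmul_eq_mul]
    rw [← e1, abs_mul, Nat.abs_cast] at e5
    have h6 : ((2 * (D' + 1) : ℕ) : ℤ) ≤ ((q' + 1 : ℕ) : ℤ) := by exact_mod_cast hq
    have h7 : ((D' + 1 : ℕ) : ℤ) * (2 ^ (k + 1) * |act h u n|) ≤ ((D' + 1 : ℕ) : ℤ) * B := by
      calc ((D' + 1 : ℕ) : ℤ) * (2 ^ (k + 1) * |act h u n|)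
          = 2 ^ k * (((2 * (D' + 1) : ℕ) : ℤ) * |act h u n|) := by push_cast; ring
        _ ≤ 2 ^ k * (((q' + 1 : ℕ) : ℤ) * |act h u n|) := by gcongr
        _ ≤ _ := e5
    exact le_of_mul_le_mul_left h7 (by positivity)

variable {p : ℕ} [Fact p.Prime] {ι : Type*} [Fintype ι] [DecidableEq ι]

omit [DecidableEq ι] in
lemma act_cast (F : ℤ[X]) (y : ℕ → ℤ) (t w : ι → ZMod p)
    (hy : ∀ n, (y n : ZMod p) = ∑ i, t i * w i ^ n) (n : ℕ) :
    ((act F y n : ℤ) : ZMod p) = ∑ i, (t i * aeval (w i) F) * w i ^ n := by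
  rw [act_eq F _ (Nat.lt_succ_self _)]
  push_cast
  have h1 : ∀ i, (t i * aeval (w i) F) * w i ^ n =
      ∑ j ∈ Finset.range (F.natDegree + 1), (F.coeff j : ZMod p) * (t i * w i ^ (n + j)) := by
    intro i
    rw [aeval_eq_sum_range, Finset.mul_sum, Finset.sum_mul]
    refine Finset.sum_congr rfl fun j _ => ?_
    rw [zsmul_eq_mul, pow_add]
    ring
  rw [Finset.sum_congr rfl fun i _ => h1 i, Finset.sum_comm]
  refine Finset.sum_congr rfl fun j _ => ?_
  rw [hy, Finset.mul_sum]

omit [Fintype ι] [DecidableEq ι] in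
/-- A polynomial with small coefficients and given zeros. -/
lemma exists_poly (S : Finset ι) (w : ι → ZMod p) (D : ℕ) (hD : p ^ #S < 2 ^ D) :
    ∃ f : ℤ[X], f.natDegree < D ∧ (∀ j, |f.coeff j| ≤ 1) ∧ f.map (Int.castRingHom (ZMod p)) ≠ 0 ∧
      ∀ i ∈ S, aeval (w i) f = 0 := by
  classical
  have hcard : #(Finset.univ : Finset (S → ZMod p)) < #(Finset.range D).powerset := by
    rw [Finset.card_powerset, Finset.card_range, Finset.card_univ, Fintype.card_fun, ZMod.card,
      Fintype.card_coe]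
    exact hD
  obtain ⟨a, ha, b, hb, hab, heq⟩ := Finset.exists_ne_map_eq_of_card_lt_of_maps_to hcard
    (f := fun c : Finset ℕ => fun i : S => ∑ j ∈ c, w i ^ j) (fun _ _ => Finset.mem_univ _)
  rw [Finset.mem_powerset] at ha hb
  have hcoeff : ∀ (c : Finset ℕ) (j : ℕ), (∑ m ∈ c, (X : ℤ[X]) ^ m).coeff j = if j ∈ c then 1 else 0 := by
    intro c j
    rw [finsetSum_coeff]
    simp only [coeff_X_pow]
    rw [Finset.sum_ite_eq]
  have hc : ∀ j, (∑ m ∈ a, (X : ℤ[X]) ^ m - ∑ m ∈ b, (X : ℤ[X]) ^ m).coeff j =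
      (if j ∈ a then 1 else 0) - (if j ∈ b then 1 else 0) := by
    intro j
    rw [coeff_sub, hcoeff, hcoeff]
  obtain ⟨j, hj⟩ : ∃ j, ¬ (j ∈ a ↔ j ∈ b) := by
    by_contra hcon
    push Not at hcon
    exact hab (Finset.ext hcon)
  have hp1 : (1 : ZMod p) ≠ 0 := one_ne_zero
  refine ⟨∑ m ∈ a, (X : ℤ[X]) ^ m - ∑ m ∈ b, (X : ℤ[X]) ^ m, ?_, ?_, ?_, ?_⟩
  · have hD0 : 0 < D := by
      rcases Nat.eq_zero_or_pos D with h | h
      · subst h
        have : 0 < p ^ #S := pow_pos (Fact.out : p.Prime).pos _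
        simp only [pow_zero] at hD
        omega
      · exact h
    have hle : (∑ m ∈ a, (X : ℤ[X]) ^ m - ∑ m ∈ b, (X : ℤ[X]) ^ m).natDegree ≤ D - 1 := ?_
    · omega
    rw [natDegree_le_iff_coeff_eq_zero]
    intro m hm
    rw [hc]
    have h1 : m ∉ a := fun h => by have := Finset.mem_range.1 (ha h); omega
    have h2 : m ∉ b := fun h => by have := Finset.mem_range.1 (hb h); omega
    rw [if_neg h1, if_neg h2, sub_zero]
  · intro m
    rw [hc]
    split_ifs <;> simp
  · intro h
    have h1 := congrArg (fun P => P.coeff j) h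
    simp only [coeff_map, coeff_zero] at h1
    rw [hc] at h1
    by_cases h2 : j ∈ a
    · by_cases h3 : j ∈ b
      · exact hj ⟨fun _ => h3, fun _ => h2⟩
      · rw [if_pos h2, if_neg h3] at h1
        simp at h1
    · by_cases h3 : j ∈ b
      · rw [if_neg h2, if_pos h3] at h1
        simp at h1
      · exact hj ⟨fun h => absurd h h2, fun h => absurd h h3⟩
  · intro i hi
    have h1 := congrFun heq ⟨i, hi⟩
    simp only at h1
    rw [map_sub, map_sum, map_sum]
    simp only [map_pow, aeval_X]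
    rw [h1, sub_self]

variable (e : ι → ℕ)

/-- For every start there is a window of the sequence of the values which is not small. -/
theorem big_window {g : (ZMod p)ˣ} (hg : orderOf g = p - 1) (he : Function.Injective e)
    (hep : ∀ i, e i < p - 1) (l D R k₀ L : ℕ) (hD : p ^ l < 2 ^ D) (hp2 : p < 2 ^ k₀)
    (hL : l + k₀ * (R * D) ≤ L) (hR : D ≤ #((Finset.range (R + 1)).filter fun q => q.Prime ∧ 2 * D ≤ q))
    (t : ι → ZMod p) (ht : #(spt t) ≤ l) (i₀ : ι) (hi₀ : i₀ ∈ spt t) (hord : R < orderOf (g ^ e i₀)) :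
    ∃ n, n + D ≤ L ∧ (p : ℤ) ^ 2 ≤
      D * ∑ j ∈ Finset.range D, ((ev e t ((g : ZMod p) ^ (n + j))).valMinAbs) ^ 2 := by
  classical
  by_contra hcon
  push Not at hcon
  have hp := (Fact.out : p.Prime)
  have hp0 : (0 : ℤ) < p := by exact_mod_cast hp.pos
  set w : ι → ZMod p := fun i => (g : ZMod p) ^ e i with hw
  have hwinj : Function.Injective w := inj_pow e hg he hep
  obtain ⟨f, hfD, hf1, hf0, hfr⟩ := exists_poly (spt t) w D
    ((Nat.pow_le_pow_right hp.pos ht).trans_lt hD)
  set y : ℕ → ℤ := fun n => (ev e t ((g : ZMod p) ^ n)).valMinAbs with hy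
  have hyc : ∀ n, (y n : ZMod p) = ∑ i, t i * w i ^ n := by
    intro n
    rw [hy]
    simp only
    rw [ZMod.coe_valMinAbs]
    unfold ev
    refine Finset.sum_congr rfl fun i _ => ?_
    rw [hw]
    simp only
    rw [← pow_mul, ← pow_mul, mul_comm n]
  -- `f` kills `y` on the window
  have hfy : ∀ n, n + D ≤ L → act f y n = 0 := by
    intro n hn
    have h1 : ((act f y n : ℤ) : ZMod p) = 0 := by
      rw [act_cast f y t w hyc]
      refine Finset.sum_eq_zero fun i _ => ?_
      by_cases hi : i ∈ spt t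
      · rw [hfr i hi, mul_zero, zero_mul]
      · rw [spt, Finset.mem_filter] at hi
        push Not at hi
        rw [hi (Finset.mem_univ _), zero_mul, zero_mul]
    rw [ZMod.intCast_zmod_eq_zero_iff_dvd] at h1
    refine Int.eq_zero_of_abs_lt_dvd h1 ?_
    have h2 : |act f y n| ≤ ∑ j ∈ Finset.range D, |y (n + j)| := by
      rw [act_eq f D hfD]
      refine (Finset.abs_sum_le_sum_abs _ _).trans (Finset.sum_le_sum fun j _ => ?_)
      rw [abs_mul]
      have := mul_le_mul_of_nonneg_right (hf1 j) (abs_nonneg (y (n + j)))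
      rwa [one_mul] at this
    have h3 : (∑ j ∈ Finset.range D, |y (n + j)|) ^ 2 ≤ D * ∑ j ∈ Finset.range D, y (n + j) ^ 2 := by
      have h4 := Finset.sum_mul_sq_le_sq_mul_sq (Finset.range D) (fun _ => (1 : ℤ))
        (fun j => |y (n + j)|)
      simp only [one_mul, one_pow, Finset.sum_const, Finset.card_range, nsmul_eq_mul, mul_one,
        sq_abs] at h4
      exact h4
    have h5 : |act f y n| ^ 2 < (p : ℤ) ^ 2 := by
      calc |act f y n| ^ 2 ≤ (∑ j ∈ Finset.range D, |y (n + j)|) ^ 2 :=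
            pow_le_pow_left₀ (abs_nonneg _) h2 2
        _ ≤ _ := h3
        _ < _ := hcon n hn
    exact lt_of_pow_lt_pow_left₀ 2 hp0.le h5
  -- the zeros of `f`
  have hroot : ∀ q, q.Prime → 2 * D ≤ q → q ≤ R → aeval (w i₀ ^ q) f = 0 := by
    intro q hq hq2 hqR
    obtain ⟨h, hh, hhd⟩ := frob q hq f
    have hB : ∀ n ≤ L, |y n| ≤ (p : ℤ) := by
      intro n _
      have h1 := ZMod.natAbs_valMinAbs_le (ev e t ((g : ZMod p) ^ n))
      rw [hy]
      simp only
      rw [Int.abs_eq_natAbs]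
      exact_mod_cast h1.trans (Nat.div_le_self _ _)
    have h1 := contraction f h D q L hfD hf1 hh hhd hq2 y hfy p hB k₀
    have h2 : ∀ n, n < l → act (h ^ k₀) y n = 0 := by
      intro n hn
      have h3 := h1 n (by
        have : k₀ * (q * D) ≤ k₀ * (R * D) := by gcongr
        omega)
      by_contra hne
      have h4 : 1 ≤ |act (h ^ k₀) y n| := Int.one_le_abs hne
      have h5 : (2 : ℤ) ^ k₀ * 1 ≤ 2 ^ k₀ * |act (h ^ k₀) y n| := by gcongr
      have h6 : ((p : ℕ) : ℤ) < 2 ^ k₀ := by exact_mod_cast hp2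
      linarith
    have h3 := vdm (fun i => t i * aeval (w i) (h ^ k₀)) w hwinj l
      ((Finset.card_le_card (by
        intro i hi
        rw [Finset.mem_filter] at hi
        rw [spt, Finset.mem_filter]
        exact ⟨hi.1, fun h => hi.2 (by rw [h, zero_mul])⟩)).trans ht)
      (by
        intro n hn
        rw [← act_cast (h ^ k₀) y t w hyc, h2 n hn, Int.cast_zero])
    have h4 := congrFun h3 i₀
    simp only [Pi.zero_apply, mul_eq_zero, map_pow] at h4
    have h5 : aeval (w i₀) h = 0 := by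
      rcases h4 with h5 | h5
      · rw [spt, Finset.mem_filter] at hi₀
        exact absurd h5 hi₀.2
      · exact eq_zero_of_pow_eq_zero h5
    rw [← expand_aeval, hh, map_add, map_mul, map_pow, h5, mul_zero, add_zero, hfr i₀ hi₀,
      zero_pow hq.ne_zero]
  -- too many zeros
  set Ps := (Finset.range (R + 1)).filter fun q => q.Prime ∧ 2 * D ≤ q with hPs
  have hinj : Set.InjOn (fun q => w i₀ ^ q) (Ps : Set ℕ) := by
    intro q hq q' hq' h
    rw [Finset.mem_coe, hPs, Finset.mem_filter, Finset.mem_range] at hq hq'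
    have h1 : (g ^ e i₀) ^ q = (g ^ e i₀) ^ q' := by
      ext
      push_cast
      exact h
    exact pow_injOn_Iio_orderOf (by simp only [Set.mem_Iio]; omega)
      (by simp only [Set.mem_Iio]; omega) h1
  have hsub : Ps.image (fun q => w i₀ ^ q) ⊆ (f.map (Int.castRingHom (ZMod p))).roots.toFinset := by
    intro z hz
    rw [Finset.mem_image] at hz
    obtain ⟨q, hq, rfl⟩ := hz
    rw [hPs, Finset.mem_filter, Finset.mem_range] at hq
    rw [Multiset.mem_toFinset, mem_roots hf0, IsRoot, eval_map, ← algebraMap_int_eq,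
      ← aeval_def]
    exact hroot q hq.2.1 hq.2.2 (by omega)
  have h1 := Finset.card_le_card hsub
  rw [Finset.card_image_of_injOn hinj] at h1
  have h2 := (Multiset.toFinset_card_le _).trans
    (card_roots' (f.map (Int.castRingHom (ZMod p))))
  have h3 : (f.map (Int.castRingHom (ZMod p))).natDegree ≤ f.natDegree := natDegree_map_le
  omega

/-- The mean square of the values is large. -/
theorem nonconc {g : (ZMod p)ˣ} (hg : orderOf g = p - 1) (he : Function.Injective e)
    (hep : ∀ i, e i < p - 1) (l D R k₀ L : ℕ) (hD : p ^ l < 2 ^ D) (hp2 : p < 2 ^ k₀)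
    (hL : l + k₀ * (R * D) ≤ L) (hR : D ≤ #((Finset.range (R + 1)).filter fun q => q.Prime ∧ 2 * D ≤ q))
    (t : ι → ZMod p) (ht : #(spt t) ≤ l) (i₀ : ι) (hi₀ : i₀ ∈ spt t) (hord : R < orderOf (g ^ e i₀)) :
    ((p : ℝ) - 1) * p ^ 2 ≤ D * L * Q e t := by
  classical
  have hp := (Fact.out : p.Prime)
  have h1 : ∀ z : (ZMod p)ˣ, (p : ℝ) ^ 2 ≤ D * ∑ j ∈ Finset.range L,
      ((ev e t ((z : ZMod p) * (g : ZMod p) ^ j)).valMinAbs : ℝ) ^ 2 := by
    intro z
    obtain ⟨n, hn, h2⟩ := big_window e hg he hep l D R k₀ L hD hp2 hL hR (dil e z t)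
      (by rw [spt_dil]; exact ht) i₀ (by rw [spt_dil]; exact hi₀) hord
    have h3 : (p : ℝ) ^ 2 ≤
      D * ∑ j ∈ Finset.range D, ((ev e (dil e z t) ((g : ZMod p) ^ (n + j))).valMinAbs : ℝ) ^ 2 := by
      exact_mod_cast h2
    refine h3.trans (mul_le_mul_of_nonneg_left ?_ (by positivity))
    have h4 : ∑ j ∈ Finset.range D, ((ev e (dil e z t) ((g : ZMod p) ^ (n + j))).valMinAbs : ℝ) ^ 2 =
        ∑ j ∈ Finset.Ico n (n + D), ((ev e t ((z : ZMod p) * (g : ZMod p) ^ j)).valMinAbs : ℝ) ^ 2 := by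
      rw [Finset.sum_Ico_eq_sum_range]
      simp only [Nat.add_sub_cancel_left]
      refine Finset.sum_congr rfl fun j _ => ?_
      rw [ev_dil]
    rw [h4]
    refine Finset.sum_le_sum_of_subset_of_nonneg ?_ fun _ _ _ => by positivity
    intro j hj
    rw [Finset.mem_Ico] at hj
    rw [Finset.mem_range]
    omega
  have h3 : ∀ j : ℕ, ∑ z : (ZMod p)ˣ,
      ((ev e t ((z : ZMod p) * (g : ZMod p) ^ j)).valMinAbs : ℝ) ^ 2 = Q e t := by
    intro j
    unfold Q
    rw [← Equiv.sum_comp (Equiv.mulRight (g ^ j))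
      (fun z : (ZMod p)ˣ => ((ev e t (z : ZMod p)).valMinAbs : ℝ) ^ 2)]
    refine Finset.sum_congr rfl fun z _ => ?_
    simp only [Equiv.coe_mulRight, Units.val_mul, Units.val_pow_eq_pow_val]
  have hU : Fintype.card (ZMod p)ˣ = p - 1 := ZMod.card_units_eq_totient p ▸ Nat.totient_prime hp
  have h4 : ∑ _z : (ZMod p)ˣ, (p : ℝ) ^ 2 = ((p : ℝ) - 1) * p ^ 2 := by
    rw [Finset.sum_const, Finset.card_univ, hU, nsmul_eq_mul, Nat.cast_sub hp.one_lt.le,
      Nat.cast_one]
  rw [← h4]
  refine (Finset.sum_le_sum fun z _ => h1 z).trans (le_of_eq ?_)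
  rw [← Finset.mul_sum, Finset.sum_comm, Finset.sum_congr rfl fun j _ => h3 j, Finset.sum_const,
    Finset.card_range, nsmul_eq_mul]
  ring

end Pool.Agent.H555.Sieg
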