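import Mathlib
import Pool.Agent.H555.Sieg.NonConc
import Pool.Agent.H555.Sieg.Bound

/-! The factorial moments and the single sums, with the non-concentration of sparse sums. -/

open Finset

namespace Pool.Agent.H555.Sieg

variable {p : ℕ} [Fact p.Prime] {ι : Type*} [Fintype ι] [DecidableEq ι] (e : ι → ℕ)

theorem moment_nc (δ : ℝ) (h0 : 0 ≤ δ) (h1 : δ ≤ 1 / 2) (m : ℕ) (hm : p = 2 * m + 1)
    (he : ∀ i, Odd (e i)) (hM : Fintype.card ι ≤ p) (c : ZMod p) (hc : c ≠ 0) (s : ℕ → ZMod p)
    (hs : ∀ a, s a = 1 ∨ s a = -1) (β : ι → ZMod p) (k : ℕ) (Λ : ℝ)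
    (hQ : ∀ t : ι → ZMod p, t ≠ 0 → #(spt t) ≤ k → Λ ≤ Q e t) :
    |(p : ℝ) ^ k * ∑ A ∈ (Finset.Icc 1 m).powerset, wt δ m A * ((Zc e c s β A).choose k : ℝ) -
      ((Fintype.card ι).choose k : ℝ)| ≤
      (p : ℝ) ^ (2 * k) * Real.exp (-(2 * δ / p ^ 2 * Λ)) := by
  classical
  refine (moment e δ h0 h1 m hm he c hc s hs β k).trans ?_
  have h2 : ∑ t ∈ (Finset.univ : Finset (ι → ZMod p)).filter (fun t => t ≠ 0),
        (#((Finset.univ.powersetCard k).filter fun Y => spt t ⊆ Y) : ℝ) *
          Real.exp (-(2 * δ / p ^ 2 * Q e t)) ≤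
      ∑ t ∈ (Finset.univ : Finset (ι → ZMod p)).filter (fun t => t ≠ 0),
        (#((Finset.univ.powersetCard k).filter fun Y => spt t ⊆ Y) : ℝ) *
          Real.exp (-(2 * δ / p ^ 2 * Λ)) := by
    refine Finset.sum_le_sum fun t ht => ?_
    rw [Finset.mem_filter] at ht
    by_cases hk : #(spt t) ≤ k
    · have := hQ t ht.2 hk
      gcongr
    · rw [card_over_zero _ _ (by omega : k < #(spt t))]
      simp
  refine h2.trans ?_
  rw [← Finset.sum_mul]
  refine mul_le_mul_of_nonneg_right ?_ (Real.exp_pos _).le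
  have h3 : ∑ t ∈ (Finset.univ : Finset (ι → ZMod p)).filter (fun t => t ≠ 0),
        #((Finset.univ.powersetCard k).filter fun Y => spt t ⊆ Y) ≤ p ^ (2 * k) := by
    calc _ ≤ ∑ t : ι → ZMod p, #((Finset.univ.powersetCard k).filter fun Y => spt t ⊆ Y) :=
          Finset.sum_le_sum_of_subset (Finset.filter_subset _ _)
      _ = ∑ Y ∈ (Finset.univ : Finset ι).powersetCard k, #(supported (p := p) Y) := by
          simp only [Finset.card_filter]
          rw [Finset.sum_comm]
          refine Finset.sum_congr rfl fun Y _ => ?_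
          rw [← Finset.card_filter]
          congr 1
          ext t
          rw [Finset.mem_filter, mem_supported]
          simp
      _ = ∑ Y ∈ (Finset.univ : Finset ι).powersetCard k, p ^ k := by
          refine Finset.sum_congr rfl fun Y hY => ?_
          rw [Finset.mem_powersetCard] at hY
          rw [supported, Fintype.card_piFinset]
          have : ∀ i : ι, #(if i ∈ Y then (Finset.univ : Finset (ZMod p)) else {0}) =
              if i ∈ Y then p else 1 := by
            intro i
            split_ifs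
            · rw [Finset.card_univ, ZMod.card]
            · rfl
          rw [Finset.prod_congr rfl fun i _ => this i, Finset.prod_ite_mem, Finset.univ_inter,
            Finset.prod_const, hY.2]
      _ = (Fintype.card ι).choose k * p ^ k := by
          rw [Finset.sum_const, Finset.card_powersetCard, Finset.card_univ, smul_eq_mul]
      _ ≤ p ^ k * p ^ k := by
          gcongr
          exact (Nat.choose_le_pow _ _).trans (Nat.pow_le_pow_left hM k)
      _ = _ := by ring
  exact_mod_cast h3

/-- One sum vanishes with small probability. -/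
theorem single (δ : ℝ) (h0 : 0 < δ) (h1 : δ ≤ 1 / 2) (m : ℕ) (hm : p = 2 * m + 1)
    (e₀ : ℕ) (he : Odd e₀) (c : ZMod p) (hc : c ≠ 0) (s : ℕ → ZMod p)
    (hs : ∀ a, s a = 1 ∨ s a = -1) (β₀ : ZMod p) (V : ℕ) (hV : 0 < V)
    (hV2 : 3 * (p : ℝ) ^ 2 * Real.log p ≤ δ * ((p - 1) * (V : ℝ) ^ 2)) :
    ∑ A ∈ (Finset.Icc 1 m).powerset,
      (if β₀ + c * ∑ a ∈ A, s a * (a : ZMod p) ^ e₀ = 0 then wt δ m A else 0) ≤ (4 + 4 * V) / p := by
  classical
  have hp := (Fact.out : p.Prime)
  have hp0 : (0 : ℝ) < p := by exact_mod_cast hp.pos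
  obtain ⟨Λ, hΛ⟩ : ∃ Λ : ℝ, Λ = (p - 1) * (V : ℝ) ^ 2 / 6 := ⟨_, rfl⟩
  have hm1 := moment (p := p) (ι := Unit) (fun _ => e₀) δ h0.le h1 m hm (fun _ => he) c hc s hs
    (fun _ => β₀) 1
  have h2 : ∑ t ∈ (Finset.univ : Finset (Unit → ZMod p)).filter (fun t => t ≠ 0),
        (#((Finset.univ.powersetCard 1).filter fun Y => spt t ⊆ Y) : ℝ) *
          Real.exp (-(2 * δ / p ^ 2 * Q (fun _ => e₀) t)) ≤ 4 * V + 3 := by
    have h3 : ∀ t : Unit → ZMod p,
        (#(((Finset.univ : Finset Unit).powersetCard 1).filter fun Y => spt t ⊆ Y) : ℝ) ≤ 1 := by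
      intro t
      have : #(((Finset.univ : Finset Unit).powersetCard 1).filter fun Y => spt t ⊆ Y) ≤ 1 := by
        refine (Finset.card_filter_le _ _).trans ?_
        rw [Finset.card_powersetCard]
        simp
      exact_mod_cast this
    have h4 : ∑ t ∈ (Finset.univ : Finset (Unit → ZMod p)).filter (fun t => t ≠ 0),
        (#((Finset.univ.powersetCard 1).filter fun Y => spt t ⊆ Y) : ℝ) *
          Real.exp (-(2 * δ / p ^ 2 * Q (fun _ => e₀) t)) ≤
        ∑ t ∈ (Finset.univ : Finset (Unit → ZMod p)).filter (fun t => t ≠ 0),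
          Real.exp (-(2 * δ / p ^ 2 * Q (fun _ => e₀) t)) := by
      refine Finset.sum_le_sum fun t _ => ?_
      have := mul_le_mul_of_nonneg_right (h3 t) (Real.exp_pos (-(2 * δ / p ^ 2 * Q (fun _ => e₀) t))).le
      rwa [one_mul] at this
    refine h4.trans ?_
    have hsplit := Finset.sum_filter_add_sum_filter_not
      ((Finset.univ : Finset (Unit → ZMod p)).filter (fun t => t ≠ 0))
      (fun t => Q (fun _ => e₀) t ≤ Λ) (fun t => Real.exp (-(2 * δ / p ^ 2 * Q (fun _ => e₀) t)))
    rw [← hsplit]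
    set B := ((Finset.univ : Finset (Unit → ZMod p)).filter (fun t => t ≠ 0)).filter
      (fun t => Q (fun _ => e₀) t ≤ Λ) with hB
    set G := ((Finset.univ : Finset (Unit → ZMod p)).filter (fun t => t ≠ 0)).filter
      (fun t => ¬ Q (fun _ => e₀) t ≤ Λ) with hG
    have hQ0 : ∀ t : Unit → ZMod p, 0 ≤ Q (fun _ => e₀) t :=
      fun t => Finset.sum_nonneg fun _ _ => by positivity
    have h5 : ∑ t ∈ B, Real.exp (-(2 * δ / p ^ 2 * Q (fun _ => e₀) t)) ≤ #B := by
      have : ∀ t ∈ B, Real.exp (-(2 * δ / p ^ 2 * Q (fun _ => e₀) t)) ≤ 1 := by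
        intro t _
        rw [Real.exp_le_one_iff]
        have := hQ0 t
        have : 0 ≤ 2 * δ / p ^ 2 * Q (fun _ => e₀) t := by positivity
        linarith
      calc _ ≤ ∑ t ∈ B, (1 : ℝ) := Finset.sum_le_sum this
        _ = #B := by simp
    have h6 : ∑ t ∈ G, Real.exp (-(2 * δ / p ^ 2 * Q (fun _ => e₀) t)) ≤ 1 := by
      calc _ ≤ ∑ t ∈ G, Real.exp (-(2 * δ / p ^ 2 * Λ)) := by
            refine Finset.sum_le_sum fun t ht => ?_
            rw [hG, Finset.mem_filter] at ht
            gcongr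
            exact (not_le.1 ht.2).le
        _ = #G * Real.exp (-(2 * δ / p ^ 2 * Λ)) := by rw [Finset.sum_const, nsmul_eq_mul]
        _ ≤ p * (p : ℝ)⁻¹ := by
            gcongr
            · have : #G ≤ p := by
                calc #G ≤ #(Finset.univ : Finset (Unit → ZMod p)) := Finset.card_le_univ _
                  _ = p := by simp [ZMod.card]
              exact_mod_cast this
            · rw [← Real.exp_log hp0, ← Real.exp_neg, Real.exp_log hp0]
              apply Real.exp_le_exp.2
              rw [neg_le_neg_iff, hΛ]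
              rw [div_mul_eq_mul_div, le_div_iff₀ (by positivity)]
              linarith
        _ = 1 := mul_inv_cancel₀ hp0.ne'
    obtain ⟨g, hg⟩ : ∃ g : (ZMod p)ˣ, g = 1 := ⟨_, rfl⟩
    have h7 : #B ≤ 2 * #(Wset (p := p) (fun _ : Unit => e₀) g 0 V) := by
      refine bad_le (fun _ : Unit => e₀) g 0 V hV Λ ?_ B ?_
      · rw [hΛ]
        push_cast
        apply le_of_eq
        ring
      · intro t ht
        rw [hB, Finset.mem_filter, Finset.mem_filter] at ht
        refine ⟨?_, ht.2⟩
        have h8 : spt t = {()} := by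
          ext i
          rw [spt, Finset.mem_filter, Finset.mem_singleton]
          refine ⟨fun _ => rfl, fun _ => ⟨Finset.mem_univ _, fun h => ht.1.2 ?_⟩⟩
          ext j
          exact h
        rw [h8, Finset.card_singleton]
    have h8 : #(Wset (p := p) (fun _ : Unit => e₀) g 0 V) ≤ 2 * V + 1 := by
      refine le_trans ?_ (card_box p V)
      refine Finset.card_le_card_of_injOn (fun t => t ()) ?_ ?_
      · intro t ht
        rw [Finset.mem_coe, Wset, Finset.mem_filter] at ht
        rw [Finset.mem_coe, box, Finset.mem_filter]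
        refine ⟨Finset.mem_univ _, ?_⟩
        have h9 := ht.2.2 0 (by omega)
        unfold ev at h9
        simpa using h9
      · intro t _ t' _ h
        ext i
        exact h
    have h9 : (#B : ℝ) ≤ 2 * (2 * V + 1) := by
      have : #B ≤ 2 * (2 * V + 1) := h7.trans (Nat.mul_le_mul_left _ h8)
      exact_mod_cast this
    linarith
  have h3 := (abs_le.1 (hm1.trans h2)).2
  have h4 : ∀ A : Finset ℕ, ((Zc (p := p) (ι := Unit) (fun _ => e₀) c s (fun _ => β₀) A).choose 1 : ℝ) =
      if β₀ + c * ∑ a ∈ A, s a * (a : ZMod p) ^ e₀ = 0 then 1 else 0 := by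
    intro A
    rw [Nat.choose_one_right]
    unfold Zc X
    split_ifs with h
    · rw [Finset.filter_true_of_mem (fun _ _ => h)]
      simp
    · rw [Finset.filter_false_of_mem (fun _ _ => h)]
      simp
  have h5 : ∑ A ∈ (Finset.Icc 1 m).powerset,
      (if β₀ + c * ∑ a ∈ A, s a * (a : ZMod p) ^ e₀ = 0 then wt δ m A else 0) =
      ∑ A ∈ (Finset.Icc 1 m).powerset, wt δ m A *
        ((Zc (p := p) (ι := Unit) (fun _ => e₀) c s (fun _ => β₀) A).choose 1 : ℝ) := by
    refine Finset.sum_congr rfl fun A _ => ?_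
    rw [h4]
    split_ifs <;> simp
  rw [h5, le_div_iff₀ hp0]
  rw [pow_one] at h3
  simp only [Fintype.card_unit, Nat.choose_self, Nat.cast_one] at h3
  linarith

omit [DecidableEq ι] in
/-- There are few exponents of small order. -/
theorem few_small {g : (ZMod p)ˣ} (hg : orderOf g = p - 1) (he : Function.Injective e)
    (hep : ∀ i, e i < p - 1) (R : ℕ) :
    #(Finset.univ.filter fun i => ¬ R < orderOf (g ^ e i)) ≤ R ^ 2 := by
  classical
  have h1 : #(Finset.univ.filter fun i => ¬ R < orderOf (g ^ e i)) ≤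
      #((Finset.Icc 1 R).biUnion fun T => (Finset.univ : Finset (ZMod p)ˣ).filter fun u => u ^ T = 1) := by
    refine Finset.card_le_card_of_injOn (fun i => g ^ e i) ?_ ?_
    · intro i hi
      rw [Finset.mem_coe, Finset.mem_filter] at hi
      rw [Finset.mem_coe, Finset.mem_biUnion]
      refine ⟨orderOf (g ^ e i), ?_, ?_⟩
      · rw [Finset.mem_Icc]
        exact ⟨orderOf_pos _, not_lt.1 hi.2⟩
      · rw [Finset.mem_filter]
        exact ⟨Finset.mem_univ _, pow_orderOf_eq_one _⟩
    · intro i _ j _ h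
      apply he
      exact pow_injOn_Iio_orderOf (by rw [hg]; exact hep i) (by rw [hg]; exact hep j) h
  refine h1.trans (Finset.card_biUnion_le.trans ?_)
  calc ∑ T ∈ Finset.Icc 1 R, #((Finset.univ : Finset (ZMod p)ˣ).filter fun u => u ^ T = 1)
      ≤ ∑ T ∈ Finset.Icc 1 R, R := by
        refine Finset.sum_le_sum fun T hT => ?_
        rw [Finset.mem_Icc] at hT
        exact (IsCyclic.card_pow_eq_one_le (by omega)).trans hT.2
    _ = R ^ 2 := by
        rw [Finset.sum_const, Nat.card_Icc, smul_eq_mul]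
        simp [sq]

end Pool.Agent.H555.Sieg
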