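import Mathlib
import Pool.Agent.H555.Sieg.Bound
import Pool.Agent.H555.Sieg.Div

/-! The factorial moments are asymptotically those of a Poisson variable. -/

open Finset Filter

namespace Pool.Agent.H555.Sieg

/-- the algebraic part of the estimates -/
lemma algebra (x w y v : ℝ) (k p : ℕ) (hx : x = p) (hw : w ^ 6 = x) (hw2 : 2 ≤ w)
    (hy : 21 + (k : ℝ) ≤ y) (hyw : 8 * y ≤ w) (l : ℕ) (_hl : l < k)
    (hv : y ^ (4 * l + 8) ≤ w * v)
    (T V K D : ℕ) (hT1 : w ≤ T) (hT2 : T ≤ 2 * w) (hV2 : V ≤ 2 * (w ^ 3 * y))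
    (hK1 : w ^ 2 * y ^ 3 ≤ K) (hK2 : K ≤ 2 * (w ^ 2 * y ^ 3)) (hD : (D : ℝ) ≤ y ^ 2) :
    T ^ 2 < p ∧ T ^ 2 * V ^ 2 * T + 2 * p * V + p * T ≤ p * K * T ∧
    ((T ^ 2 * V + p) ^ 2 : ℝ) ≤ x ^ 3 ∧
    (2 * (2 * V + 1) ^ (2 * l + 1) * ((2 * D * (2 * K + 1) : ℕ) + l) : ℝ) ≤ 2 * (x ^ (l + 1) * v) := by
  have hk0 : (0 : ℝ) ≤ k := Nat.cast_nonneg k
  have hy1 : 1 ≤ y := by linarith
  have hy21 : 21 ≤ y := by linarith
  have hw0 : 0 < w := by linarith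
  have hw1 : 1 ≤ w := by linarith
  have hT0 : (0 : ℝ) < T := by linarith
  have hp : (p : ℝ) = w ^ 6 := by rw [← hx, hw]
  refine ⟨?_, ?_, ?_, ?_⟩
  · have h : ((T ^ 2 : ℕ) : ℝ) < p := by
      push_cast
      rw [hp]
      calc (T : ℝ) ^ 2 ≤ (2 * w) ^ 2 := by gcongr
        _ = 4 * w ^ 2 := by ring
        _ < w ^ 4 * w ^ 2 := by
          have : (4 : ℝ) < w ^ 4 := by
            calc (4 : ℝ) < 2 ^ 4 := by norm_num
              _ ≤ w ^ 4 := by gcongr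
          exact mul_lt_mul_of_pos_right this (by positivity)
        _ = w ^ 6 := by ring
    exact_mod_cast h
  · have h : ((T ^ 2 * V ^ 2 * T + 2 * p * V + p * T : ℕ) : ℝ) ≤ ((p * K * T : ℕ) : ℝ) := by
      push_cast
      rw [hp]
      have e1 : (T : ℝ) ^ 2 * (V : ℝ) ^ 2 * T ≤ 16 * (w ^ 8 * y ^ 2) * T := by
        have : (T : ℝ) ^ 2 * (V : ℝ) ^ 2 ≤ 16 * (w ^ 8 * y ^ 2) := by
          calc (T : ℝ) ^ 2 * (V : ℝ) ^ 2 ≤ (2 * w) ^ 2 * (2 * (w ^ 3 * y)) ^ 2 := by gcongr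
            _ = _ := by ring
        gcongr
      have e2 : 2 * w ^ 6 * (V : ℝ) ≤ 4 * (w ^ 8 * y ^ 2) * T := by
        calc 2 * w ^ 6 * (V : ℝ) ≤ 2 * w ^ 6 * (2 * (w ^ 3 * y)) := by gcongr
          _ = 4 * (w ^ 8 * y) * w := by ring
          _ ≤ 4 * (w ^ 8 * y ^ 2) * T := by
            gcongr
            nlinarith
      have e3 : w ^ 6 * (T : ℝ) ≤ (w ^ 8 * y ^ 2) * T := by
        gcongr
        calc w ^ 6 = w ^ 6 * 1 * 1 := by ring
          _ ≤ w ^ 6 * w ^ 2 * y ^ 2 := by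
            gcongr
            · exact one_le_pow₀ hw1
            · exact one_le_pow₀ hy1
          _ = _ := by ring
      have e4 : 21 * (w ^ 8 * y ^ 2) * T ≤ w ^ 6 * K * T := by
        have : 21 * (w ^ 8 * y ^ 2) ≤ w ^ 6 * K := by
          calc 21 * (w ^ 8 * y ^ 2) ≤ y * (w ^ 8 * y ^ 2) := by gcongr
            _ = w ^ 6 * (w ^ 2 * y ^ 3) := by ring
            _ ≤ w ^ 6 * K := by gcongr
        gcongr
      linarith
    exact_mod_cast h
  · have h1 : (T : ℝ) ^ 2 * V + p ≤ 2 * w ^ 6 := by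
      have : (T : ℝ) ^ 2 * V ≤ w ^ 6 := by
        calc (T : ℝ) ^ 2 * V ≤ (2 * w) ^ 2 * (2 * (w ^ 3 * y)) := by gcongr
          _ = w ^ 5 * (8 * y) := by ring
          _ ≤ w ^ 5 * w := by gcongr
          _ = w ^ 6 := by ring
      rw [hp]
      linarith
    calc ((T : ℝ) ^ 2 * V + p) ^ 2 ≤ (2 * w ^ 6) ^ 2 := by gcongr
      _ = 4 * w ^ 12 := by ring
      _ ≤ w ^ 6 * w ^ 12 := by
        have : (4 : ℝ) ≤ w ^ 6 := by
          calc (4 : ℝ) ≤ 2 ^ 6 := by norm_num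
            _ ≤ w ^ 6 := by gcongr
        gcongr
      _ = (w ^ 6) ^ 3 := by ring
      _ = x ^ 3 := by rw [hw]
  · have h1 : ((2 * D * (2 * K + 1) : ℕ) : ℝ) + l ≤ w ^ 2 * y ^ 6 := by
      push_cast
      have hl' : (l : ℝ) ≤ k := by exact_mod_cast (by omega : l ≤ k)
      have a1 : (1 : ℝ) ≤ w ^ 2 * y ^ 3 := by
        calc (1 : ℝ) = 1 * 1 := by ring
          _ ≤ w ^ 2 * y ^ 3 := by
            gcongr
            · exact one_le_pow₀ hw1
            · exact one_le_pow₀ hy1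
      have a2 : (2 * (D : ℝ) * (2 * K + 1)) ≤ 10 * (w ^ 2 * y ^ 5) := by
        calc (2 * (D : ℝ) * (2 * K + 1)) ≤ 2 * y ^ 2 * (2 * (2 * (w ^ 2 * y ^ 3)) + w ^ 2 * y ^ 3) := by
              gcongr
          _ = _ := by ring
      have a3 : (k : ℝ) ≤ k * (w ^ 2 * y ^ 5) := by
        have : (1 : ℝ) ≤ w ^ 2 * y ^ 5 := by
          calc (1 : ℝ) = 1 * 1 := by ring
            _ ≤ w ^ 2 * y ^ 5 := by
              gcongr
              · exact one_le_pow₀ hw1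
              · exact one_le_pow₀ hy1
        nlinarith
      calc (2 * (D : ℝ) * (2 * K + 1)) + l ≤ 10 * (w ^ 2 * y ^ 5) + k * (w ^ 2 * y ^ 5) := by linarith
        _ = (10 + k) * (w ^ 2 * y ^ 5) := by ring
        _ ≤ y * (w ^ 2 * y ^ 5) := by
          gcongr
          linarith
        _ = _ := by ring
    have h2 : (2 * (V : ℝ) + 1) ≤ w ^ 3 * y ^ 2 := by
      have a1 : (1 : ℝ) ≤ w ^ 3 * y := by
        calc (1 : ℝ) = 1 * 1 := by ring
          _ ≤ w ^ 3 * y := by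
            gcongr
            exact one_le_pow₀ hw1
      calc (2 * (V : ℝ) + 1) ≤ 2 * (2 * (w ^ 3 * y)) + w ^ 3 * y := by gcongr
        _ = 5 * (w ^ 3 * y) := by ring
        _ ≤ y * (w ^ 3 * y) := by
          gcongr
          linarith
        _ = _ := by ring
    calc (2 * (2 * (V : ℝ) + 1) ^ (2 * l + 1) * (((2 * D * (2 * K + 1) : ℕ) : ℝ) + l))
        ≤ 2 * (w ^ 3 * y ^ 2) ^ (2 * l + 1) * (w ^ 2 * y ^ 6) := by gcongr
      _ = 2 * (w ^ (6 * l + 5) * y ^ (4 * l + 8)) := by ring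
      _ ≤ 2 * (w ^ (6 * l + 5) * (w * v)) := by gcongr
      _ = 2 * ((w ^ 6) ^ (l + 1) * v) := by ring
      _ = _ := by rw [hw]

theorem moment_asym (k : ℕ) (η : ℝ) (hη : 0 < η) (hη1 : η ≤ 1 / (48 * (k + 1))) :
    ∃ P : ℕ, ∀ p : ℕ, P ≤ p → ∀ _hp : Fact p.Prime, ∀ δ : ℝ, (p : ℝ) ^ (-η) ≤ δ → δ ≤ 1 / 2 →
      ∀ (ι : Type) [Fintype ι] [DecidableEq ι] (e : ι → ℕ), (∀ i, Odd (e i)) →
      Function.Injective e → (∀ i, e i < p - 1) → Fintype.card ι ≤ p →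
      ∀ c : ZMod p, c ≠ 0 → ∀ s : ℕ → ZMod p, (∀ a, s a = 1 ∨ s a = -1) → ∀ β : ι → ZMod p,
      |∑ A ∈ (Finset.Icc 1 ((p - 1) / 2)).powerset,
          wt δ ((p - 1) / 2) A * ((Zc e c s β A).choose k : ℝ) -
        ((Fintype.card ι).choose k : ℝ) / (p : ℝ) ^ k| ≤ 3 * k * (p : ℝ) ^ (-(1 / 12) : ℝ) := by
  obtain ⟨C, hC0, hC⟩ := divisor_bound (η / 3) (by positivity)
  have hη48 : η ≤ 1 / 48 := by
    refine hη1.trans ?_
    have : (0 : ℝ) ≤ k := Nat.cast_nonneg k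
    apply one_div_le_one_div_of_le (by norm_num)
    linarith
  have ev1 : ∀ᶠ x : ℝ in atTop, 21 + (k : ℝ) + C ≤ x ^ η :=
    (tendsto_rpow_atTop hη).eventually_ge_atTop _
  have ev2 : ∀ᶠ x : ℝ in atTop, (8 : ℝ) ≤ x ^ (1 / 6 - η) :=
    (tendsto_rpow_atTop (by linarith)).eventually_ge_atTop _
  have ev3 : ∀ᶠ x : ℝ in atTop, 2 * (2 * k + 1) * (k + 1) * Real.log x ≤ x ^ η := by
    have h := (isLittleO_log_rpow_atTop hη).bound
      (show (0 : ℝ) < 1 / (2 * (2 * k + 1) * (k + 1)) by positivity)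
    filter_upwards [h, eventually_ge_atTop (1 : ℝ)] with x hx hx1
    rw [Real.norm_of_nonneg (Real.log_nonneg hx1), Real.norm_of_nonneg (by positivity)] at hx
    have hpos : (0 : ℝ) < 2 * (2 * k + 1) * (k + 1) := by positivity
    rw [one_div, ← div_eq_inv_mul, le_div_iff₀ hpos] at hx
    linarith
  have ev4 : ∀ᶠ x : ℝ in atTop, (2 : ℝ) ≤ x ^ (1 / 6 : ℝ) :=
    (tendsto_rpow_atTop (by norm_num)).eventually_ge_atTop _
  obtain ⟨P, hP⟩ := eventually_atTop.1 ((ev1.and ev2).and ((ev3.and ev4).and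
    (eventually_ge_atTop (3 : ℝ))))
  refine ⟨⌈P⌉₊, fun p hp hpp δ hδ0 hδ1 ι _ _ e he hinj hep hM c hc s hs β => ?_⟩
  obtain ⟨⟨h1, h2⟩, ⟨h3, h4⟩, h5⟩ := hP (p : ℝ) (Nat.ceil_le.1 hp)
  obtain ⟨x, hx⟩ : ∃ x : ℝ, x = p := ⟨_, rfl⟩
  rw [← hx] at h1 h2 h3 h4 h5 hδ0
  have hx0 : 0 < x := by linarith
  have hp3 : 3 ≤ p := by rw [hx] at h5; exact_mod_cast h5
  obtain ⟨w, hw⟩ : ∃ w : ℝ, w = x ^ (1 / 6 : ℝ) := ⟨_, rfl⟩
  obtain ⟨y, hy⟩ : ∃ y : ℝ, y = x ^ η := ⟨_, rfl⟩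
  obtain ⟨v, hv⟩ : ∃ v : ℝ, v = x ^ (-(1 / 12) : ℝ) := ⟨_, rfl⟩
  have hw6 : w ^ 6 = x := by
    rw [hw, ← Real.rpow_natCast, ← Real.rpow_mul hx0.le]
    norm_num
  have hwy : 8 * y ≤ w := by
    have : x ^ (1 / 6 - η) * y = w := by
      rw [hy, hw, ← Real.rpow_add hx0]
      congr 1
      ring
    rw [← this]
    have hy0 : 0 ≤ y := by rw [hy]; positivity
    exact mul_le_mul_of_nonneg_right h2 hy0
  have hvw : ∀ l, l < k → y ^ (4 * l + 8) ≤ w * v := by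
    intro l hl
    rw [hy, hw, hv, ← Real.rpow_add hx0, ← Real.rpow_natCast, ← Real.rpow_mul hx0.le]
    apply Real.rpow_le_rpow_of_exponent_le (by linarith)
    push_cast
    have hl' : (l : ℝ) + 1 ≤ k := by exact_mod_cast hl
    have h6 : η * (4 * l + 8) ≤ η * (4 * (k + 1)) := by
      apply mul_le_mul_of_nonneg_left _ hη.le
      linarith
    have h7 : η * (48 * (k + 1)) ≤ 1 := by
      rw [le_div_iff₀ (by positivity)] at hη1
      exact hη1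
    linarith
  rw [← hy] at h1 h3
  rw [← hw] at h4
  have hk0 : (0 : ℝ) ≤ k := Nat.cast_nonneg k
  have hy1 : 1 ≤ y := by linarith
  have hw0 : 0 < w := by linarith
  obtain ⟨m, hm⟩ : ∃ m, m = (p - 1) / 2 := ⟨_, rfl⟩
  have hpm : p = 2 * m + 1 := by
    have := (Fact.out : p.Prime).eq_two_or_odd
    omega
  rw [← hm]
  have hδpos : 0 < δ := lt_of_lt_of_le (by positivity) hδ0
  -- the parameters
  have ceil_le : ∀ z : ℝ, 1 ≤ z → (⌈z⌉₊ : ℝ) ≤ 2 * z := by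
    intro z hz
    have := Nat.ceil_lt_add_one (by linarith : 0 ≤ z)
    linarith
  set T := ⌈w⌉₊ with hT
  set V := ⌈w ^ 3 * y⌉₊ with hV
  set K := ⌈w ^ 2 * y ^ 3⌉₊ with hK
  set D := ⌊y ^ 2⌋₊ with hD
  have hT1 : w ≤ T := Nat.le_ceil _
  have hT2 : T ≤ 2 * w := ceil_le _ (by linarith)
  have hV1 : w ^ 3 * y ≤ V := Nat.le_ceil _
  have hw31 : 1 ≤ w ^ 3 * y := one_le_mul_of_one_le_of_one_le (one_le_pow₀ (by linarith)) hy1
  have hV2 : V ≤ 2 * (w ^ 3 * y) := ceil_le _ hw31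
  have hK1 : w ^ 2 * y ^ 3 ≤ K := Nat.le_ceil _
  have hK2 : K ≤ 2 * (w ^ 2 * y ^ 3) := ceil_le _
    (one_le_mul_of_one_le_of_one_le (one_le_pow₀ (by linarith)) (one_le_pow₀ hy1))
  have hD2 : (D : ℝ) ≤ y ^ 2 := Nat.floor_le (by positivity)
  have halg := fun l hl => algebra x w y v k p hx hw6 h4 (by linarith) hwy l hl
    (hvw l hl) T V K D hT1 hT2 hV2 hK1 hK2 hD2
  rcases Nat.eq_zero_or_pos k with hk | hk
  · subst hk
    simp only [Nat.choose_zero_right, Nat.cast_one, mul_one, wt_sum, pow_zero, div_one, sub_self,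
      abs_zero, CharP.cast_eq_zero, mul_zero, zero_mul, le_refl]
  obtain ⟨g1, g2, g3, _⟩ := halg 0 hk
  -- the hyperbola lemma
  have hH : ∀ α β γ : ZMod p, γ ≠ 0 →
      #((box p V ×ˢ box p V).filter fun q : ZMod p × ZMod p => (q.1 + α) * (q.2 + β) = γ) ≤
        2 * D * (2 * K + 1) := by
    intro α β γ hγ
    refine hyper p V T D K ?_ g1 g2 ?_ α β γ hγ
    · have : (0 : ℝ) < T := by linarith
      exact_mod_cast this
    · intro N hN0 hN
      have h6 : (N : ℝ) ≤ x ^ 3 := by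
        refine le_trans ?_ g3
        exact_mod_cast hN
      have h7 := hC N hN0
      have h8 : (N : ℝ) ^ (η / 3) ≤ y := by
        calc (N : ℝ) ^ (η / 3) ≤ (x ^ 3) ^ (η / 3) := by gcongr
          _ = y := by
            rw [hy, ← Real.rpow_natCast, ← Real.rpow_mul hx0.le]
            congr 1
            push_cast
            ring
      rw [hD]
      apply Nat.le_floor
      calc (#N.divisors : ℝ) ≤ C * (N : ℝ) ^ (η / 3) := h7
        _ ≤ y * y := by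
          gcongr
          linarith
        _ = y ^ 2 := by ring
  -- the threshold
  obtain ⟨Λ, hΛ⟩ : ∃ Λ : ℝ, Λ = (k + 1) * x ^ 2 * Real.log x / (2 * δ) := ⟨_, rfl⟩
  have hlog : 0 ≤ Real.log x := Real.log_nonneg (by linarith)
  have hΛ0 : 0 ≤ Λ := by rw [hΛ]; positivity
  have hexp : Real.exp (-(2 * δ / (p : ℝ) ^ 2 * Λ)) = (x ^ (k + 1))⁻¹ := by
    rw [Real.exp_neg]
    congr 1
    rw [hΛ, ← hx]
    have : 2 * δ / x ^ 2 * ((k + 1) * x ^ 2 * Real.log x / (2 * δ)) = ((k + 1 : ℕ) : ℝ) * Real.log x := by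
      push_cast
      field_simp
    rw [this, Real.exp_nat_mul, Real.exp_log hx0]
  have hδinv : 1 / δ ≤ y := by
    rw [div_le_iff₀ hδpos]
    calc (1 : ℝ) = y * x ^ (-η) := by
          rw [hy, ← Real.rpow_add hx0, add_neg_cancel, Real.rpow_zero]
      _ ≤ y * δ := by gcongr
  have hΛ2 : 2 * (2 * k + 1) * Λ ≤ (p - 1) * (V : ℝ) ^ 2 := by
    rw [← hx]
    have e1 : 2 * (2 * k + 1) * Λ = ((2 * k + 1) * (k + 1) * Real.log x) * x ^ 2 * (1 / δ) := by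
      rw [hΛ]
      field_simp
    have e2 : x * y ^ 2 ≤ (V : ℝ) ^ 2 := by
      calc x * y ^ 2 = (w ^ 3 * y) ^ 2 := by rw [← hw6]; ring
        _ ≤ (V : ℝ) ^ 2 := by gcongr
    have e3 : x / 2 ≤ x - 1 := by linarith
    calc 2 * (2 * k + 1) * Λ = ((2 * k + 1) * (k + 1) * Real.log x) * x ^ 2 * (1 / δ) := e1
      _ ≤ (y / 2) * x ^ 2 * y := by
        gcongr
        linarith
      _ = (x / 2) * (x * y ^ 2) := by ring
      _ ≤ (x - 1) * (V : ℝ) ^ 2 := mul_le_mul e3 e2 (by positivity) (by linarith)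
  have hVpos : 0 < V := by
    have : (0 : ℝ) < V := by linarith
    exact_mod_cast this
  have hmain := main_bound e δ hδpos.le hδ1 m hpm he hinj hep hM c hc s hs β k V (2 * D * (2 * K + 1))
    hVpos Λ hΛ0 hΛ2 hH
  have hxk : (0 : ℝ) < (p : ℝ) ^ k := by rw [← hx]; positivity
  have hv0 : 0 < v := by rw [hv]; positivity
  have hv1 : x⁻¹ ≤ v := by
    rw [hv, ← Real.rpow_neg_one]
    apply Real.rpow_le_rpow_of_exponent_le (by linarith)
    norm_num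
  have hsum : ∑ l ∈ Finset.range k, (p : ℝ) ^ (k - (l + 1)) *
        (2 * (2 * V + 1) ^ (2 * l + 1) * ((2 * D * (2 * K + 1) : ℕ) + l) +
          (p : ℝ) ^ (2 * (l + 1)) * Real.exp (-(2 * δ / p ^ 2 * Λ))) ≤ 3 * k * v * x ^ k := by
    have hterm : ∀ l ∈ Finset.range k, (p : ℝ) ^ (k - (l + 1)) *
        (2 * (2 * V + 1) ^ (2 * l + 1) * ((2 * D * (2 * K + 1) : ℕ) + l) +
          (p : ℝ) ^ (2 * (l + 1)) * Real.exp (-(2 * δ / p ^ 2 * Λ))) ≤ 3 * v * x ^ k := by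
      intro l hl
      rw [Finset.mem_range] at hl
      obtain ⟨_, _, _, g4⟩ := halg l hl
      rw [hexp, ← hx]
      have e1 : x ^ (2 * (l + 1)) * (x ^ (k + 1))⁻¹ ≤ x ^ (l + 1) * v := by
        have e2 : x ^ (2 * (l + 1)) * (x ^ (k + 1))⁻¹ ≤ x ^ (l + 1) * x⁻¹ := by
          rw [← div_eq_mul_inv, div_le_iff₀ (by positivity)]
          have e3 : x ^ (l + 1) * x⁻¹ * x ^ (k + 1) = x ^ (l + 1) * x ^ k := by
            rw [pow_succ x k]
            field_simp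
          rw [e3, two_mul, pow_add]
          gcongr
          · linarith
          · omega
        exact e2.trans (by gcongr)
      calc x ^ (k - (l + 1)) * (2 * (2 * V + 1) ^ (2 * l + 1) * ((2 * D * (2 * K + 1) : ℕ) + l) +
          x ^ (2 * (l + 1)) * (x ^ (k + 1))⁻¹)
          ≤ x ^ (k - (l + 1)) * (2 * (x ^ (l + 1) * v) + x ^ (l + 1) * v) := by gcongr
        _ = 3 * v * (x ^ (k - (l + 1)) * x ^ (l + 1)) := by ring
        _ = 3 * v * x ^ k := by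
          rw [← pow_add]
          congr 2
          omega
    calc _ ≤ ∑ l ∈ Finset.range k, 3 * v * x ^ k := Finset.sum_le_sum hterm
      _ = _ := by
        rw [Finset.sum_const, Finset.card_range, nsmul_eq_mul]
        ring
  have hfin := hmain.trans hsum
  have e1 : ∑ A ∈ (Finset.Icc 1 m).powerset, wt δ m A * ((Zc e c s β A).choose k : ℝ) -
        ((Fintype.card ι).choose k : ℝ) / (p : ℝ) ^ k =
      ((p : ℝ) ^ k * ∑ A ∈ (Finset.Icc 1 m).powerset, wt δ m A * ((Zc e c s β A).choose k : ℝ) -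
        ((Fintype.card ι).choose k : ℝ)) / (p : ℝ) ^ k := by
    field_simp
  rw [e1, abs_div, abs_of_pos hxk, div_le_iff₀ hxk]
  refine hfin.trans (le_of_eq ?_)
  rw [hv, hx]

end Pool.Agent.H555.Sieg
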