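import Mathlib

/-! The Bernoulli numbers `B_n`, `n ≤ p - 2`, are `p`-integral. -/

open Finset

namespace Pool.Agent.H555.Sieg

lemma den_sum {p : ℕ} (hp : p.Prime) {α : Type*} (s : Finset α) (f : α → ℚ)
    (h : ∀ a ∈ s, ¬ p ∣ (f a).den) : ¬ p ∣ (∑ a ∈ s, f a).den := by
  classical
  induction s using Finset.induction_on with
  | empty => simpa using hp.one_lt.ne'
  | insert a s ha ih =>
    rw [Finset.sum_insert ha]
    intro hd
    have h1 := hd.trans (Rat.add_den_dvd (f a) (∑ a ∈ s, f a))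
    rcases hp.dvd_mul.1 h1 with h2 | h2
    · exact h a (Finset.mem_insert_self _ _) h2
    · exact ih (fun b hb => h b (Finset.mem_insert_of_mem hb)) h2

lemma den_mul {p : ℕ} (hp : p.Prime) {x y : ℚ} (hx : ¬ p ∣ x.den) (hy : ¬ p ∣ y.den) :
    ¬ p ∣ (x * y).den := by
  intro h
  rcases hp.dvd_mul.1 (h.trans (Rat.mul_den_dvd x y)) with h2 | h2
  · exact hx h2
  · exact hy h2

lemma den_bernoulli' {p : ℕ} (hp : p.Prime) (n : ℕ) (hn : n + 1 < p) :
    ¬ p ∣ (bernoulli' n).den := by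
  induction n using Nat.strong_induction_on with
  | _ n ih =>
    rw [bernoulli'_def]
    intro h
    have h1 := h.trans (Rat.sub_den_dvd 1 _)
    rw [Rat.den_one, one_mul] at h1
    refine den_sum hp _ _ ?_ h1
    intro k hk
    rw [Finset.mem_range] at hk
    refine den_mul hp ?_ (ih k hk (by omega))
    have h2 : ((n : ℚ) - k + 1) = ((n - k + 1 : ℕ) : ℚ) := by
      push_cast [Nat.cast_sub hk.le]
      ring
    rw [h2]
    intro h3
    have h4 : (((n.choose k : ℕ) : ℚ) / ((n - k + 1 : ℕ) : ℚ)).den ∣ (n - k + 1) := by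
      have h5 := Rat.den_dvd ((n.choose k : ℕ) : ℤ) ((n - k + 1 : ℕ) : ℤ)
      rw [Rat.divInt_eq_div, Int.cast_natCast, Int.cast_natCast] at h5
      exact_mod_cast h5
    have := Nat.le_of_dvd (by omega) (h3.trans h4)
    omega

lemma den_bernoulli {p : ℕ} (hp : p.Prime) (n : ℕ) (hn : n + 1 < p) :
    ¬ p ∣ (bernoulli n).den := by
  rw [bernoulli]
  refine den_mul hp ?_ (den_bernoulli' hp n hn)
  rcases Nat.even_or_odd n with h | h
  · rw [h.neg_one_pow]
    simpa using hp.one_lt.ne'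
  · rw [h.neg_one_pow]
    simpa using hp.one_lt.ne'

/-- the numerator of `B_{2i} + ∑ a ^ (2i - 1)` and the residue class -/
lemma num_iff {p : ℕ} [Fact p.Prime] (A : Finset ℕ) (i : ℕ) (hi : 2 * i + 1 < p) :
    (p : ℤ) ∣ (bernoulli (2 * i) + ∑ a ∈ A, (a : ℚ) ^ (2 * i - 1)).num ↔
      ((bernoulli (2 * i) : ℚ) : ZMod p) + ∑ a ∈ A, (a : ZMod p) ^ (2 * i - 1) = 0 := by
  have hp := (Fact.out : p.Prime)
  have hd := den_bernoulli hp (2 * i) hi
  have e1 : ∑ a ∈ A, (a : ℚ) ^ (2 * i - 1) = ((∑ a ∈ A, a ^ (2 * i - 1) : ℕ) : ℚ) := by push_cast; rfl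
  have e2 : ((∑ a ∈ A, a ^ (2 * i - 1) : ℕ) : ZMod p) = ∑ a ∈ A, (a : ZMod p) ^ (2 * i - 1) := by
    push_cast; rfl
  rw [e1, ← e2]
  set N := ∑ a ∈ A, a ^ (2 * i - 1)
  set x := bernoulli (2 * i) with hx
  have hden : (x.den : ZMod p) ≠ 0 := by
    rw [Ne, ZMod.natCast_eq_zero_iff]; exact hd
  have hsum : (((x + (N : ℚ)) : ℚ) : ZMod p) = (x : ZMod p) + (N : ZMod p) := by
    rw [Rat.cast_add_of_ne_zero hden (by simp), Rat.cast_natCast]
  rw [← hsum, Rat.cast_def]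
  have hden2 : ((x + (N : ℚ)).den : ZMod p) ≠ 0 := by
    rw [Ne, ZMod.natCast_eq_zero_iff]
    intro h
    rcases hp.dvd_mul.1 (h.trans (Rat.add_den_dvd _ _)) with h2 | h2
    · exact hd h2
    · simp only [Rat.den_natCast, Nat.dvd_one] at h2
      exact hp.one_lt.ne' h2
  rw [div_eq_zero_iff, or_iff_left hden2, ZMod.intCast_zmod_eq_zero_iff_dvd]

end Pool.Agent.H555.Sieg
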