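import Mathlib
import Pool.Agent.H555.Sieg.Asym

/-! From factorial moments to the Poisson law. -/

open Finset Filter

namespace Pool.Agent.H555.Sieg

lemma bonf (r J Z : ℕ) :
    |(if Z = r then (1 : ℝ) else 0) - ∑ j ∈ Finset.range (J + 1),
      (-1) ^ j * ((r + j).choose r : ℝ) * (Z.choose (r + j) : ℝ)| ≤
      ((r + (J + 1)).choose r : ℝ) * (Z.choose (r + (J + 1)) : ℝ) := by
  have key : ∀ j, ((r + j).choose r : ℝ) * (Z.choose (r + j) : ℝ) =
      (Z.choose r : ℝ) * ((Z - r).choose j : ℝ) := by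
    intro j
    have := Nat.choose_mul (n := Z) (k := r + j) (s := r) (by omega)
    rw [Nat.add_sub_cancel_left] at this
    rw [mul_comm]
    exact_mod_cast this
  have h1 : ∑ j ∈ Finset.range (J + 1),
      (-1 : ℝ) ^ j * ((r + j).choose r : ℝ) * (Z.choose (r + j) : ℝ) =
      (Z.choose r : ℝ) * ∑ j ∈ Finset.range (J + 1), (-1) ^ j * ((Z - r).choose j : ℝ) := by
    rw [Finset.mul_sum]
    refine Finset.sum_congr rfl fun j _ => ?_
    rw [mul_assoc, key]
    ring
  rw [h1, key]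
  rcases lt_trichotomy Z r with h | h | h
  · rw [Nat.choose_eq_zero_of_lt h, if_neg (by omega)]
    simp
  · subst h
    rw [if_pos rfl, Nat.choose_self, Nat.sub_self]
    have : ∑ j ∈ Finset.range (J + 1), (-1 : ℝ) ^ j * ((0 : ℕ).choose j : ℝ) = 1 := by
      rw [Finset.sum_range_succ']
      simp
    rw [this]
    simp
  · obtain ⟨n, hn⟩ : ∃ n, Z - r = n + 1 := ⟨Z - r - 1, by omega⟩
    rw [if_neg (by omega), hn]
    have h2 : ∑ j ∈ Finset.range (J + 1), (-1 : ℝ) ^ j * ((n + 1).choose j : ℝ) =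
        (-1) ^ J * (n.choose J : ℝ) := by
      have := Int.alternating_sum_range_choose_eq_choose (n := n) (m := J)
      exact_mod_cast this
    rw [h2, zero_sub, abs_neg, abs_mul, abs_mul, abs_pow, abs_neg, abs_one, one_pow, one_mul,
      Nat.abs_cast, Nat.abs_cast]
    gcongr
    rw [Nat.choose_succ_succ]
    omega

theorem poisson_of_moments {Ω : Type*} (S : Finset Ω) (w : Ω → ℝ) (hw : ∀ ω ∈ S, 0 ≤ w ω)
    (Z : Ω → ℕ) (r J : ℕ) (lam κ : ℝ) (hl0 : 0 ≤ lam) (hl1 : lam ≤ 1)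
    (hm : ∀ k ≤ r + (J + 1), |∑ ω ∈ S, w ω * ((Z ω).choose k : ℝ) - lam ^ k / k.factorial| ≤ κ) :
    |∑ ω ∈ S, (if Z ω = r then w ω else 0) - Real.exp (-lam) * lam ^ r / r.factorial| ≤
      3 / (J + 1).factorial + (J + 2) * 2 ^ (r + (J + 1)) * κ := by
  have hκ : 0 ≤ κ := (abs_nonneg _).trans (hm 0 (by omega))
  obtain ⟨s, hs⟩ : ∃ s : ℕ → ℝ, s = fun k => ∑ ω ∈ S, w ω * ((Z ω).choose k : ℝ) := ⟨_, rfl⟩
  have hm' : ∀ k ≤ r + (J + 1), |s k - lam ^ k / k.factorial| ≤ κ := fun k hk => by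
    rw [hs]; exact hm k hk
  have hr1 : (1 : ℝ) ≤ r.factorial := by exact_mod_cast Nat.factorial_pos r
  have hJ1 : (1 : ℝ) ≤ (J + 1).factorial := by exact_mod_cast Nat.factorial_pos _
  -- step 1
  have a1 : |∑ ω ∈ S, (if Z ω = r then w ω else 0) - ∑ j ∈ Finset.range (J + 1),
      (-1) ^ j * ((r + j).choose r : ℝ) * s (r + j)| ≤
      ((r + (J + 1)).choose r : ℝ) * s (r + (J + 1)) := by
    have e1 : ∑ j ∈ Finset.range (J + 1), (-1 : ℝ) ^ j * ((r + j).choose r : ℝ) * s (r + j) =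
        ∑ ω ∈ S, w ω * ∑ j ∈ Finset.range (J + 1),
          (-1) ^ j * ((r + j).choose r : ℝ) * ((Z ω).choose (r + j) : ℝ) := by
      rw [hs]
      simp only [Finset.mul_sum]
      rw [Finset.sum_comm]
      refine Finset.sum_congr rfl fun ω _ => Finset.sum_congr rfl fun j _ => ?_
      ring
    have e2 : ∑ ω ∈ S, (if Z ω = r then w ω else 0) =
        ∑ ω ∈ S, w ω * (if Z ω = r then (1 : ℝ) else 0) := by
      refine Finset.sum_congr rfl fun ω _ => ?_
      split_ifs <;> simp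
    rw [e1, e2, ← Finset.sum_sub_distrib]
    refine (Finset.abs_sum_le_sum_abs _ _).trans ?_
    rw [hs]
    simp only
    rw [Finset.mul_sum]
    refine Finset.sum_le_sum fun ω hω => ?_
    rw [← mul_sub, abs_mul, abs_of_nonneg (hw ω hω)]
    calc w ω * _ ≤ w ω * (((r + (J + 1)).choose r : ℝ) * ((Z ω).choose (r + (J + 1)) : ℝ)) :=
          mul_le_mul_of_nonneg_left (bonf r J (Z ω)) (hw ω hω)
      _ = _ := by ring
  -- step 2: the main term
  have fac : ∀ j, ((r + j).choose r : ℝ) / (r + j).factorial = 1 / (r.factorial * j.factorial) := by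
    intro j
    have := Nat.add_choose_mul_factorial_mul_factorial r j
    rw [← Nat.choose_symm_add] at this
    have h2 : ((r + j).choose r : ℝ) * r.factorial * j.factorial = (r + j).factorial := by
      exact_mod_cast this
    have h3 : ((r + j).factorial : ℝ) ≠ 0 := by exact_mod_cast Nat.factorial_ne_zero _
    have h4 : (r.factorial : ℝ) ≠ 0 := by exact_mod_cast Nat.factorial_ne_zero _
    have h5 : (j.factorial : ℝ) ≠ 0 := by exact_mod_cast Nat.factorial_ne_zero _
    field_simp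
    linarith
  have hch : ∀ j ≤ J + 1, ((r + j).choose r : ℝ) ≤ 2 ^ (r + (J + 1)) := by
    intro j hj
    calc ((r + j).choose r : ℝ) ≤ ((2 ^ (r + j) : ℕ) : ℝ) := by
          exact_mod_cast Nat.choose_le_two_pow _ _
      _ = 2 ^ (r + j) := by push_cast; rfl
      _ ≤ _ := by
        apply pow_le_pow_right₀ (by norm_num)
        omega
  have a2 : |∑ j ∈ Finset.range (J + 1), (-1) ^ j * ((r + j).choose r : ℝ) * s (r + j) -
      lam ^ r / r.factorial * ∑ j ∈ Finset.range (J + 1), (-lam) ^ j / j.factorial| ≤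
      (J + 1) * 2 ^ (r + (J + 1)) * κ := by
    have e1 : lam ^ r / r.factorial * ∑ j ∈ Finset.range (J + 1), (-lam) ^ j / j.factorial =
        ∑ j ∈ Finset.range (J + 1), (-1) ^ j * ((r + j).choose r : ℝ) *
          (lam ^ (r + j) / (r + j).factorial) := by
      rw [Finset.mul_sum]
      refine Finset.sum_congr rfl fun j _ => ?_
      have := fac j
      calc lam ^ r / r.factorial * ((-lam) ^ j / j.factorial) =
          (-1) ^ j * lam ^ (r + j) * (1 / (r.factorial * j.factorial)) := by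
            rw [neg_pow, pow_add]
            field_simp
        _ = _ := by
            rw [← this]
            ring
    rw [e1, ← Finset.sum_sub_distrib]
    refine (Finset.abs_sum_le_sum_abs _ _).trans ?_
    calc _ ≤ ∑ j ∈ Finset.range (J + 1), 2 ^ (r + (J + 1)) * κ := by
          refine Finset.sum_le_sum fun j hj => ?_
          rw [Finset.mem_range] at hj
          rw [← mul_sub, abs_mul, abs_mul, abs_pow, abs_neg, abs_one, one_pow, one_mul, Nat.abs_cast]
          exact mul_le_mul (hch j (by omega)) (hm' _ (by omega)) (abs_nonneg _) (by positivity)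
      _ = _ := by
          rw [Finset.sum_const, Finset.card_range, nsmul_eq_mul]
          push_cast
          ring
  have a3 : |lam ^ r / r.factorial * ∑ j ∈ Finset.range (J + 1), (-lam) ^ j / j.factorial -
      Real.exp (-lam) * lam ^ r / r.factorial| ≤ 2 / (J + 1).factorial := by
    have h1 := Real.exp_bound (x := -lam) (by rw [abs_neg, abs_of_nonneg hl0]; exact hl1)
      (n := J + 1) (by omega)
    have e1 : lam ^ r / r.factorial * ∑ j ∈ Finset.range (J + 1), (-lam) ^ j / j.factorial -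
      Real.exp (-lam) * lam ^ r / r.factorial = lam ^ r / r.factorial *
        -(Real.exp (-lam) - ∑ j ∈ Finset.range (J + 1), (-lam) ^ j / j.factorial) := by ring
    rw [e1, abs_mul, abs_neg]
    have h2 : |lam ^ r / (r.factorial : ℝ)| ≤ 1 := by
      rw [abs_of_nonneg (by positivity), div_le_one (by positivity)]
      exact (pow_le_one₀ hl0 hl1).trans hr1
    have h3 : |-lam| ^ (J + 1) * (((J + 1).succ : ℝ) / ((J + 1).factorial * ((J + 1 : ℕ) : ℝ))) ≤
        2 / (J + 1).factorial := by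
      rw [abs_neg, abs_of_nonneg hl0]
      calc lam ^ (J + 1) * (((J + 1).succ : ℝ) / ((J + 1).factorial * ((J + 1 : ℕ) : ℝ)))
          ≤ 1 * (((J + 1).succ : ℝ) / ((J + 1).factorial * ((J + 1 : ℕ) : ℝ))) := by
            gcongr
            exact pow_le_one₀ hl0 hl1
        _ ≤ 2 / (J + 1).factorial := by
            rw [one_mul, div_le_div_iff₀ (by positivity) (by positivity)]
            push_cast
            have : (0 : ℝ) ≤ J := Nat.cast_nonneg J
            nlinarith
    calc |lam ^ r / (r.factorial : ℝ)| * _ ≤ 1 * (2 / (J + 1).factorial) :=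
          mul_le_mul h2 (h1.trans h3) (abs_nonneg _) (by norm_num)
      _ = _ := one_mul _
  have a4 : ((r + (J + 1)).choose r : ℝ) * s (r + (J + 1)) ≤
      1 / (J + 1).factorial + 2 ^ (r + (J + 1)) * κ := by
    have h1 := (abs_le.1 (hm' (r + (J + 1)) le_rfl)).2
    have h2 : s (r + (J + 1)) ≤ lam ^ (r + (J + 1)) / (r + (J + 1)).factorial + κ := by linarith
    calc ((r + (J + 1)).choose r : ℝ) * s (r + (J + 1))
        ≤ ((r + (J + 1)).choose r : ℝ) * (lam ^ (r + (J + 1)) / (r + (J + 1)).factorial + κ) := by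
          gcongr
      _ = lam ^ (r + (J + 1)) * (((r + (J + 1)).choose r : ℝ) / (r + (J + 1)).factorial) +
          ((r + (J + 1)).choose r : ℝ) * κ := by ring
      _ ≤ 1 * (1 / (J + 1).factorial) + 2 ^ (r + (J + 1)) * κ := by
          rw [fac]
          gcongr
          · exact pow_le_one₀ hl0 hl1
          · have : (0 : ℝ) < (J + 1).factorial := by positivity
            nlinarith
          · exact hch _ le_rfl
      _ = _ := by ring
  have tri : ∀ a b c d : ℝ, |a - d| ≤ |a - b| + |b - c| + |c - d| := by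
    intro a b c d
    have := abs_sub_le a b d
    have := abs_sub_le b c d
    linarith
  refine (tri _ _ _ _).trans ((add_le_add_three (a1.trans a4) a2 a3).trans (le_of_eq ?_))
  push_cast
  ring

lemma choose_div (M p k : ℕ) (hp : 0 < p) (hM : M ≤ p) :
    |(M.choose k : ℝ) / (p : ℝ) ^ k - ((M : ℝ) / p) ^ k / k.factorial| ≤ k ^ 2 / p := by
  have hp0 : (0 : ℝ) < p := by exact_mod_cast hp
  have hk1 : (1 : ℝ) ≤ k.factorial := by exact_mod_cast Nat.factorial_pos k
  have e1 : (M.choose k : ℝ) = (M.descFactorial k : ℝ) / k.factorial := by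
    rw [eq_div_iff (by positivity)]
    have := Nat.descFactorial_eq_factorial_mul_choose M k
    rw [this]
    push_cast
    ring
  rw [abs_sub_comm, e1]
  have h1 : (M.descFactorial k : ℝ) ≤ (M : ℝ) ^ k := by exact_mod_cast Nat.descFactorial_le_pow M k
  have h2 : (((M + 1 - k : ℕ) : ℝ)) ^ k ≤ M.descFactorial k := by
    exact_mod_cast Nat.pow_sub_le_descFactorial M k
  have e2 : ((M : ℝ) / p) ^ k / k.factorial - (M.descFactorial k : ℝ) / k.factorial / (p : ℝ) ^ k =
      ((M : ℝ) ^ k - M.descFactorial k) / p ^ k / k.factorial := by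
    rw [div_pow]
    field_simp
  rw [e2, abs_of_nonneg (by
    have : 0 ≤ (M : ℝ) ^ k - M.descFactorial k := by linarith
    positivity)]
  have h3 : (M : ℝ) ^ k - M.descFactorial k ≤ k ^ 2 / p * p ^ k := by
    obtain ⟨b, hb⟩ : ∃ b : ℝ, b = ((M + 1 - k : ℕ) : ℝ) := ⟨_, rfl⟩
    rw [← hb] at h2
    have hb0 : 0 ≤ b := by rw [hb]; positivity
    rcases Nat.eq_zero_or_pos k with hk | hk
    · subst hk
      simp
    have hb1 : (M : ℝ) - b ≤ k := by
      have h4 : M ≤ (M + 1 - k) + k := by omega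
      have h5 : (M : ℝ) ≤ ((M + 1 - k : ℕ) : ℝ) + k := by exact_mod_cast h4
      rw [← hb] at h5
      linarith
    have hb2 : b ≤ M := by
      rw [hb]
      exact_mod_cast (by omega : M + 1 - k ≤ M)
    have hMp : (M : ℝ) ≤ p := by exact_mod_cast hM
    have h6 : (M : ℝ) ^ k - b ^ k ≤ k * p ^ (k - 1) * k := by
      have h7 := geom_sum₂_mul (M : ℝ) b k
      rw [← h7]
      have h8 : ∑ i ∈ Finset.range k, (M : ℝ) ^ i * b ^ (k - 1 - i) ≤ k * p ^ (k - 1) := by
        calc _ ≤ ∑ i ∈ Finset.range k, (p : ℝ) ^ (k - 1) := by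
              refine Finset.sum_le_sum fun i hi => ?_
              rw [Finset.mem_range] at hi
              calc (M : ℝ) ^ i * b ^ (k - 1 - i) ≤ (p : ℝ) ^ i * (p : ℝ) ^ (k - 1 - i) := by
                    gcongr
                    linarith
                _ = (p : ℝ) ^ (k - 1) := by
                    rw [← pow_add]
                    congr 1
                    omega
          _ = _ := by rw [Finset.sum_const, Finset.card_range, nsmul_eq_mul]
      have h9 : 0 ≤ (M : ℝ) - b := by linarith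
      exact mul_le_mul h8 hb1 h9 (by positivity)
    have h10 : (k : ℝ) ^ 2 / p * p ^ k = k * p ^ (k - 1) * k := by
      obtain ⟨n, rfl⟩ : ∃ n, k = n + 1 := ⟨k - 1, by omega⟩
      rw [Nat.add_sub_cancel, pow_succ (p : ℝ) n]
      field_simp
    rw [h10]
    linarith
  calc ((M : ℝ) ^ k - M.descFactorial k) / p ^ k / k.factorial
      ≤ ((M : ℝ) ^ k - M.descFactorial k) / p ^ k / 1 := by
        have : 0 ≤ (M : ℝ) ^ k - M.descFactorial k := by linarith
        gcongr
    _ = ((M : ℝ) ^ k - M.descFactorial k) / p ^ k := div_one _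
    _ ≤ _ := by
        rw [div_le_iff₀ (by positivity)]
        exact h3

/-- The Poisson law for the number of vanishing sums. -/
theorem law (ε : ℝ) (hε : 0 < ε) (r : ℕ) : ∃ η : ℝ, 0 < η ∧ ∃ P : ℕ, ∀ p : ℕ, P ≤ p →
    ∀ _hp : Fact p.Prime, ∀ δ : ℝ, (p : ℝ) ^ (-η) ≤ δ → δ ≤ 1 / 2 →
      ∀ (ι : Type) [Fintype ι] [DecidableEq ι] (e : ι → ℕ), (∀ i, Odd (e i)) →
      Function.Injective e → (∀ i, e i < p - 1) → Fintype.card ι ≤ p →
      ∀ c : ZMod p, c ≠ 0 → ∀ s : ℕ → ZMod p, (∀ a, s a = 1 ∨ s a = -1) → ∀ β : ι → ZMod p,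
      |∑ A ∈ (Finset.Icc 1 ((p - 1) / 2)).powerset,
          (if Zc e c s β A = r then wt δ ((p - 1) / 2) A else 0) -
        Real.exp (-(Fintype.card ι / p : ℝ)) * (Fintype.card ι / p : ℝ) ^ r / r.factorial| ≤ ε := by
  obtain ⟨J, hJ⟩ : ∃ J : ℕ, 6 / ε ≤ J := exists_nat_ge _
  set N := r + (J + 1) with hN
  have hη : (0 : ℝ) < 1 / (48 * (N + 1)) := by positivity
  refine ⟨1 / (48 * (N + 1)), hη, ?_⟩
  have hmom : ∀ k ≤ N, ∃ P : ℕ, ∀ p : ℕ, P ≤ p → ∀ _hp : Fact p.Prime, ∀ δ : ℝ,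
      (p : ℝ) ^ (-(1 / (48 * (N + 1)) : ℝ)) ≤ δ → δ ≤ 1 / 2 →
      ∀ (ι : Type) [Fintype ι] [DecidableEq ι] (e : ι → ℕ), (∀ i, Odd (e i)) →
      Function.Injective e → (∀ i, e i < p - 1) → Fintype.card ι ≤ p →
      ∀ c : ZMod p, c ≠ 0 → ∀ s : ℕ → ZMod p, (∀ a, s a = 1 ∨ s a = -1) → ∀ β : ι → ZMod p,
      |∑ A ∈ (Finset.Icc 1 ((p - 1) / 2)).powerset,
          wt δ ((p - 1) / 2) A * ((Zc e c s β A).choose k : ℝ) -
        ((Fintype.card ι).choose k : ℝ) / (p : ℝ) ^ k| ≤ 3 * k * (p : ℝ) ^ (-(1 / 12) : ℝ) := by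
    intro k hk
    refine moment_asym k _ hη ?_
    apply one_div_le_one_div_of_le (by positivity)
    have : (k : ℝ) ≤ N := by exact_mod_cast hk
    linarith
  choose! P hP using hmom
  -- the error
  obtain ⟨κ, hκ⟩ : ∃ κ : ℝ, κ = ε / (2 * ((J + 2) * 2 ^ N)) := ⟨_, rfl⟩
  have hκ0 : 0 < κ := by rw [hκ]; positivity
  have ev : ∀ᶠ x : ℝ in atTop, 3 * N * x ^ (-(1 / 12) : ℝ) + N ^ 2 / x ≤ κ := by
    have h1 : Tendsto (fun x : ℝ => 3 * N * x ^ (-(1 / 12) : ℝ) + N ^ 2 / x) atTop (nhds (3 * (N : ℝ) * 0 + 0)) := by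
      refine Tendsto.add ?_ ?_
      · exact (tendsto_rpow_neg_atTop (by norm_num : (0 : ℝ) < 1 / 12)).const_mul _
      · exact tendsto_const_nhds.div_atTop tendsto_id
    rw [mul_zero, add_zero] at h1
    exact h1.eventually_le_const hκ0
  obtain ⟨X₀, hX₀⟩ := eventually_atTop.1 ev
  refine ⟨max ⌈X₀⌉₊ ((Finset.range (N + 1)).sup P), fun p hp hpp δ hδ0 hδ1 ι _ _ e he hinj hep hM
    c hc s hs β => ?_⟩
  have hp0 : 0 < p := (Fact.out : p.Prime).pos
  have hp0' : (0 : ℝ) < p := by exact_mod_cast hp0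
  have hX := hX₀ p (Nat.ceil_le.1 ((le_max_left _ _).trans hp))
  have hlam1 : (Fintype.card ι / p : ℝ) ≤ 1 := by
    rw [div_le_one hp0']
    exact_mod_cast hM
  have hres := poisson_of_moments (Finset.Icc 1 ((p - 1) / 2)).powerset (wt δ ((p - 1) / 2))
    (fun A _ => wt_nonneg (le_trans (by positivity) hδ0) hδ1 _ A) (fun A => Zc e c s β A) r J
    (Fintype.card ι / p : ℝ) κ (by positivity) hlam1 ?_
  · refine hres.trans ?_
    have h1 : (3 : ℝ) / (J + 1).factorial ≤ ε / 2 := by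
      have h2 : ((J : ℝ)) ≤ (J + 1).factorial := by
        exact_mod_cast (Nat.le_succ J).trans (Nat.self_le_factorial (J + 1))
      rw [div_le_iff₀ (by positivity)]
      rw [div_le_iff₀ hε] at hJ
      nlinarith
    have h2 : ((J : ℝ) + 2) * 2 ^ (r + (J + 1)) * κ = ε / 2 := by
      rw [hκ, hN]
      field_simp
    rw [h2]
    linarith
  · intro k hk
    have h1 := hP k hk p ((le_trans (Finset.le_sup (f := P) (Finset.mem_range.2 (by omega)))
      (le_max_right _ _)).trans hp) hpp δ hδ0 hδ1 ι e he hinj hep hM c hc s hs β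
    have h2 := choose_div (Fintype.card ι) p k hp0 hM
    have hkN : (k : ℝ) ≤ N := by exact_mod_cast hk
    have h3 : 3 * (k : ℝ) * (p : ℝ) ^ (-(1 / 12) : ℝ) ≤ 3 * N * (p : ℝ) ^ (-(1 / 12) : ℝ) := by gcongr
    have h4 : (k : ℝ) ^ 2 / p ≤ N ^ 2 / p := by gcongr
    have h5 := abs_sub_le (∑ A ∈ (Finset.Icc 1 ((p - 1) / 2)).powerset,
          wt δ ((p - 1) / 2) A * ((Zc e c s β A).choose k : ℝ))
          (((Fintype.card ι).choose k : ℝ) / (p : ℝ) ^ k)
          ((Fintype.card ι / p : ℝ) ^ k / k.factorial)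
    linarith

end Pool.Agent.H555.Sieg
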