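import Mathlib
import Pool.Agent.H555.Sieg.Sparse
import Pool.Agent.H555.Sieg.Poisson

/-! The Poisson law for random sets of polylogarithmic size. -/

open Finset Filter

namespace Pool.Agent.H555.Sieg

/-- Chebyshev: enough primes. -/
lemma enough_primes : ∃ D₀ : ℕ, 1 ≤ D₀ ∧ ∀ D : ℕ, D₀ ≤ D →
    D ≤ #((Finset.range (⌊(D : ℝ) ^ (6 / 5 : ℝ)⌋₊ + 1)).filter fun q => q.Prime ∧ 2 * D ≤ q) := by
  have hl2 : 0 < Real.log 2 := Real.log_pos one_lt_two
  have ev1 : ∀ᶠ x : ℝ in atTop, Real.log (x + 1) ≤ x * Real.log 2 / 2 := by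
    have h := (Real.isLittleO_log_id_atTop).bound (show (0 : ℝ) < Real.log 2 / 4 by positivity)
    have h2 : ∀ᶠ x : ℝ in atTop, ‖Real.log (x + 1)‖ ≤ Real.log 2 / 4 * ‖id (x + 1)‖ :=
      (tendsto_atTop_add_const_right atTop (1 : ℝ) tendsto_id).eventually h
    filter_upwards [h2, eventually_ge_atTop (1 : ℝ)] with x hx hx1
    rw [Real.norm_of_nonneg (Real.log_nonneg (by linarith)), id, Real.norm_of_nonneg (by linarith)] at hx
    nlinarith
  have ev2 : ∀ᶠ x : ℝ in atTop, Real.log x ≤ Real.log 2 / 24 * x ^ (1 / 5 : ℝ) := by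
    have h := (isLittleO_log_rpow_atTop (show (0 : ℝ) < 1 / 5 by norm_num)).bound
      (show (0 : ℝ) < Real.log 2 / 24 by positivity)
    filter_upwards [h, eventually_ge_atTop (1 : ℝ)] with x hx hx1
    rwa [Real.norm_of_nonneg (Real.log_nonneg hx1), Real.norm_of_nonneg (by positivity)] at hx
  have ev3 : ∀ᶠ x : ℝ in atTop, Real.log (((⌊x ^ (6 / 5 : ℝ)⌋₊ : ℕ) : ℝ) + 1) ≤
      ((⌊x ^ (6 / 5 : ℝ)⌋₊ : ℕ) : ℝ) * Real.log 2 / 2 := by
    have h1 : Tendsto (fun x : ℝ => ((⌊x ^ (6 / 5 : ℝ)⌋₊ : ℕ) : ℝ)) atTop atTop :=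
      tendsto_natCast_atTop_atTop.comp (tendsto_nat_floor_atTop.comp (tendsto_rpow_atTop (by norm_num)))
    exact h1.eventually ev1
  obtain ⟨X, hX⟩ := eventually_atTop.1 ((ev2.and ev3).and (eventually_ge_atTop (2 : ℝ)))
  refine ⟨max 1 ⌈X⌉₊, le_max_left _ _, fun D hD => ?_⟩
  obtain ⟨⟨h1, h2⟩, h3⟩ := hX D (Nat.ceil_le.1 ((le_max_right _ _).trans hD))
  obtain ⟨x, hx⟩ : ∃ x : ℝ, x = D := ⟨_, rfl⟩
  rw [← hx] at h1 h2 h3
  obtain ⟨z, hz⟩ : ∃ z : ℝ, z = x ^ (6 / 5 : ℝ) := ⟨_, rfl⟩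
  have hx0 : 0 < x := by linarith
  have hzx : z = x * x ^ (1 / 5 : ℝ) := by
    rw [hz, ← Real.rpow_one_add' hx0.le (by norm_num)]
    norm_num
  have hz2 : 2 ≤ z := by
    rw [hzx]
    have : (1 : ℝ) ≤ x ^ (1 / 5 : ℝ) := Real.one_le_rpow (by linarith) (by norm_num)
    nlinarith
  set R := ⌊z⌋₊ with hR
  rw [← hx, ← hz, ← hR]
  rw [← hz, ← hR] at h2
  have hR1 : z / 2 ≤ R := by
    have := Nat.lt_floor_add_one z
    rw [← hR] at this
    linarith
  have hR2 : (R : ℝ) ≤ z := Nat.floor_le (by linarith)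
  have hR0 : (1 : ℝ) ≤ R := by linarith
  have hπ := Chebyshev.pi_ge R
  have hlogR : Real.log R ≤ 2 * Real.log x := by
    calc Real.log R ≤ Real.log z := Real.log_le_log (by linarith) hR2
      _ = 6 / 5 * Real.log x := by rw [hz, Real.log_rpow hx0]
      _ ≤ 2 * Real.log x := by
        have := Real.log_nonneg (by linarith : 1 ≤ x)
        linarith
  have hlogR0 : 0 ≤ Real.log R := Real.log_nonneg hR0
  have h4 : 3 * x ≤ (Nat.primeCounting R : ℝ) := by
    rcases hlogR0.eq_or_lt with h0 | h0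
    · -- then `R = 1`, which is excluded for large `x`
      exfalso
      have : (R : ℝ) = 1 := by
        rcases Real.log_eq_zero.1 h0.symm with h | h | h <;> linarith
      rw [this] at h2
      norm_num at h2
      linarith
    · refine le_trans ?_ hπ
      rw [le_div_iff₀ h0]
      have h5 : (R : ℝ) * Real.log 2 / 2 ≤ R * Real.log 2 - Real.log (R + 1) := by linarith
      refine le_trans ?_ h5
      calc 3 * x * Real.log R ≤ 3 * x * (2 * Real.log x) := by gcongr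
        _ = 6 * x * Real.log x := by ring
        _ ≤ 6 * x * (Real.log 2 / 24 * x ^ (1 / 5 : ℝ)) := by gcongr
        _ = z * Real.log 2 / 4 := by rw [hzx]; ring
        _ ≤ _ := by
          have := mul_le_mul_of_nonneg_right hR1 hl2.le
          linarith
  have h5 : 3 * D ≤ Nat.primeCounting R := by
    rw [hx] at h4
    exact_mod_cast h4
  have h6 : Nat.primeCounting R ≤ #((Finset.range (R + 1)).filter fun q => q.Prime ∧ 2 * D ≤ q) + 2 * D := by
    rw [Nat.primeCounting, Nat.primeCounting', Nat.count_eq_card_filter_range]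
    calc #((Finset.range (R + 1)).filter Nat.Prime)
        ≤ #(((Finset.range (R + 1)).filter fun q => q.Prime ∧ 2 * D ≤ q) ∪ Finset.range (2 * D)) := by
          refine Finset.card_le_card fun q hq => ?_
          rw [Finset.mem_filter] at hq
          rw [Finset.mem_union, Finset.mem_filter]
          by_cases h : 2 * D ≤ q
          · exact Or.inl ⟨hq.1, hq.2, h⟩
          · exact Or.inr (Finset.mem_range.2 (not_le.1 h))
      _ ≤ _ := by
          refine (Finset.card_union_le _ _).trans ?_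
          rw [Finset.card_range]
  omega

/-- The asymptotic inequalities which are used. -/
lemma params (K : ℕ) (κ : ℝ) (hκ : 0 < κ) : ∀ᶠ x : ℝ in atTop, ∀ b D R : ℝ, 0 ≤ b → 0 ≤ D → 0 ≤ R →
    b ≤ 2 * x → D ≤ (2 * K + 1) * x → R ≤ D ^ (6 / 5 : ℝ) →
    (K + 2) * (D * (K + b * (R * D))) * x ≤ x ^ 6 ∧
    R ^ 2 * (8 * Real.exp (-x) + 8 * x ^ (-(5 / 2) : ℝ)) ≤ κ := by
  obtain ⟨a, ha⟩ : ∃ a : ℝ, a = 2 * K + 1 := ⟨_, rfl⟩
  have ha1 : 1 ≤ a := by
    rw [ha]
    have : (0 : ℝ) ≤ K := Nat.cast_nonneg K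
    linarith
  have ev1 : ∀ᶠ x : ℝ in atTop, 3 * a ^ 4 * (K + 2) ≤ x ^ (4 / 5 : ℝ) :=
    (tendsto_rpow_atTop (by norm_num)).eventually_ge_atTop _
  have ev2 : ∀ᶠ x : ℝ in atTop,
      a ^ 4 * (8 * (x ^ (12 / 5 : ℝ) * Real.exp (-x)) + 8 * x ^ (-(1 / 10) : ℝ)) ≤ κ := by
    have h1 : Tendsto (fun x : ℝ => a ^ 4 * (8 * (x ^ (12 / 5 : ℝ) * Real.exp (-x)) +
        8 * x ^ (-(1 / 10) : ℝ))) atTop (nhds (a ^ 4 * (8 * 0 + 8 * 0))) := by
      refine (Tendsto.add ?_ ?_).const_mul _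
      · have := tendsto_rpow_mul_exp_neg_mul_atTop_nhds_zero (12 / 5) 1 one_pos
        simp only [neg_mul, one_mul] at this
        exact this.const_mul _
      · exact (tendsto_rpow_neg_atTop (by norm_num : (0 : ℝ) < 1 / 10)).const_mul _
    rw [mul_zero, add_zero, mul_zero] at h1
    exact h1.eventually_le_const hκ
  filter_upwards [ev1, ev2, eventually_ge_atTop (1 : ℝ)] with x h1 h2 hx1 b D R hb0 hD0 hR0 hb hD hR
  rw [← ha] at hD
  have hx0 : 0 < x := by linarith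
  have hK : (0 : ℝ) ≤ K := Nat.cast_nonneg K
  have hR2 : R ≤ a ^ 2 * x ^ (6 / 5 : ℝ) := by
    calc R ≤ D ^ (6 / 5 : ℝ) := hR
      _ ≤ (a * x) ^ (6 / 5 : ℝ) := by gcongr
      _ = a ^ (6 / 5 : ℝ) * x ^ (6 / 5 : ℝ) := Real.mul_rpow (by linarith) hx0.le
      _ ≤ a ^ 2 * x ^ (6 / 5 : ℝ) := by
        gcongr
        rw [← Real.rpow_natCast]
        apply Real.rpow_le_rpow_of_exponent_le ha1
        norm_num
  constructor
  · have e1 : b * (R * D) ≤ 2 * a ^ 3 * x ^ (16 / 5 : ℝ) := by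
      calc b * (R * D) ≤ (2 * x) * ((a ^ 2 * x ^ (6 / 5 : ℝ)) * (a * x)) := by gcongr
        _ = 2 * a ^ 3 * (x ^ (6 / 5 : ℝ) * x ^ 2) := by ring
        _ = _ := by
          rw [← Real.rpow_natCast x 2, ← Real.rpow_add hx0]
          norm_num
    have e2 : (K : ℝ) ≤ a ^ 3 * x ^ (16 / 5 : ℝ) := by
      have h3 : (1 : ℝ) ≤ x ^ (16 / 5 : ℝ) := Real.one_le_rpow hx1 (by norm_num)
      have h4 : a ≤ a ^ 3 := by
        calc a = a ^ 1 := (pow_one a).symm
          _ ≤ a ^ 3 := pow_le_pow_right₀ ha1 (by norm_num)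
      have h5 : (K : ℝ) ≤ a := by rw [ha]; linarith
      calc (K : ℝ) ≤ a ^ 3 * 1 := by linarith
        _ ≤ _ := by gcongr
    have e3 : (K : ℝ) + b * (R * D) ≤ 3 * a ^ 3 * x ^ (16 / 5 : ℝ) := by linarith
    calc (K + 2) * (D * (K + b * (R * D))) * x
        ≤ (K + 2) * ((a * x) * (3 * a ^ 3 * x ^ (16 / 5 : ℝ))) * x := by gcongr
      _ = (3 * a ^ 4 * (K + 2)) * (x ^ 2 * x ^ (16 / 5 : ℝ)) := by ring
      _ ≤ x ^ (4 / 5 : ℝ) * (x ^ 2 * x ^ (16 / 5 : ℝ)) := by gcongr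
      _ = x ^ 6 := by
        rw [← Real.rpow_natCast x 2, ← Real.rpow_natCast x 6, ← Real.rpow_add hx0,
          ← Real.rpow_add hx0]
        norm_num
  · refine le_trans ?_ h2
    calc R ^ 2 * (8 * Real.exp (-x) + 8 * x ^ (-(5 / 2) : ℝ))
        ≤ (a ^ 2 * x ^ (6 / 5 : ℝ)) ^ 2 * (8 * Real.exp (-x) + 8 * x ^ (-(5 / 2) : ℝ)) := by gcongr
      _ = a ^ 4 * (8 * ((x ^ (6 / 5 : ℝ)) ^ 2 * Real.exp (-x)) +
          8 * ((x ^ (6 / 5 : ℝ)) ^ 2 * x ^ (-(5 / 2) : ℝ))) := by ring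
      _ = _ := by
        rw [← Real.rpow_natCast (x ^ (6 / 5 : ℝ)) 2, ← Real.rpow_mul hx0.le, ← Real.rpow_add hx0]
        norm_num

/-- The Poisson law for the number of vanishing sums, for random sets of polylogarithmic size. -/
theorem law2 (ε : ℝ) (hε : 0 < ε) (r : ℕ) : ∃ P : ℕ, ∀ p : ℕ, P ≤ p →
    ∀ _hp : Fact p.Prime, ∀ δ : ℝ, Real.log p ^ 6 / p ≤ δ → δ ≤ 1 / 2 →
      ∀ (ι : Type) [Fintype ι] [DecidableEq ι] (e : ι → ℕ), (∀ i, Odd (e i)) →
      Function.Injective e → (∀ i, e i < p - 1) → Fintype.card ι ≤ p →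
      ∀ c : ZMod p, c ≠ 0 → ∀ s : ℕ → ZMod p, (∀ a, s a = 1 ∨ s a = -1) → ∀ β : ι → ZMod p,
      |∑ A ∈ (Finset.Icc 1 ((p - 1) / 2)).powerset,
          (if Zc e c s β A = r then wt δ ((p - 1) / 2) A else 0) -
        Real.exp (-(Fintype.card ι / p : ℝ)) * (Fintype.card ι / p : ℝ) ^ r / r.factorial| ≤ ε := by
  obtain ⟨J, hJ⟩ : ∃ J : ℕ, 12 / ε ≤ J := exists_nat_ge _
  obtain ⟨K, hK⟩ : ∃ K, K = r + (J + 1) := ⟨_, rfl⟩
  have hK1 : 1 ≤ K := by omega
  -- the error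
  obtain ⟨κ, hκ⟩ : ∃ κ : ℝ, κ = ε / (4 * ((J + 2) * 2 ^ K)) := ⟨_, rfl⟩
  have hκ0 : 0 < κ := by rw [hκ]; positivity
  obtain ⟨D₀, hD₀1, hD₀⟩ := enough_primes
  have ev1 : ∀ᶠ x : ℝ in atTop, K * (x ^ (12 / 5 : ℝ) * (2 * K + 1) ^ 4) * Real.exp (-x) +
      (K ^ 2 + 1) * Real.exp (-x) ≤ κ := by
    have h1 : Tendsto (fun x : ℝ => K * (2 * K + 1) ^ 4 * (x ^ (12 / 5 : ℝ) * Real.exp (-x)) +
      (K ^ 2 + 1) * Real.exp (-x)) atTop (nhds ((K : ℝ) * (2 * K + 1) ^ 4 * 0 + (K ^ 2 + 1) * 0)) := by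
      refine Tendsto.add (Tendsto.const_mul _ ?_) (Tendsto.const_mul _ ?_)
      · have := tendsto_rpow_mul_exp_neg_mul_atTop_nhds_zero (12 / 5) 1 one_pos
        simp only [neg_mul, one_mul] at this
        exact this
      · exact Real.tendsto_exp_neg_atTop_nhds_zero
    rw [mul_zero, mul_zero, add_zero] at h1
    filter_upwards [h1.eventually_le_const hκ0] with x hx
    refine le_trans (le_of_eq ?_) hx
    ring
  obtain ⟨x₀, hx₀⟩ := eventually_atTop.1 (((params K (ε / 2) (by positivity)).and ev1).and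
    ((eventually_ge_atTop (4 : ℝ)).and (eventually_ge_atTop ((D₀ : ℝ) + 1))))
  refine ⟨⌈Real.exp x₀⌉₊, fun p hp hpp δ hδ0 hδ1 ι _ _ e he hinj hep hM c hc s hs β => ?_⟩
  have hprime := (Fact.out : p.Prime)
  have hp0 : 0 < p := hprime.pos
  have hp0' : (0 : ℝ) < p := by exact_mod_cast hp0
  obtain ⟨x, hx⟩ : ∃ x : ℝ, x = Real.log p := ⟨_, rfl⟩
  have hxx₀ : x₀ ≤ x := by
    rw [hx, Real.le_log_iff_exp_le hp0']
    exact Nat.ceil_le.1 hp
  obtain ⟨⟨h1, h2⟩, h3, h4⟩ := hx₀ x hxx₀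
  have hpx : (p : ℝ) = Real.exp x := by rw [hx, Real.exp_log hp0']
  have hx0 : 0 < x := by linarith
  rw [← hx] at hδ0
  have hδpos : 0 < δ := lt_of_lt_of_le (by positivity) hδ0
  obtain ⟨m, hm⟩ : ∃ m, m = (p - 1) / 2 := ⟨_, rfl⟩
  have hp3 : 3 ≤ p := by
    have : (3 : ℝ) ≤ p := by
      rw [hpx]
      have := Real.add_one_le_exp x
      linarith
    exact_mod_cast this
  have hpm : p = 2 * m + 1 := by
    have := hprime.eq_two_or_odd
    omega
  rw [← hm]
  -- the parameters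
  obtain ⟨b, hb⟩ : ∃ b, b = Nat.log 2 p + 1 := ⟨_, rfl⟩
  have hpb : p < 2 ^ b := by rw [hb]; exact Nat.lt_pow_succ_log_self (by norm_num) p
  have hbx : (b : ℝ) ≤ 2 * x := by
    have h5 : ((Nat.log 2 p : ℕ) : ℝ) * Real.log 2 ≤ x := by
      have : ((2 ^ Nat.log 2 p : ℕ) : ℝ) ≤ p := by exact_mod_cast Nat.pow_log_le_self 2 hp0.ne'
      have h6 := Real.log_le_log (by positivity) this
      rw [Nat.cast_pow, Real.log_pow, ← hx] at h6
      exact_mod_cast h6
    have h6 : (0.6931471803 : ℝ) < Real.log 2 := Real.log_two_gt_d9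
    have h7 : (Nat.log 2 p : ℝ) * 0.6931471803 ≤ x := by
      refine le_trans ?_ h5
      gcongr
    rw [hb]
    push_cast
    linarith
  obtain ⟨D, hD⟩ : ∃ D, D = K * b + 1 := ⟨_, rfl⟩
  have hDK : p ^ K < 2 ^ D := by
    calc p ^ K ≤ (2 ^ b) ^ K := Nat.pow_le_pow_left hpb.le K
      _ = 2 ^ (K * b) := by rw [← pow_mul, mul_comm]
      _ < 2 ^ D := Nat.pow_lt_pow_right (by norm_num) (by omega)
  have hDx : (D : ℝ) ≤ (2 * K + 1) * x := by
    rw [hD]
    push_cast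
    have : (K : ℝ) * b ≤ K * (2 * x) := by gcongr
    nlinarith
  have hDD₀ : D₀ ≤ D := by
    have h5 : x ≤ b := by
      have h6 := Real.log_le_log hp0' (show (p : ℝ) ≤ ((2 ^ b : ℕ) : ℝ) by exact_mod_cast hpb.le)
      rw [← hx, Nat.cast_pow, Real.log_pow, Nat.cast_ofNat] at h6
      have h7 : Real.log 2 < 0.6931471808 := Real.log_two_lt_d9
      have h8 : (b : ℝ) * Real.log 2 ≤ b * 1 := by
        gcongr
        linarith
      linarith
    have h6 : (D₀ : ℝ) ≤ b := by linarith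
    have h7 : D₀ ≤ b := by exact_mod_cast h6
    have h8 : b ≤ K * b := Nat.le_mul_of_pos_left b hK1
    omega
  obtain ⟨R, hR⟩ : ∃ R, R = ⌊(D : ℝ) ^ (6 / 5 : ℝ)⌋₊ := ⟨_, rfl⟩
  have hRD : (R : ℝ) ≤ (D : ℝ) ^ (6 / 5 : ℝ) := by
    rw [hR]
    exact Nat.floor_le (by positivity)
  have hprimes := hD₀ D hDD₀
  rw [← hR] at hprimes
  obtain ⟨h5, h6⟩ := h1 b D R (Nat.cast_nonneg _) (Nat.cast_nonneg _) (Nat.cast_nonneg _) hbx hDx hRD
  obtain ⟨L, hL⟩ : ∃ L, L = K + b * (R * D) := ⟨_, rfl⟩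
  have h5' : (K + 2) * (D * (L : ℝ)) * x ≤ x ^ 6 := by
    rw [hL]
    push_cast
    exact h5
  obtain ⟨g, hg⟩ := IsCyclic.exists_generator (α := (ZMod p)ˣ)
  have hg' : orderOf g = p - 1 := by
    rw [orderOf_eq_card_of_forall_mem_zpowers hg, Nat.card_eq_fintype_card, ZMod.card_units]
  classical
  have hxp : x ^ 6 ≤ δ * p := by
    rw [div_le_iff₀ hp0'] at hδ0
    exact hδ0
  have hexp0 : 0 < Real.exp (-x) := Real.exp_pos _
  have hpinv : (1 : ℝ) / p = Real.exp (-x) := by rw [hpx, Real.exp_neg, one_div]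
  have hK0 : (0 : ℝ) ≤ K := Nat.cast_nonneg K
  -- the exponents of small order
  set bad := Finset.univ.filter fun i => ¬ R < orderOf (g ^ e i) with hbad
  have hbadR : bad.card ≤ R ^ 2 := few_small e hg' hinj hep R
  set e' : {i : ι // R < orderOf (g ^ e i)} → ℕ := fun i => e i with he'
  set β' : {i : ι // R < orderOf (g ^ e i)} → ZMod p := fun i => β i with hβ'
  obtain ⟨M, hMdef⟩ : ∃ M, M = Fintype.card ι := ⟨_, rfl⟩
  obtain ⟨M', hM'def⟩ : ∃ M', M' = Fintype.card {i : ι // R < orderOf (g ^ e i)} := ⟨_, rfl⟩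
  have hMM' : M' + bad.card = M := by
    rw [hM'def, hMdef, hbad, Fintype.card_subtype, Finset.card_filter_add_card_filter_not,
      Finset.card_univ]
  rw [← hMdef] at hM ⊢
  have hM'p : M' ≤ p := by omega
  -- the moments
  have hmom : ∀ k ≤ K, |∑ A ∈ (Finset.Icc 1 m).powerset,
      wt δ m A * ((Zc e' c s β' A).choose k : ℝ) - (M / p : ℝ) ^ k / k.factorial| ≤ κ := by
    intro k hk
    obtain ⟨Λ, hΛ⟩ : ∃ Λ : ℝ, Λ = ((p : ℝ) - 1) * p ^ 2 / (D * L) := ⟨_, rfl⟩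
    have hDL : (0 : ℝ) < D * L := by
      have h7 : 0 < D := by omega
      have h8 : 0 < L := by omega
      have h9 : 0 < D * L := Nat.mul_pos h7 h8
      exact_mod_cast h9
    have hQ : ∀ t : {i : ι // R < orderOf (g ^ e i)} → ZMod p, t ≠ 0 → #(spt t) ≤ k → Λ ≤ Q e' t := by
      intro t ht htk
      obtain ⟨i₀, hi₀⟩ := Function.ne_iff.1 ht
      simp only [Pi.zero_apply] at hi₀
      have h7 := nonconc e' hg' (fun i j h => Subtype.ext (hinj h)) (fun i => hep i) K D R b L hDK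
        hpb (by omega) hprimes t (htk.trans hk) i₀
        (by rw [spt, Finset.mem_filter]; exact ⟨Finset.mem_univ _, hi₀⟩) i₀.2
      rw [hΛ, div_le_iff₀ hDL]
      linarith
    have h7 := moment_nc e' δ hδpos.le hδ1 m hpm (fun i => he i) (by rw [← hM'def]; exact hM'p) c hc
      s hs β' k Λ hQ
    rw [← hM'def] at h7
    have hexpo : (K + 2) * x ≤ 2 * δ / (p : ℝ) ^ 2 * Λ := by
      have e1 : 2 * δ / (p : ℝ) ^ 2 * Λ = 2 * δ * (p - 1) / (D * L) := by
        rw [hΛ]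
        field_simp
      rw [e1, le_div_iff₀ hDL]
      have h8 : (p : ℝ) ≤ 2 * (p - 1) := by
        have : (3 : ℝ) ≤ p := by exact_mod_cast hp3
        linarith
      calc (K + 2) * x * (D * L) = (K + 2) * (D * (L : ℝ)) * x := by ring
        _ ≤ x ^ 6 := h5'
        _ ≤ δ * p := hxp
        _ ≤ δ * (2 * (p - 1)) := by gcongr
        _ = _ := by ring
    have h8 : (p : ℝ) ^ (2 * k) * Real.exp (-(2 * δ / p ^ 2 * Λ)) ≤ Real.exp (-x) * (p : ℝ) ^ k := by
      calc (p : ℝ) ^ (2 * k) * Real.exp (-(2 * δ / p ^ 2 * Λ))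
          ≤ (p : ℝ) ^ (2 * k) * Real.exp (-((K + 2) * x)) := by gcongr
        _ = Real.exp (-((K + 2) * x) + k * x) * (p : ℝ) ^ k := by
          rw [two_mul, pow_add, Real.exp_add, Real.exp_nat_mul, ← hpx]
          ring
        _ ≤ Real.exp (-x) * (p : ℝ) ^ k := by
          gcongr
          have h9 : (k : ℝ) ≤ K := by exact_mod_cast hk
          nlinarith
    have hpk : (0 : ℝ) < (p : ℝ) ^ k := by positivity
    have g1 : |∑ A ∈ (Finset.Icc 1 m).powerset, wt δ m A * ((Zc e' c s β' A).choose k : ℝ) -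
        (M'.choose k : ℝ) / (p : ℝ) ^ k| ≤ Real.exp (-x) := by
      have e1 : ∑ A ∈ (Finset.Icc 1 m).powerset, wt δ m A * ((Zc e' c s β' A).choose k : ℝ) -
          (M'.choose k : ℝ) / (p : ℝ) ^ k =
          ((p : ℝ) ^ k * ∑ A ∈ (Finset.Icc 1 m).powerset, wt δ m A *
            ((Zc e' c s β' A).choose k : ℝ) - (M'.choose k : ℝ)) / (p : ℝ) ^ k := by
        field_simp
      rw [e1, abs_div, abs_of_pos hpk, div_le_iff₀ hpk]
      exact h7.trans h8
    have g2 := choose_div M' p k hp0 hM'p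
    have g3 : |(M' / p : ℝ) ^ k / k.factorial - (M / p : ℝ) ^ k / k.factorial| ≤
        K * (x ^ (12 / 5 : ℝ) * (2 * K + 1) ^ 4) * Real.exp (-x) := by
      have hk1 : (1 : ℝ) ≤ k.factorial := by exact_mod_cast Nat.factorial_pos k
      have a1 : (M' : ℝ) ≤ M := by exact_mod_cast (by omega : M' ≤ M)
      have a2 : (M / p : ℝ) ≤ 1 := by
        rw [div_le_one hp0']
        exact_mod_cast hM
      have a3 : (M' / p : ℝ) ≤ M / p := by gcongr
      have a4 : (0 : ℝ) ≤ (M' / p : ℝ) := by positivity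
      have a5 : (M / p : ℝ) ^ k - (M' / p : ℝ) ^ k ≤ k * (M / p - M' / p) := by
        rw [← geom_sum₂_mul]
        have h9 : ∑ i ∈ Finset.range k, (M / p : ℝ) ^ i * (M' / p : ℝ) ^ (k - 1 - i) ≤ k := by
          calc _ ≤ ∑ i ∈ Finset.range k, (1 : ℝ) := by
                refine Finset.sum_le_sum fun i _ => ?_
                have b1 : (M / p : ℝ) ^ i ≤ 1 := pow_le_one₀ (by positivity) a2
                have b2 : (M' / p : ℝ) ^ (k - 1 - i) ≤ 1 := pow_le_one₀ a4 (a3.trans a2)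
                calc _ ≤ (1 : ℝ) * 1 := mul_le_mul b1 b2 (by positivity) (by norm_num)
                  _ = 1 := one_mul 1
            _ = k := by simp
        exact mul_le_mul_of_nonneg_right h9 (by linarith)
      have a6 : (M / p - M' / p : ℝ) ≤ (x ^ (12 / 5 : ℝ) * (2 * K + 1) ^ 4) * Real.exp (-x) := by
        rw [← sub_div, div_eq_mul_one_div, hpinv]
        gcongr
        have b1 : (M : ℝ) - M' = (bad.card : ℕ) := by
          rw [← hMM']
          push_cast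
          ring
        have b2 : ((bad.card : ℕ) : ℝ) ≤ (R : ℝ) ^ 2 := by exact_mod_cast hbadR
        have b3 : (1 : ℝ) ≤ 2 * K + 1 := by linarith
        calc (M : ℝ) - M' = (bad.card : ℕ) := b1
          _ ≤ (R : ℝ) ^ 2 := b2
          _ ≤ ((D : ℝ) ^ (6 / 5 : ℝ)) ^ 2 := by gcongr
          _ = (D : ℝ) ^ (12 / 5 : ℝ) := by
            rw [← Real.rpow_natCast, ← Real.rpow_mul (by positivity)]
            norm_num
          _ ≤ ((2 * K + 1) * x) ^ (12 / 5 : ℝ) := by gcongr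
          _ = x ^ (12 / 5 : ℝ) * (2 * K + 1) ^ (12 / 5 : ℝ) := by
            rw [Real.mul_rpow (by linarith) hx0.le, mul_comm]
          _ ≤ x ^ (12 / 5 : ℝ) * (2 * K + 1) ^ 4 := by
            gcongr
            rw [← Real.rpow_natCast]
            apply Real.rpow_le_rpow_of_exponent_le b3
            norm_num
      have a7 : (k : ℝ) ≤ K := by exact_mod_cast hk
      rw [abs_sub_comm, ← sub_div, abs_of_nonneg (by
        have : (M' / p : ℝ) ^ k ≤ (M / p : ℝ) ^ k := by gcongr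
        have : 0 ≤ (M / p : ℝ) ^ k - (M' / p : ℝ) ^ k := by linarith
        positivity)]
      have a8 : 0 ≤ (M / p : ℝ) ^ k - (M' / p : ℝ) ^ k := by
        have : (M' / p : ℝ) ^ k ≤ (M / p : ℝ) ^ k := by gcongr
        linarith
      calc ((M / p : ℝ) ^ k - (M' / p : ℝ) ^ k) / k.factorial
          ≤ ((M / p : ℝ) ^ k - (M' / p : ℝ) ^ k) / 1 := by gcongr
        _ = (M / p : ℝ) ^ k - (M' / p : ℝ) ^ k := div_one _
        _ ≤ k * (M / p - M' / p) := a5
        _ ≤ K * ((x ^ (12 / 5 : ℝ) * (2 * K + 1) ^ 4) * Real.exp (-x)) := by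
          gcongr
        _ = _ := by ring
    have g4 : (k : ℝ) ^ 2 / p ≤ K ^ 2 * Real.exp (-x) := by
      rw [div_eq_mul_one_div, hpinv]
      have : (k : ℝ) ≤ K := by exact_mod_cast hk
      gcongr
    have tri : ∀ a b c d : ℝ, |a - d| ≤ |a - b| + |b - c| + |c - d| := by
      intro a b c d
      have := abs_sub_le a b d
      have := abs_sub_le b c d
      linarith
    refine (tri _ _ _ _).trans ((add_le_add_three g1 (g2.trans g4) g3).trans ?_)
    linarith
  have hlam1 : (M / p : ℝ) ≤ 1 := by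
    rw [div_le_one hp0']
    exact_mod_cast hM
  have hres := poisson_of_moments (Finset.Icc 1 m).powerset (wt δ m)
    (fun A _ => wt_nonneg hδpos.le hδ1 _ A) (fun A => Zc e' c s β' A) r J
    (M / p : ℝ) κ (by positivity) hlam1 (fun k hk => hmom k (by omega))
  -- the exponents of small order do not matter
  obtain ⟨V, hV⟩ : ∃ V, V = ⌈2 * (p : ℝ) * x ^ (-(5 / 2) : ℝ)⌉₊ := ⟨_, rfl⟩
  have hx5 : 0 < x ^ (-(5 / 2) : ℝ) := by positivity
  have hV1 : 2 * (p : ℝ) * x ^ (-(5 / 2) : ℝ) ≤ V := by rw [hV]; exact Nat.le_ceil _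
  have hV2 : (V : ℝ) ≤ 2 * (p : ℝ) * x ^ (-(5 / 2) : ℝ) + 1 := by
    rw [hV]
    exact (Nat.ceil_lt_add_one (by positivity)).le
  have hV0 : 0 < V := by
    have : (0 : ℝ) < V := lt_of_lt_of_le (by positivity) hV1
    exact_mod_cast this
  have hV3 : 3 * (p : ℝ) ^ 2 * Real.log p ≤ δ * ((p - 1) * (V : ℝ) ^ 2) := by
    rw [← hx]
    have h7 : (x ^ (-(5 / 2) : ℝ)) ^ 2 * x ^ 6 = x := by
      rw [← Real.rpow_natCast, ← Real.rpow_natCast x 6, ← Real.rpow_mul hx0.le,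
        ← Real.rpow_add hx0]
      norm_num
    have h8 : 3 * (p : ℝ) ≤ 4 * (p - 1) := by
      have : (4 : ℝ) ≤ p := by
        rw [hpx]
        have := Real.add_one_le_exp x
        linarith
      linarith
    have h9 : (0 : ℝ) ≤ p - 1 := by linarith
    calc 3 * (p : ℝ) ^ 2 * x = (3 * p) * (p * x) := by ring
      _ ≤ (4 * (p - 1)) * (p * x) := by gcongr
      _ = (p - 1) * (4 * p) * ((x ^ (-(5 / 2) : ℝ)) ^ 2 * x ^ 6) := by rw [h7]; ring
      _ ≤ (p - 1) * (4 * p) * ((x ^ (-(5 / 2) : ℝ)) ^ 2 * (δ * p)) := by gcongr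
      _ = δ * ((p - 1) * (2 * (p : ℝ) * x ^ (-(5 / 2) : ℝ)) ^ 2) := by ring
      _ ≤ _ := by gcongr
  have hdiff : |∑ A ∈ (Finset.Icc 1 m).powerset, (if Zc e c s β A = r then wt δ m A else 0) -
      ∑ A ∈ (Finset.Icc 1 m).powerset, (if Zc e' c s β' A = r then wt δ m A else 0)| ≤ ε / 2 := by
    rw [← Finset.sum_sub_distrib]
    refine (Finset.abs_sum_le_sum_abs _ _).trans ?_
    have h7 : ∀ A ∈ (Finset.Icc 1 m).powerset,
        |(if Zc e c s β A = r then wt δ m A else 0) - (if Zc e' c s β' A = r then wt δ m A else 0)| ≤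
        ∑ i ∈ bad, (if β i + c * ∑ a ∈ A, s a * (a : ZMod p) ^ e i = 0 then wt δ m A else 0) := by
      intro A _
      have hw0 := wt_nonneg hδpos.le hδ1 m A
      have hnn : ∀ i ∈ bad, 0 ≤
          (if β i + c * ∑ a ∈ A, s a * (a : ZMod p) ^ e i = 0 then wt δ m A else 0) := by
        intro i _
        split_ifs
        · exact hw0
        · exact le_refl _
      by_cases h : ∃ i ∈ bad, β i + c * ∑ a ∈ A, s a * (a : ZMod p) ^ e i = 0
      · obtain ⟨i, hi, hi2⟩ := h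
        have h8 := Finset.single_le_sum hnn hi
        rw [if_pos hi2] at h8
        refine le_trans ?_ h8
        split_ifs
        · rw [sub_self, abs_zero]; exact hw0
        · rw [sub_zero, abs_of_nonneg hw0]
        · rw [zero_sub, abs_neg, abs_of_nonneg hw0]
        · rw [sub_self, abs_zero]; exact hw0
      · push Not at h
        have h8 : Zc e c s β A = Zc e' c s β' A := by
          unfold Zc
          rw [← Finset.card_map (Function.Embedding.subtype _)]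
          congr 1
          ext i
          simp only [Finset.mem_filter, Finset.mem_univ, true_and, Finset.mem_map,
            Function.Embedding.subtype_apply, Subtype.exists, exists_and_right, exists_eq_right]
          constructor
          · intro h9
            have h10 : R < orderOf (g ^ e i) := by
              by_contra h11
              exact h i (by rw [hbad, Finset.mem_filter]; exact ⟨Finset.mem_univ _, h11⟩) h9
            exact ⟨h10, h9⟩
          · rintro ⟨_, h9⟩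
            exact h9
        rw [h8, sub_self, abs_zero]
        exact Finset.sum_nonneg hnn
    refine (Finset.sum_le_sum h7).trans ?_
    rw [Finset.sum_comm]
    calc ∑ i ∈ bad, ∑ A ∈ (Finset.Icc 1 m).powerset,
          (if β i + c * ∑ a ∈ A, s a * (a : ZMod p) ^ e i = 0 then wt δ m A else 0)
        ≤ ∑ i ∈ bad, ((4 + 4 * V) / p : ℝ) := Finset.sum_le_sum fun i _ =>
          single δ hδpos hδ1 m hpm (e i) (he i) c hc s hs (β i) V hV0 hV3
      _ = bad.card * ((4 + 4 * V) / p : ℝ) := by rw [Finset.sum_const, nsmul_eq_mul]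
      _ ≤ (R : ℝ) ^ 2 * (8 * Real.exp (-x) + 8 * x ^ (-(5 / 2) : ℝ)) := by
          have b2 : ((bad.card : ℕ) : ℝ) ≤ (R : ℝ) ^ 2 := by exact_mod_cast hbadR
          have b3 : ((4 + 4 * V) / p : ℝ) ≤ 8 * Real.exp (-x) + 8 * x ^ (-(5 / 2) : ℝ) := by
            rw [div_le_iff₀ hp0']
            have b4 : Real.exp (-x) * p = 1 := by
              rw [hpx, ← Real.exp_add, neg_add_cancel, Real.exp_zero]
            calc (4 + 4 * (V : ℝ)) ≤ 4 + 4 * (2 * (p : ℝ) * x ^ (-(5 / 2) : ℝ) + 1) := by gcongr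
              _ = 8 * (Real.exp (-x) * p) + 8 * x ^ (-(5 / 2) : ℝ) * p := by rw [b4]; ring
              _ = _ := by ring
          gcongr
      _ ≤ ε / 2 := h6
  have h7 : (3 : ℝ) / (J + 1).factorial + (J + 2) * 2 ^ (r + (J + 1)) * κ ≤ ε / 2 := by
    have h8 : (3 : ℝ) / (J + 1).factorial ≤ ε / 4 := by
      have h2 : ((J : ℝ)) ≤ (J + 1).factorial := by
        exact_mod_cast (Nat.le_succ J).trans (Nat.self_le_factorial (J + 1))
      rw [div_le_iff₀ (by positivity)]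
      rw [div_le_iff₀ hε] at hJ
      nlinarith
    have h9 : ((J : ℝ) + 2) * 2 ^ (r + (J + 1)) * κ = ε / 4 := by
      rw [hκ, hK]
      field_simp
    linarith
  have h8 := abs_sub_le (∑ A ∈ (Finset.Icc 1 m).powerset, (if Zc e c s β A = r then wt δ m A else 0))
    (∑ A ∈ (Finset.Icc 1 m).powerset, (if Zc e' c s β' A = r then wt δ m A else 0))
    (Real.exp (-(M / p : ℝ)) * (M / p : ℝ) ^ r / r.factorial)
  linarith

end Pool.Agent.H555.Sieg
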